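import Pool.Agent.PCN.Stmts

/-!
# ALA: the parameters of the blow-up
-/

set_option autoImplicit false

open MeasureTheory Set Filter Topology

namespace Pool.Agent.PCN

namespace ALAaux

/-- The Laplace transform as a function of the coefficient of `k`. -/
noncomputable def Psi {n : ℕ} (U : Set (Fin n → ℝ)) (k : (Fin n → ℝ) → ℝ) (η : Fin n → ℝ)
    (t : ℝ) : ℝ := ∫ y in U, Real.exp (-(dotProduct η y) - max t 0 * k y)

theorem cont_dot {n : ℕ} (η : Fin n → ℝ) : Continuous fun y : Fin n → ℝ => dotProduct η y := by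
  unfold dotProduct
  fun_prop

theorem int_exp (hI : INT) {n : ℕ} {U : Set (Fin n → ℝ)} (hU : MeasurableSet U) {η : Fin n → ℝ}
    (hη : η ∈ Ud U) : IntegrableOn (fun y => Real.exp (-(dotProduct η y))) U := by
  obtain ⟨ε, hε, h⟩ := hη
  have h1 := hI n U (fun y => dotProduct η y) ε 0 hU hε (cont_dot η).continuousOn
    (fun y hy => by rw [add_zero]; exact h y hy)
  refine Integrable.mono' h1 ?_ ?_
  · exact (Real.continuous_exp.comp (cont_dot η).neg).aestronglyMeasurable
  · refine Eventually.of_forall fun y => ?_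
    rw [Real.norm_eq_abs, abs_of_pos (Real.exp_pos _)]
    have h2 := Real.exp_pos (-(dotProduct η y))
    have h3 := norm_nonneg y
    nlinarith

theorem le_bound {n : ℕ} {k : (Fin n → ℝ) → ℝ} (η : Fin n → ℝ) (t : ℝ) {y : Fin n → ℝ}
    (hy : 0 ≤ k y) : Real.exp (-(dotProduct η y) - max t 0 * k y) ≤
      Real.exp (-(dotProduct η y)) := by
  apply Real.exp_le_exp.2
  have : 0 ≤ max t 0 * k y := mul_nonneg (le_max_right _ _) hy
  linarith

theorem meas {n : ℕ} {k : (Fin n → ℝ) → ℝ} (hk : Continuous k) (η : Fin n → ℝ) (t : ℝ) :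
    Continuous fun y => Real.exp (-(dotProduct η y) - max t 0 * k y) :=
  Real.continuous_exp.comp ((cont_dot η).neg.sub (continuous_const.mul hk))

theorem int_psi (hI : INT) {n : ℕ} {U : Set (Fin n → ℝ)} (hU : MeasurableSet U) {η : Fin n → ℝ}
    (hη : η ∈ Ud U) {k : (Fin n → ℝ) → ℝ} (hk : Continuous k) (h0 : ∀ y ∈ U, 0 ≤ k y) (t : ℝ) :
    IntegrableOn (fun y => Real.exp (-(dotProduct η y) - max t 0 * k y)) U := by
  refine Integrable.mono' (int_exp hI hU hη) (meas hk η t).aestronglyMeasurable ?_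
  refine (ae_restrict_iff' hU).2 (Eventually.of_forall fun y hy => ?_)
  rw [Real.norm_eq_abs, abs_of_pos (Real.exp_pos _)]
  exact le_bound η t (h0 y hy)

theorem cont_psi (hI : INT) {n : ℕ} {U : Set (Fin n → ℝ)} (hU : MeasurableSet U) {η : Fin n → ℝ}
    (hη : η ∈ Ud U) {k : (Fin n → ℝ) → ℝ} (hk : Continuous k) (h0 : ∀ y ∈ U, 0 ≤ k y) :
    Continuous (Psi U k η) := by
  unfold Psi
  refine continuous_of_dominated (bound := fun y => Real.exp (-(dotProduct η y)))
    (fun t => (meas hk η t).aestronglyMeasurable) (fun t => ?_) (int_exp hI hU hη) ?_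
  · refine (ae_restrict_iff' hU).2 (Eventually.of_forall fun y hy => ?_)
    rw [Real.norm_eq_abs, abs_of_pos (Real.exp_pos _)]
    exact le_bound η t (h0 y hy)
  · refine Eventually.of_forall fun y => ?_
    exact Real.continuous_exp.comp
      (continuous_const.sub ((continuous_id.max continuous_const).mul continuous_const))

theorem psi_zero {n : ℕ} (U : Set (Fin n → ℝ)) (k : (Fin n → ℝ) → ℝ) (η : Fin n → ℝ) :
    Psi U k η 0 = Lap U η := by
  unfold Psi Lap
  simp only [max_self, zero_mul, sub_zero]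

theorem psi_le (hI : INT) {n : ℕ} {U : Set (Fin n → ℝ)} (hU : MeasurableSet U) {η : Fin n → ℝ}
    (hη : η ∈ Ud U) {k : (Fin n → ℝ) → ℝ} (hk : Continuous k) (h0 : ∀ y ∈ U, 0 ≤ k y) (t : ℝ) :
    Psi U k η t ≤ Lap U η := by
  unfold Psi Lap
  exact setIntegral_mono_on (int_psi hI hU hη hk h0 t) (int_exp hI hU hη) hU
    fun y hy => le_bound η t (h0 y hy)

theorem gL_psi (hS : SCL) {n : ℕ} {U : Set (Fin n → ℝ)} (hU : OCone U) (η : Fin n → ℝ)
    {k : (Fin n → ℝ) → ℝ} (hk : Sublin k) {a l : ℝ} (ha : 0 < a) (hl : 0 < l) :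
    gL U k a (l • η) = a⁻¹ * ((l⁻¹) ^ n * Psi U k η (a / l)) := by
  have h1 := (hS n U hU l hl).1
    fun y => Real.exp (-(dotProduct η y) - max (a / l) 0 * k y)
  unfold gL Psi
  rw [← h1]
  congr 1
  refine integral_congr_ae (Eventually.of_forall fun y => ?_)
  simp only
  rw [max_eq_left (by positivity), hk.smul y l hl.le, smul_dotProduct, dotProduct_smul,
    ← mul_assoc, div_mul_cancel₀ _ hl.ne']

end ALAaux

open ALAaux in
/-- **ALA**. -/
theorem t_ALA : ALA := by
  intro hI hS n U k hU hk h0 hLap η hη z hz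
  have hUm : MeasurableSet U := hU.op.measurableSet
  have hm := hLap η hη
  obtain ⟨m, hmd⟩ : ∃ m, m = Lap U η := ⟨_, rfl⟩
  have hc := cont_psi hI hUm hη hk.cont h0
  have hle := psi_le hI hUm hη hk.cont h0
  have hz0 := psi_zero U k η
  rw [← hmd] at hm hz0 ⊢
  simp only [← hmd] at hle
  -- solutions
  have key : ∀ c : ℝ, 0 < c → ∃ t : ℝ, 0 < t ∧ Psi U k η t = c * t := by
    intro c hc0
    have h1 : ContinuousOn (fun t => Psi U k η t - c * t) (Icc 0 (m / c + 1)) :=
      (hc.sub (continuous_const.mul continuous_id)).continuousOn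
    have h2 : (0 : ℝ) ≤ m / c + 1 := by positivity
    have h3 := intermediate_value_Icc' h2 h1
    have h4 : (0 : ℝ) ∈ Icc (Psi U k η (m / c + 1) - c * (m / c + 1))
        (Psi U k η 0 - c * 0) := by
      constructor
      · have h5 := hle (m / c + 1)
        have h6 : c * (m / c + 1) = m + c := by field_simp
        linarith
      · rw [hz0]
        linarith
    obtain ⟨t, ht, h7⟩ := h3 h4
    simp only at h7
    refine ⟨t, ?_, by linarith⟩
    rcases eq_or_lt_of_le ht.1 with h8 | h8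
    · rw [← h8, hz0] at h7
      linarith
    · exact h8
  have key2 : ∀ l : ℝ, ∃ t : ℝ, 0 < l → 0 < t ∧ Psi U k η t = z * l ^ (n + 1) * t := by
    intro l
    by_cases hl : 0 < l
    · obtain ⟨t, h1, h2⟩ := key (z * l ^ (n + 1)) (by positivity)
      exact ⟨t, fun _ => ⟨h1, h2⟩⟩
    · exact ⟨0, fun h => absurd h hl⟩
  choose τ hτ using key2
  refine ⟨fun l => l * τ l, fun l hl => ?_, ?_⟩
  · obtain ⟨h1, h2⟩ := hτ l hl
    refine ⟨mul_pos hl h1, ?_⟩
    rw [gL_psi hS hU η hk (mul_pos hl h1) hl, mul_div_cancel_left₀ _ hl.ne', h2, inv_pow,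
      pow_succ]
    have h3 := hl.ne'
    have h4 := h1.ne'
    field_simp
  · have h1 : Tendsto τ atTop (𝓝 0) := by
      have h2 : Tendsto (fun l : ℝ => m / (z * l)) atTop (𝓝 0) :=
        tendsto_const_nhds.div_atTop (tendsto_id.const_mul_atTop hz)
      refine tendsto_of_tendsto_of_tendsto_of_le_of_le' tendsto_const_nhds h2 ?_ ?_
      · filter_upwards [eventually_gt_atTop (0 : ℝ)] with l hl
        exact (hτ l hl).1.le
      · filter_upwards [eventually_ge_atTop (1 : ℝ)] with l hl
        have hl0 : 0 < l := lt_of_lt_of_le one_pos hl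
        obtain ⟨h3, h4⟩ := hτ l hl0
        rw [le_div_iff₀ (by positivity)]
        have h5 : l ≤ l ^ (n + 1) := le_self_pow₀ hl (Nat.succ_ne_zero n)
        have h6 := hle (τ l)
        have h7 : τ l * (z * l) ≤ τ l * (z * l ^ (n + 1)) :=
          mul_le_mul_of_nonneg_left (mul_le_mul_of_nonneg_left h5 hz.le) h3.le
        linarith
    have h2 : Tendsto (fun l => Psi U k η (τ l) / z) atTop (𝓝 (m / z)) := by
      have h3 := (hc.tendsto 0).comp h1
      rw [hz0] at h3
      exact h3.div_const z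
    refine h2.congr' ?_
    filter_upwards [eventually_gt_atTop (0 : ℝ)] with l hl
    rw [(hτ l hl).2, pow_succ]
    have h3 := hz.ne'
    field_simp

end Pool.Agent.PCN
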