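import Pool.Agent.PCN.Stmts

/-!
# Polyhedral recession cones: module BLM, the limit in the blow-up
-/

open MeasureTheory Set Filter Topology

namespace Pool.Agent.PCN

namespace BLMAux

/-- Tendsto of `α`. -/
theorem tendsto_alpha {n : ℕ} (hn : 1 ≤ n) {a : ℝ} {α : ℝ → ℝ}
    (h : Tendsto (fun l : ℝ => l ^ n * α l) atTop (𝓝 a)) : Tendsto α atTop (𝓝 0) := by
  have h1 : Tendsto (fun l : ℝ => (l ^ n)⁻¹) atTop (𝓝 0) :=
    (tendsto_pow_atTop (by omega)).inv_tendsto_atTop
  have h2 := h1.mul h
  rw [zero_mul] at h2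
  refine h2.congr' ?_
  filter_upwards [eventually_gt_atTop (0 : ℝ)] with l hl
  have : l ^ n ≠ 0 := (pow_pos hl n).ne'
  field_simp

/-- The integral after scaling. -/
theorem gL_scale (hS : SCL) {n : ℕ} {U : Set (Fin n → ℝ)} (hU : OCone U)
    (g : (Fin n → ℝ) → ℝ) (b : ℝ) (η : Fin n → ℝ) {l : ℝ} (hl : 0 < l) :
    gL U g b (l • η) = (l ^ n * b)⁻¹ *
      ∫ y in U, Real.exp (-(dotProduct η y) - b * g (l⁻¹ • y)) := by
  have h := (hS n U hU l hl).1 (fun y => Real.exp (-(dotProduct η y) - b * g (l⁻¹ • y)))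
  have h2 : (fun y : Fin n → ℝ =>
      Real.exp (-(dotProduct η (l • y)) - b * g (l⁻¹ • (l • y)))) =
      fun y => Real.exp (-(dotProduct (l • η) y) - b * g y) := by
    funext y
    rw [smul_smul, inv_mul_cancel₀ hl.ne', one_smul, dotProduct_smul, smul_dotProduct]
  unfold gL
  have h3 : ∫ y in U, Real.exp (-(dotProduct (l • η) y) - b * g y) =
      (l⁻¹) ^ n * ∫ y in U, Real.exp (-(dotProduct η y) - b * g (l⁻¹ • y)) := by
    rw [← h]
    exact congrArg (fun F : (Fin n → ℝ) → ℝ => ∫ y in U, F y) h2.symm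
  rw [h3, mul_inv, inv_pow]
  ring

end BLMAux

open BLMAux

theorem BLM_thm : BLM := by
  intro hI hS n U g G ℓ a M α hn hU hg hG hG0 hGh hlo hup ha hα hlim η hη
  have hα0 : Tendsto α atTop (𝓝 0) := tendsto_alpha hn hlim
  obtain ⟨ε, hε, hεη⟩ := hη
  have hdot : Continuous (fun y : Fin n → ℝ => dotProduct η y) := by fun_prop
  -- the integral converges
  have hmain : Tendsto (fun l : ℝ => ∫ y in U, Real.exp (-(dotProduct η y) - α l * g (l⁻¹ • y)))
      atTop (𝓝 (∫ y in U, Real.exp (-(dotProduct η y) - a * G y))) := by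
    refine tendsto_integral_filter_of_dominated_convergence
      (fun y => Real.exp 1 * ((1 + ‖y‖) * Real.exp (-(dotProduct η y)))) ?_ ?_ ?_ ?_
    · filter_upwards [eventually_gt_atTop (0 : ℝ)] with l hl
      refine ContinuousOn.aestronglyMeasurable ?_ hU.op.measurableSet
      have h1 : ContinuousOn (fun y : Fin n → ℝ => g (l⁻¹ • y)) U :=
        hg.comp (continuous_const_smul l⁻¹).continuousOn
          (fun y hy => hU.smul y hy l⁻¹ (inv_pos.2 hl))
      exact Real.continuous_exp.comp_continuousOn
        (hdot.neg.continuousOn.sub (continuousOn_const.mul h1))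
    · have h1 : Tendsto (fun l => α l * |M|) atTop (𝓝 0) := by
        simpa using hα0.mul_const |M|
      filter_upwards [eventually_gt_atTop (0 : ℝ), h1.eventually_le_const (zero_lt_one)] with l hl h2
      rw [ae_restrict_iff' hU.op.measurableSet]
      refine Eventually.of_forall fun y hy => ?_
      rw [Real.norm_eq_abs, Real.abs_exp]
      have hy' : l⁻¹ • y ∈ U := hU.smul y hy l⁻¹ (inv_pos.2 hl)
      have h3 := hlo _ hy'
      have h4 := hG0 _ hy'
      have h5 : -(α l * g (l⁻¹ • y)) ≤ 1 := by
        have h6 : -|M| ≤ g (l⁻¹ • y) := by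
          have := le_abs_self M
          linarith
        have h7 := mul_le_mul_of_nonneg_left h6 (hα l hl).le
        have h8 : α l * -|M| = -(α l * |M|) := by ring
        rw [h8] at h7
        linarith
      have h9 : Real.exp (-(dotProduct η y) - α l * g (l⁻¹ • y)) ≤
          Real.exp 1 * Real.exp (-(dotProduct η y)) := by
        rw [← Real.exp_add]
        apply Real.exp_le_exp.2
        linarith
      refine h9.trans (mul_le_mul_of_nonneg_left ?_ (Real.exp_pos 1).le)
      have h10 : 0 ≤ ‖y‖ := norm_nonneg y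
      have h11 := Real.exp_pos (-(dotProduct η y))
      nlinarith
    · refine Integrable.const_mul ?_ _
      exact hI n U (fun y => dotProduct η y) ε 0 hU.op.measurableSet hε hdot.continuousOn
        (fun y hy => by simpa using hεη y hy)
    · rw [ae_restrict_iff' hU.op.measurableSet]
      refine Eventually.of_forall fun y hy => ?_
      have hsq : Tendsto (fun l : ℝ => α l * g (l⁻¹ • y)) atTop (𝓝 (a * G y)) := by
        have hA : Tendsto (fun l : ℝ => l ^ n * α l * G y - α l * M) atTop (𝓝 (a * G y)) := by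
          have := (hlim.mul_const (G y)).sub (hα0.mul_const M)
          simpa using this
        have hB : Tendsto (fun l : ℝ => l ^ n * α l * G y + α l * (l⁻¹ * dotProduct ℓ y) +
            α l * M) atTop (𝓝 (a * G y)) := by
          have h1 : Tendsto (fun l : ℝ => l⁻¹ * dotProduct ℓ y) atTop (𝓝 (0 * dotProduct ℓ y)) :=
            tendsto_inv_atTop_zero.mul_const _
          have := ((hlim.mul_const (G y)).add (hα0.mul h1)).add (hα0.mul_const M)
          simpa using this
        refine tendsto_of_tendsto_of_tendsto_of_le_of_le' hA hB ?_ ?_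
        · filter_upwards [eventually_gt_atTop (0 : ℝ)] with l hl
          have hy' : l⁻¹ • y ∈ U := hU.smul y hy l⁻¹ (inv_pos.2 hl)
          have h3 := hlo _ hy'
          rw [hGh y hy l hl] at h3
          have h7 := mul_le_mul_of_nonneg_left h3 (hα l hl).le
          calc l ^ n * α l * G y - α l * M = α l * (l ^ n * G y - M) := by ring
            _ ≤ _ := h7
        · filter_upwards [eventually_gt_atTop (0 : ℝ)] with l hl
          have hy' : l⁻¹ • y ∈ U := hU.smul y hy l⁻¹ (inv_pos.2 hl)
          have h3 := hup _ hy'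
          rw [hGh y hy l hl, dotProduct_smul, smul_eq_mul] at h3
          have h7 := mul_le_mul_of_nonneg_left h3 (hα l hl).le
          calc α l * g (l⁻¹ • y) ≤ _ := h7
            _ = _ := by ring
      exact (Real.continuous_exp.tendsto _).comp (tendsto_const_nhds.sub hsq)
  have hpre : Tendsto (fun l : ℝ => (l ^ n * α l)⁻¹) atTop (𝓝 a⁻¹) := hlim.inv₀ ha.ne'
  have hfin := hpre.mul hmain
  refine hfin.congr' ?_
  filter_upwards [eventually_gt_atTop (0 : ℝ)] with l hl
  rw [gL_scale hS hU g (α l) η hl]

end Pool.Agent.PCN
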