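import Pool.Agent.PCN.Stmts

/-!
# Polyhedral recession cones: module BPO
-/

open MeasureTheory Set Filter Topology

namespace Pool.Agent.PCN

theorem BPO_thm : BPO := by
  intro n U k g b M hU hpos hle hM hex hblow
  by_contra hb
  rw [not_lt] at hb
  obtain ⟨y1, hy1⟩ := hU.ne
  have hev : ∀ᶠ τ : ℝ in 𝓝[>] 0, M + 1 < g (τ • y1) ∧ g y1 + 1 < g (τ • y1) :=
    ((hblow y1 hy1).eventually_gt_atTop (M + 1)).and
      ((hblow y1 hy1).eventually_gt_atTop (g y1 + 1))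
  have hev2 : ∀ᶠ τ : ℝ in 𝓝[>] 0, τ ∈ Ioo (0 : ℝ) 1 :=
    Ioo_mem_nhdsGT (by norm_num)
  obtain ⟨τ, ⟨h1, h2⟩, h3, h4⟩ := (hev.and hev2).exists
  obtain ⟨η, hη, h5⟩ := hex (τ • y1) (hU.smul y1 hy1 τ h3) 1 one_pos
  have h6 : hg U g 1 η ≤ M := by
    have h7 := hM η hη
    have h8 : 0 ≤ rp n (gL U k 1 η) := Real.rpow_nonneg (hpos η hη).le _
    have h9 : b * rp n (gL U k 1 η) ≤ 0 := mul_nonpos_of_nonpos_of_nonneg hb h8
    linarith
  have h7 := hle η hη y1 hy1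
  have h8 : dotProduct η (τ • y1) = τ * dotProduct η y1 := by
    rw [dotProduct_smul, smul_eq_mul]
  rw [h8] at h5
  have h9 : 0 < (1 - τ) * dotProduct η y1 := by nlinarith
  have h10 : 0 < dotProduct η y1 := by
    by_contra h
    rw [not_lt] at h
    have : (1 - τ) * dotProduct η y1 ≤ 0 :=
      mul_nonpos_of_nonneg_of_nonpos (by linarith) h
    linarith
  have h11 : 0 < τ * dotProduct η y1 := mul_pos h3 h10
  linarith

end Pool.Agent.PCN
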