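import Pool.Agent.PCN.Stmts

/-!
# PCN: the blow-up identity (module BUP)
-/

open MeasureTheory Set Filter Topology

namespace Pool.Agent.PCN

namespace BUPAux

theorem dom_of_Ud {n : ℕ} {U : Set (Fin n → ℝ)} {k : (Fin n → ℝ) → ℝ} (hk : ∀ y ∈ U, 0 ≤ k y)
    {η : Fin n → ℝ} (hη : η ∈ Ud U) {c l : ℝ} (hc : 0 < c) (hl : 0 < l) :
    (c, l • η) ∈ Dom U k := by
  obtain ⟨ε, hε, h⟩ := hη
  refine ⟨hc, l * ε, mul_pos hl hε, fun y hy => ?_⟩
  have h1 := mul_le_mul_of_nonneg_left (h y hy) hl.le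
  have h2 : 0 ≤ c * k y := mul_nonneg hc.le (hk y hy)
  have h3 : dotProduct (l • η) y = l * dotProduct η y := by
    rw [smul_dotProduct, smul_eq_mul]
  show l * ε * ‖y‖ ≤ dotProduct (l • η) y + c * k y
  rw [h3]
  linarith

theorem tendsto_zero {n : ℕ} (hn : 1 ≤ n) {α : ℝ → ℝ} {a : ℝ}
    (h : Tendsto (fun l : ℝ => l ^ n * α l) atTop (𝓝 a)) : Tendsto α atTop (𝓝 0) := by
  have h1 : Tendsto (fun l : ℝ => (l ^ n)⁻¹) atTop (𝓝 0) :=
    tendsto_inv_atTop_zero.comp (tendsto_pow_atTop (by omega))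
  have h2 := h1.mul h
  rw [zero_mul] at h2
  refine h2.congr' ?_
  filter_upwards [eventually_gt_atTop (0 : ℝ)] with l hl
  have : l ^ n ≠ 0 := (pow_pos hl n).ne'
  field_simp

end BUPAux

open BUPAux in
theorem BUP_thm : BUP := by
  intro hINT hSCL hALA hBLM n U k g G w ℓ M hn hU hk hk0 hg hG hG0 hGh hGg hgG hLap hw hid
    a a0 η η0 h0 ha hη hz
  have hL := hLap η hη
  obtain ⟨α, hα, hαl⟩ := hALA hINT hSCL n U k hU hk hk0 hLap η hη (Lap U η / a)
    (div_pos hL ha)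
  have e : Lap U η / (Lap U η / a) = a := by
    field_simp
  rw [e] at hαl
  have h1 := hBLM hINT hSCL n U g G ℓ a M α hn hU hg hG hG0 hGh hGg hgG ha
    (fun l hl => (hα l hl).1) hαl η hη
  have h2 := tendsto_zero hn hαl
  have hev : ∀ᶠ l : ℝ in atTop, |w (α l) (l • η)| ≤ M * α l := by
    filter_upwards [eventually_gt_atTop (0 : ℝ)] with l hl
    exact hw _ _ (dom_of_Ud hk0 hη (hα l hl).1 hl)
  have h3 : Tendsto (fun l : ℝ => w (α l) (l • η)) atTop (𝓝 0) := by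
    have h4 := h2.const_mul M
    rw [mul_zero] at h4
    exact squeeze_zero_norm' (by simpa [Real.norm_eq_abs] using hev) h4
  have h5 : Tendsto (fun l : ℝ => Real.exp (w (α l) (l • η)) * gL U g (α l) (l • η)) atTop
      (𝓝 (Real.exp 0 * gL U G a η)) :=
    ((Real.continuous_exp.tendsto 0).comp h3).mul h1
  rw [Real.exp_zero, one_mul] at h5
  refine tendsto_nhds_unique (tendsto_const_nhds.congr' ?_) h5
  filter_upwards [eventually_gt_atTop (0 : ℝ)] with l hl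
  exact hid a0 (α l) η0 (l • η) h0 (dom_of_Ud hk0 hη (hα l hl).1 hl)
    (by rw [hz, (hα l hl).2])

end Pool.Agent.PCN
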