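import Pool.Agent.PCN.Stmts

/-!
# A continuous function with finitely many values almost everywhere on an open cone is constant
-/

set_option autoImplicit false

open MeasureTheory Set Filter Topology

namespace Pool.Agent.PCN

namespace CSTAux

theorem convex {n : ℕ} {U : Set (Fin n → ℝ)} (h : OCone U) : Convex ℝ U := by
  intro x hx y hy a b ha hb hab
  rcases ha.eq_or_lt with rfl | ha
  · have : b = 1 := by linarith
    subst this
    simpa using hy
  · rcases hb.eq_or_lt with rfl | hb
    · have : a = 1 := by linarith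
      subst this
      simpa using hx
    · exact h.add _ (h.smul x hx a ha) _ (h.smul y hy b hb)

end CSTAux

open CSTAux in
theorem CST_thm : CST := by
  intro n U κ d T hU hκ hd hae
  have hval : ∀ y ∈ U, κ y ∈ (T : Set ℝ) := by
    by_contra hcon
    push Not at hcon
    obtain ⟨y0, hy0, hy1⟩ := hcon
    have hT : IsOpen ((T : Set ℝ)ᶜ) := (T.finite_toSet.isClosed).isOpen_compl
    have hO : IsOpen (U ∩ κ ⁻¹' ((T : Set ℝ)ᶜ)) := hκ.isOpen_inter_preimage hU.op hT
    have hpos : 0 < volume (U ∩ κ ⁻¹' ((T : Set ℝ)ᶜ)) :=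
      hO.measure_pos volume ⟨y0, hy0, hy1⟩
    have hnull : volume (U ∩ κ ⁻¹' ((T : Set ℝ)ᶜ)) = 0 := by
      rw [ae_restrict_iff' hU.op.measurableSet, ae_iff] at hae
      refine measure_mono_null ?_ hae
      rintro y ⟨hy, hy2⟩ h3
      exact hy2 (by rw [h3 hy]; exact hd y)
    exact hpos.ne' hnull
  obtain ⟨y0, hy0⟩ := hU.ne
  have hdisc : IsDiscrete (T : Set ℝ) := T.finite_toSet.isDiscrete
  refine ⟨κ y0, fun y hy => ?_⟩
  exact (convex hU).isPreconnected.constant_of_mapsTo hdisc hκ hval hy hy0

end Pool.Agent.PCN
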