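import Mathlib

/-!
# Sets with collinear section centroids and polyhedral recession cone: definitions

`U` is always an open convex cone in `ℝ^n`, `k` a finite maximum of linear forms, `g` a convex
function on `U` (the lower boundary of the set), `a > 0` and `η` the coordinates of a functional.
-/

open MeasureTheory Set Filter Topology

namespace Pool.Agent.PCN

/-- An open convex cone (without apex). -/
structure OCone {m : ℕ} (U : Set (Fin m → ℝ)) : Prop where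
  op : IsOpen U
  ne : U.Nonempty
  add : ∀ x ∈ U, ∀ y ∈ U, x + y ∈ U
  smul : ∀ x ∈ U, ∀ s : ℝ, 0 < s → s • x ∈ U

/-- A closed convex cone. -/
structure CCone {m : ℕ} (C : Set (Fin m → ℝ)) : Prop where
  closed : IsClosed C
  zero : (0 : Fin m → ℝ) ∈ C
  add : ∀ x ∈ C, ∀ y ∈ C, x + y ∈ C
  smul : ∀ x ∈ C, ∀ s : ℝ, 0 ≤ s → s • x ∈ C

/-- The functionals which are coercive on `U`. -/
def Ud {m : ℕ} (U : Set (Fin m → ℝ)) : Set (Fin m → ℝ) :=
  {η | ∃ ε : ℝ, 0 < ε ∧ ∀ y ∈ U, ε * ‖y‖ ≤ dotProduct η y}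

/-- Laplace transform of the indicator of a set. -/
noncomputable def Lap {m : ℕ} (S : Set (Fin m → ℝ)) (ξ : Fin m → ℝ) : ℝ :=
  ∫ x in S, Real.exp (-(dotProduct ξ x))

/-- Infimum of a functional over a set. -/
noncomputable def hS {m : ℕ} (S : Set (Fin m → ℝ)) (ξ : Fin m → ℝ) : ℝ :=
  sInf ((fun x => dotProduct ξ x) '' S)

/-- Laplace transform at `(a, η)` of the region above the graph of `f` over `U`. -/
noncomputable def gL {n : ℕ} (U : Set (Fin n → ℝ)) (f : (Fin n → ℝ) → ℝ) (a : ℝ)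
    (η : Fin n → ℝ) : ℝ :=
  a⁻¹ * ∫ y in U, Real.exp (-(dotProduct η y) - a * f y)

/-- Infimum of the functional `(a, η)` over the region above the graph of `f` over `U`. -/
noncomputable def hg {n : ℕ} (U : Set (Fin n → ℝ)) (f : (Fin n → ℝ) → ℝ) (a : ℝ)
    (η : Fin n → ℝ) : ℝ :=
  sInf ((fun y => dotProduct η y + a * f y) '' U)

/-- The functionals `(a, η)`, `a > 0`, coercive on the region above the graph of `k`. -/
def Dom {n : ℕ} (U : Set (Fin n → ℝ)) (k : (Fin n → ℝ) → ℝ) : Set (ℝ × (Fin n → ℝ)) :=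
  {x | 0 < x.1 ∧ ∃ ε : ℝ, 0 < ε ∧ ∀ y ∈ U, ε * ‖y‖ ≤ dotProduct x.2 y + x.1 * k y}

/-- `k` is the maximum of the linear forms in `P`. -/
def IsMaxOf {n : ℕ} (P : Finset (Fin n → ℝ)) (k : (Fin n → ℝ) → ℝ) : Prop :=
  ∀ y, (∀ p ∈ P, dotProduct p y ≤ k y) ∧ ∃ p ∈ P, k y = dotProduct p y

/-- Continuous sublinear functions. -/
structure Sublin {n : ℕ} (k : (Fin n → ℝ) → ℝ) : Prop where
  cont : Continuous k
  add : ∀ x y, k (x + y) ≤ k x + k y
  smul : ∀ x, ∀ s : ℝ, 0 ≤ s → k (s • x) = s * k x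
  bdd : ∃ B : ℝ, 0 < B ∧ ∀ x, |k x| ≤ B * ‖x‖

/-- The power `z ^ (-1 / (n + 1))`. -/
noncomputable def rp (n : ℕ) (z : ℝ) : ℝ := z ^ (-(1 / ((n : ℝ) + 1)))

/-- The values whose supremum is `g1`. -/
def g1set {n : ℕ} (U : Set (Fin n → ℝ)) (b : ℝ) (y : Fin n → ℝ) : Set ℝ :=
  (fun η => b * rp n (Lap U η) - dotProduct η y) '' Ud U

/-- The limit profile. -/
noncomputable def g1 {n : ℕ} (U : Set (Fin n → ℝ)) (b : ℝ) (y : Fin n → ℝ) : ℝ :=
  sSup (g1set U b y)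

/-- The first order coefficient `w (a, η)`. -/
noncomputable def ww {n : ℕ} (U : Set (Fin n → ℝ)) (k d : (Fin n → ℝ) → ℝ) (a : ℝ)
    (η : Fin n → ℝ) : ℝ :=
  (∫ y in U, Real.exp (-(dotProduct η y) - a * k y) * d y) / gL U k a η

/-- The data obtained from a set with the section-centroid collinearity property near an extreme
ray of its polyhedral recession cone. -/
structure Ray {n : ℕ} (U : Set (Fin n → ℝ)) (P : Finset (Fin n → ℝ)) (k g : (Fin n → ℝ) → ℝ)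
    (D : ℝ) : Prop where
  cone : OCone U
  dual : (Ud U).Nonempty
  zeroP : (0 : Fin n → ℝ) ∈ P
  max : IsMaxOf P k
  conv : ConvexOn ℝ U g
  recc : ∀ y ∈ U, ∀ x ∈ U, g (y + x) ≤ g y + k x
  lower : ∀ y ∈ U, k y - D ≤ g y
  blow : ∀ y ∈ U, Tendsto (fun τ : ℝ => g (τ • y)) (𝓝[>] 0) atTop
  sector : ∃ y0 ∈ U, k y0 = 0
  str : ∀ (a a' : ℝ) (η η' : Fin n → ℝ), (a, η) ∈ Dom U k → (a', η') ∈ Dom U k →
    gL U k a η = gL U k a' η' → ∀ s : ℝ, 0 < s →
    Real.exp (s * hg U g a η) * gL U g (s * a) (s • η) =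
      Real.exp (s * hg U g a' η') * gL U g (s * a') (s • η')

end Pool.Agent.PCN
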