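import Pool.Agent.PCN.Stmts

/-!
# FOC: first order comparison
-/

set_option autoImplicit false

open MeasureTheory Set Filter Topology

namespace Pool.Agent.PCN

namespace FOCAux

variable {n : ℕ}

/-- the weight -/
noncomputable def EE (η y : Fin n → ℝ) : ℝ := Real.exp (-(dotProduct η y))

lemma EE_pos (η y : Fin n → ℝ) : 0 < EE η y := Real.exp_pos _

lemma continuous_dot (η : Fin n → ℝ) : Continuous fun y : Fin n → ℝ => dotProduct η y := by
  unfold dotProduct
  fun_prop

lemma continuous_EE (η : Fin n → ℝ) : Continuous (EE η) := by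
  have := continuous_dot η
  unfold EE
  fun_prop

/-- dominated convergence on `U` -/
lemma dct {U : Set (Fin n → ℝ)} (hU : MeasurableSet U) {b : (Fin n → ℝ) → ℝ}
    (hb : IntegrableOn b U) {F : ℝ → (Fin n → ℝ) → ℝ} {f : (Fin n → ℝ) → ℝ}
    (hF : ∀ᶠ a in 𝓝[>] (0 : ℝ), ContinuousOn (F a) U)
    (hbd : ∀ᶠ a in 𝓝[>] (0 : ℝ), ∀ y ∈ U, |F a y| ≤ b y)
    (hlim : ∀ y ∈ U, Tendsto (fun a => F a y) (𝓝[>] (0 : ℝ)) (𝓝 (f y))) :
    Tendsto (fun a => ∫ y in U, F a y) (𝓝[>] (0 : ℝ)) (𝓝 (∫ y in U, f y)) := by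
  refine tendsto_integral_filter_of_dominated_convergence b ?_ ?_ hb ?_
  · filter_upwards [hF] with a ha using ha.aestronglyMeasurable hU
  · filter_upwards [hbd] with a ha
    exact (ae_restrict_iff' hU).2 (Eventually.of_forall fun y hy => by
      rw [Real.norm_eq_abs]; exact ha y hy)
  · exact (ae_restrict_iff' hU).2 (Eventually.of_forall hlim)

lemma intg {U : Set (Fin n → ℝ)} (hU : MeasurableSet U) {b : (Fin n → ℝ) → ℝ}
    (hb : IntegrableOn b U) {F : (Fin n → ℝ) → ℝ} (hF : ContinuousOn F U)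
    (hbd : ∀ y ∈ U, |F y| ≤ b y) : IntegrableOn F U := by
  refine Integrable.mono' hb (hF.aestronglyMeasurable hU) ?_
  exact (ae_restrict_iff' hU).2 (Eventually.of_forall fun y hy => by
      rw [Real.norm_eq_abs]; exact hbd y hy)

lemma exp_sub_le (x y : ℝ) (C : ℝ) (hx : Real.exp x ≤ C) (hy : Real.exp y ≤ C) :
    |Real.exp x - Real.exp y| ≤ |x - y| * C := by
  have key : ∀ u v : ℝ, u ≤ v → Real.exp v ≤ C → |Real.exp u - Real.exp v| ≤ |u - v| * C := by
    intro u v huv hv
    have h1 : Real.exp u = Real.exp v * Real.exp (u - v) := by rw [← Real.exp_add]; ring_nf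
    have h2 := Real.add_one_le_exp (u - v)
    have h3 := Real.exp_pos v
    have h4 : Real.exp u ≤ Real.exp v := Real.exp_le_exp.2 huv
    rw [abs_of_nonpos (by linarith), abs_of_nonpos (by linarith)]
    have h5 : Real.exp v - Real.exp u ≤ Real.exp v * (v - u) := by rw [h1]; nlinarith
    have h6 : Real.exp v * (v - u) ≤ C * (v - u) := mul_le_mul_of_nonneg_right hv (by linarith)
    linarith
  rcases le_total x y with h | h
  · exact key x y h hy
  · rw [abs_sub_comm, abs_sub_comm x y]
    exact key y x h hx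

/-- difference quotient of the exponential along `t ↦ exp (-t x)` -/
lemma lim_exp (x : ℝ) :
    Tendsto (fun a : ℝ => (1 - Real.exp (-(a * x))) / a) (𝓝[>] (0 : ℝ)) (𝓝 x) := by
  have h1 : HasDerivAt (fun a : ℝ => Real.exp (-(a * x))) (Real.exp (-(0 * x)) * (-(1 * x))) 0 :=
    (((hasDerivAt_id (0 : ℝ)).mul_const x).neg).exp
  have h2 := h1.tendsto_slope_zero_right
  have h3 : Tendsto (fun a : ℝ => -(a⁻¹ • (Real.exp (-((0 + a) * x)) - Real.exp (-(0 * x)))))
      (𝓝[>] (0 : ℝ)) (𝓝 (-(Real.exp (-(0 * x)) * (-(1 * x))))) := h2.neg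
  have e : -(Real.exp (-(0 * x)) * (-(1 * x))) = x := by simp
  rw [e] at h3
  refine h3.congr fun a => ?_
  rw [zero_add, zero_mul, neg_zero, Real.exp_zero, smul_eq_mul]
  field_simp
  ring

lemma ev_pos : ∀ᶠ a in 𝓝[>] (0 : ℝ), 0 < a ∧ a ≤ 1 := by
  have h1 : Ioo (0 : ℝ) 1 ∈ 𝓝[>] (0 : ℝ) := Ioo_mem_nhdsGT one_pos
  filter_upwards [h1] with a ha using ⟨ha.1, ha.2.le⟩

/-- first term -/
lemma lim_W {W : ℝ → ℝ} {ω : ℝ} (hW : Tendsto (fun a : ℝ => W a / a) (𝓝[>] 0) (𝓝 ω)) :
    Tendsto (fun a : ℝ => (Real.exp (W a) - 1) / a) (𝓝[>] 0) (𝓝 ω) := by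
  have ha0 : Tendsto (fun a : ℝ => a) (𝓝[>] (0 : ℝ)) (𝓝 0) := tendsto_id.mono_left nhdsWithin_le_nhds
  have hW0 : Tendsto W (𝓝[>] 0) (𝓝 0) := by
    have h := hW.mul ha0
    rw [mul_zero] at h
    refine h.congr' ?_
    filter_upwards [ev_pos] with a ha
    field_simp [ha.1.ne']
  have hr : Tendsto (fun a : ℝ => (Real.exp (W a) - 1 - W a) / a) (𝓝[>] 0) (𝓝 0) := by
    have h1 : Tendsto (fun a : ℝ => (W a / a) ^ 2 * a) (𝓝[>] 0) (𝓝 (ω ^ 2 * 0)) := (hW.pow 2).mul ha0
    rw [mul_zero] at h1
    refine squeeze_zero_norm' ?_ h1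
    have h2 : ∀ᶠ a in 𝓝[>] (0 : ℝ), |W a| ≤ 1 := by
      have := hW0.abs
      rw [abs_zero] at this
      exact this.eventually_le_const one_pos
    filter_upwards [ev_pos, h2] with a ha h
    rw [Real.norm_eq_abs, abs_div, abs_of_pos ha.1]
    have h3 := Real.abs_exp_sub_one_sub_id_le h
    have h4 : (W a / a) ^ 2 * a = W a ^ 2 / a := by field_simp [ha.1.ne']
    rw [h4]
    exact div_le_div_of_nonneg_right h3 ha.1.le
  have h := hr.add hW
  rw [zero_add] at h
  refine h.congr fun a => ?_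
  ring

end FOCAux

open FOCAux in
theorem FOC_thm : FOC := by
  intro hINT n U k g G W ω A B D η hU hη hm hk hg hG hk0 hG0 hgG hgD hD hW hH
  have hUm : MeasurableSet U := hU.op.measurableSet
  obtain ⟨ε, hε, hη'⟩ := hη
  have hI : IntegrableOn (fun y => (1 + ‖y‖) * Real.exp (-(dotProduct η y))) U :=
    hINT n U (fun y => dotProduct η y) ε 0 hUm hε (continuous_dot η).continuousOn
      (fun y hy => by rw [add_zero]; exact hη' y hy)
  have hIE : IntegrableOn (fun y => (1 + ‖y‖) * EE η y) U := hI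
  have hEc : ContinuousOn (EE η) U := (continuous_EE η).continuousOn
  have hE0 : ∀ y, 0 < EE η y := EE_pos η
  have hN : ∀ y : Fin n → ℝ, 0 ≤ ‖y‖ := fun y => norm_nonneg y
  have hEle : ∀ y, EE η y ≤ (1 + ‖y‖) * EE η y := fun y => by
    have := mul_nonneg (hN y) (hE0 y).le
    linarith
  -- the constant
  obtain ⟨C, hC⟩ : ∃ C : ℝ, C = (1 + |A| + |B|) * Real.exp D := ⟨_, rfl⟩
  have hexpD : 1 ≤ Real.exp D := Real.one_le_exp hD
  have hC1 : 1 ≤ C := by
    rw [hC]
    have : 1 ≤ 1 + |A| + |B| := by linarith [abs_nonneg A, abs_nonneg B]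
    nlinarith
  have hCD : Real.exp D ≤ C := by
    rw [hC]
    have : 1 ≤ 1 + |A| + |B| := by linarith [abs_nonneg A, abs_nonneg B]
    nlinarith
  have hb : IntegrableOn (fun y => C * ((1 + ‖y‖) * EE η y)) U := hIE.const_mul C
  have hbE : ∀ y, EE η y ≤ C * ((1 + ‖y‖) * EE η y) := fun y => by
    have h1 := hEle y
    have h2 := hE0 y
    nlinarith
  obtain ⟨m, hmdef⟩ : ∃ m : ℝ, m = Lap U η := ⟨_, rfl⟩
  have hmE : m = ∫ y in U, EE η y := hmdef
  have hm0 : 0 < m := by rw [hmdef]; exact hm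
  have haT : Tendsto (fun a : ℝ => a) (𝓝[>] (0 : ℝ)) (𝓝 0) := tendsto_id.mono_left nhdsWithin_le_nhds
  -- exponentials of small multiples
  have hlim1 : ∀ (x : ℝ) (c : ℝ → ℝ), Tendsto c (𝓝[>] (0 : ℝ)) (𝓝 0) →
      Tendsto (fun a : ℝ => Real.exp (-(c a * x))) (𝓝[>] (0 : ℝ)) (𝓝 1) := by
    intro x c hc
    have h1 : Tendsto (fun a : ℝ => -(c a * x)) (𝓝[>] (0 : ℝ)) (𝓝 (-(0 * x))) :=
      (hc.mul_const x).neg
    have h2 := (Real.continuous_exp.tendsto (-(0 * x))).comp h1
    rw [zero_mul, neg_zero, Real.exp_zero] at h2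
    exact h2
  -- K
  obtain ⟨K, hK⟩ : ∃ K : ℝ → ℝ, K = fun a => ∫ y in U, EE η y * Real.exp (-(a * k y)) := ⟨_, rfl⟩
  have hKle : ∀ a : ℝ, 0 < a → ∀ y ∈ U, Real.exp (-(a * k y)) ≤ 1 := by
    intro a ha y hy
    rw [Real.exp_le_one_iff]
    have := mul_nonneg ha.le (hk0 y hy).1
    linarith
  have hKlim : Tendsto K (𝓝[>] (0 : ℝ)) (𝓝 m) := by
    rw [hK, hmE]
    refine dct hUm hb (Eventually.of_forall fun a => by fun_prop) ?_ ?_
    · filter_upwards [ev_pos] with a ha y hy
      rw [abs_of_nonneg (mul_nonneg (hE0 y).le (Real.exp_pos _).le)]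
      refine le_trans ?_ (hbE y)
      have := hKle a ha.1 y hy
      nlinarith [hE0 y]
    · intro y hy
      have := (hlim1 (k y) (fun a => a) haT).const_mul (EE η y)
      rwa [mul_one] at this
  have hKd : Tendsto (fun a => (m - K a) / a) (𝓝[>] (0 : ℝ)) (𝓝 (∫ y in U, EE η y * k y)) := by
    have h1 : Tendsto (fun a : ℝ => ∫ y in U, EE η y * ((1 - Real.exp (-(a * k y))) / a))
        (𝓝[>] (0 : ℝ)) (𝓝 (∫ y in U, EE η y * k y)) := by
      refine dct hUm hb (Eventually.of_forall fun a => by fun_prop) ?_ ?_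
      · filter_upwards [ev_pos] with a ha y hy
        have h2 := hKle a ha.1 y hy
        have h3 : 1 - Real.exp (-(a * k y)) ≤ a * k y := by
          have := Real.add_one_le_exp (-(a * k y))
          linarith
        have h4 : (1 - Real.exp (-(a * k y))) / a ≤ k y := by
          rw [div_le_iff₀ ha.1]; linarith
        have h5 : 0 ≤ (1 - Real.exp (-(a * k y))) / a := div_nonneg (by linarith) ha.1.le
        rw [abs_of_nonneg (mul_nonneg (hE0 y).le h5)]
        have h6 : k y ≤ C * (1 + ‖y‖) := by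
          have h7 := (hk0 y hy).2
          have h8 : B * ‖y‖ ≤ |B| * ‖y‖ := mul_le_mul_of_nonneg_right (le_abs_self B) (hN y)
          have h9 : |B| ≤ C := by
            rw [hC]
            have : |B| ≤ 1 + |A| + |B| := by linarith [abs_nonneg A]
            nlinarith [abs_nonneg A, abs_nonneg B]
          have h10 : |B| * ‖y‖ ≤ C * ‖y‖ := mul_le_mul_of_nonneg_right h9 (hN y)
          nlinarith
        calc EE η y * ((1 - Real.exp (-(a * k y))) / a) ≤ EE η y * (C * (1 + ‖y‖)) :=
              mul_le_mul_of_nonneg_left (h4.trans h6) (hE0 y).le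
          _ = C * ((1 + ‖y‖) * EE η y) := by ring
      · intro y hy
        exact (lim_exp (k y)).const_mul (EE η y)
    refine h1.congr' ?_
    filter_upwards [ev_pos] with a ha
    have hi1 : IntegrableOn (fun y => EE η y) U := intg hUm hb hEc (fun y _ => by
      rw [abs_of_pos (hE0 y)]; exact hbE y)
    have hi2 : IntegrableOn (fun y => EE η y * Real.exp (-(a * k y))) U :=
      intg hUm hb (by fun_prop) (fun y hy => by
        rw [abs_of_nonneg (mul_nonneg (hE0 y).le (Real.exp_pos _).le)]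
        refine le_trans ?_ (hbE y)
        have := hKle a ha.1 y hy
        nlinarith [hE0 y])
    rw [hK, hmE]
    show (∫ y in U, EE η y * ((1 - Real.exp (-(a * k y))) / a)) =
      ((∫ y in U, EE η y) - ∫ y in U, EE η y * Real.exp (-(a * k y))) / a
    rw [← integral_sub hi1 hi2, ← integral_div]
    refine integral_congr_ae (Eventually.of_forall fun y => ?_)
    show EE η y * ((1 - Real.exp (-(a * k y))) / a) = (EE η y - EE η y * Real.exp (-(a * k y))) / a
    ring
  have hKpos : ∀ᶠ a in 𝓝[>] (0 : ℝ), 0 < K a := hKlim.eventually_const_lt hm0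
  -- the second parameter
  obtain ⟨α, hα⟩ : ∃ α : ℝ → ℝ, α = fun a => a * m / K a := ⟨_, rfl⟩
  have hα0 : Tendsto α (𝓝[>] (0 : ℝ)) (𝓝 0) := by
    have h1 : Tendsto (fun a : ℝ => a * m / K a) (𝓝[>] (0 : ℝ)) (𝓝 (0 * m / m)) :=
      (haT.mul_const m).div hKlim hm0.ne'
    rw [zero_mul, zero_div] at h1
    rw [hα]; exact h1
  -- term 1
  have hT1 : Tendsto (fun a => (Real.exp (W a) - 1) / a * ∫ y in U, EE η y * Real.exp (-(a * g y)))
      (𝓝[>] (0 : ℝ)) (𝓝 (ω * m)) := by
    refine (lim_W hW).mul ?_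
    rw [hmE]
    refine dct hUm hb (Eventually.of_forall fun a => by fun_prop) ?_ ?_
    · filter_upwards [ev_pos] with a ha y hy
      rw [abs_of_nonneg (mul_nonneg (hE0 y).le (Real.exp_pos _).le)]
      have h1 : Real.exp (-(a * g y)) ≤ Real.exp D := by
        rw [Real.exp_le_exp]
        have := hgD y hy
        nlinarith [ha.1, ha.2]
      have h2 : Real.exp (-(a * g y)) ≤ C := h1.trans hCD
      calc EE η y * Real.exp (-(a * g y)) ≤ EE η y * C := mul_le_mul_of_nonneg_left h2 (hE0 y).le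
        _ ≤ C * ((1 + ‖y‖) * EE η y) := by nlinarith [hEle y, hC1]
    · intro y hy
      have := (hlim1 (g y) (fun a => a) haT).const_mul (EE η y)
      rwa [mul_one] at this
  -- term 2
  have hT2 : Tendsto (fun a => ∫ y in U, EE η y * ((Real.exp (-(a * g y)) - Real.exp (-(a * G y))) / a))
      (𝓝[>] (0 : ℝ)) (𝓝 (∫ y in U, EE η y * (G y - g y))) := by
    refine dct hUm hb (Eventually.of_forall fun a => by fun_prop) ?_ ?_
    · filter_upwards [ev_pos] with a ha y hy
      have h1 : Real.exp (-(a * g y)) ≤ Real.exp D := by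
        rw [Real.exp_le_exp]
        have := hgD y hy
        nlinarith [ha.1, ha.2]
      have h2 : Real.exp (-(a * G y)) ≤ Real.exp D := by
        rw [Real.exp_le_exp]
        have := mul_nonneg ha.1.le (hG0 y hy)
        linarith
      have h3 := exp_sub_le _ _ _ h1 h2
      have h4 : |-(a * g y) - -(a * G y)| = a * |g y - G y| := by
        rw [show -(a * g y) - -(a * G y) = -(a * (g y - G y)) by ring, abs_neg, abs_mul,
          abs_of_pos ha.1]
      rw [h4] at h3
      have h5 : |(Real.exp (-(a * g y)) - Real.exp (-(a * G y))) / a| ≤ |g y - G y| * Real.exp D := by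
        rw [abs_div, abs_of_pos ha.1, div_le_iff₀ ha.1]
        linarith
      have h6 : |g y - G y| ≤ (1 + |A| + |B|) * (1 + ‖y‖) := by
        have h7 := hgG y hy
        have h8 : B * ‖y‖ ≤ |B| * ‖y‖ := mul_le_mul_of_nonneg_right (le_abs_self B) (hN y)
        have h9 := le_abs_self A
        nlinarith [abs_nonneg A, abs_nonneg B, hN y, mul_nonneg (abs_nonneg A) (hN y)]
      rw [abs_mul, abs_of_pos (hE0 y)]
      calc EE η y * |(Real.exp (-(a * g y)) - Real.exp (-(a * G y))) / a|
          ≤ EE η y * (((1 + |A| + |B|) * (1 + ‖y‖)) * Real.exp D) :=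
            mul_le_mul_of_nonneg_left (h5.trans (mul_le_mul_of_nonneg_right h6
              (Real.exp_pos D).le)) (hE0 y).le
        _ = C * ((1 + ‖y‖) * EE η y) := by rw [hC]; ring
    · intro y hy
      have h1 := ((lim_exp (G y)).sub (lim_exp (g y))).const_mul (EE η y)
      refine h1.congr fun a => ?_
      ring
  -- term 4
  have hJ : Tendsto (fun a => ∫ y in U, EE η y * Real.exp (-(α a * G y))) (𝓝[>] (0 : ℝ)) (𝓝 m) := by
    rw [hmE]
    refine dct hUm hb (Eventually.of_forall fun a => by fun_prop) ?_ ?_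
    · filter_upwards [ev_pos, hKpos] with a ha hKa y hy
      rw [abs_of_nonneg (mul_nonneg (hE0 y).le (Real.exp_pos _).le)]
      refine le_trans ?_ (hbE y)
      have h1 : Real.exp (-(α a * G y)) ≤ 1 := by
        rw [Real.exp_le_one_iff]
        have h2 : 0 ≤ α a := by
          rw [hα]
          exact div_nonneg (mul_nonneg ha.1.le hm0.le) hKa.le
        have := mul_nonneg h2 (hG0 y hy)
        linarith
      nlinarith [hE0 y]
    · intro y hy
      have := (hlim1 (G y) α hα0).const_mul (EE η y)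
      rwa [mul_one] at this
  have hT4 : Tendsto (fun a => (1 - K a / m) / a * ∫ y in U, EE η y * Real.exp (-(α a * G y)))
      (𝓝[>] (0 : ℝ)) (𝓝 (∫ y in U, EE η y * k y)) := by
    have h1 := (hKd.div_const m).mul hJ
    have e : (∫ y in U, EE η y * k y) / m * m = ∫ y in U, EE η y * k y := div_mul_cancel₀ _ hm0.ne'
    rw [e] at h1
    refine h1.congr fun a => ?_
    congr 1
    field_simp
  -- term 3
  have hT3 : Tendsto (fun a => ∫ y in U, EE η y *
      ((Real.exp (-(a * G y)) - Real.exp (-(α a * G y))) / a)) (𝓝[>] (0 : ℝ)) (𝓝 0) := by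
    have hI0 : Tendsto (fun a => ∫ y in U, EE η y * ((a * G y) * Real.exp (-(a * G y))))
        (𝓝[>] (0 : ℝ)) (𝓝 0) := by
      have h0 : (∫ y in U, (fun _ : Fin n → ℝ => (0 : ℝ)) y) = 0 := by simp
      suffices h : Tendsto (fun a => ∫ y in U, EE η y * ((a * G y) * Real.exp (-(a * G y))))
          (𝓝[>] (0 : ℝ)) (𝓝 (∫ y in U, (fun _ : Fin n → ℝ => (0 : ℝ)) y)) by
        rwa [h0] at h
      refine dct hUm hb (F := fun a y => EE η y * ((a * G y) * Real.exp (-(a * G y))))
        (Eventually.of_forall fun a => by fun_prop) ?_ ?_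
      · filter_upwards [ev_pos] with a ha y hy
        have hx : 0 ≤ a * G y := mul_nonneg ha.1.le (hG0 y hy)
        rw [abs_of_nonneg (mul_nonneg (hE0 y).le (mul_nonneg hx (Real.exp_pos _).le))]
        refine le_trans ?_ (hbE y)
        have h1 : a * G y * Real.exp (-(a * G y)) ≤ 1 := by
          have h2 := Real.add_one_le_exp (a * G y)
          rw [Real.exp_neg, ← div_eq_mul_inv, div_le_one (Real.exp_pos _)]
          linarith
        nlinarith [hE0 y]
      · intro y hy
        have h1 : Tendsto (fun a : ℝ => a * G y) (𝓝[>] (0 : ℝ)) (𝓝 (0 * G y)) := haT.mul_const (G y)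
        have h2 := (h1.mul (hlim1 (G y) (fun a => a) haT)).const_mul (EE η y)
        simp only [zero_mul, mul_zero] at h2
        exact h2
    have hc : Tendsto (fun a => (m - K a) / a / K a) (𝓝[>] (0 : ℝ))
        (𝓝 ((∫ y in U, EE η y * k y) / m)) := hKd.div hKlim hm0.ne'
    have hub := hc.mul hI0
    rw [mul_zero] at hub
    refine squeeze_zero_norm' ?_ hub
    filter_upwards [ev_pos, hKpos] with a ha hKa
    have hKm : K a ≤ m := by
      have hi1 : IntegrableOn (fun y => EE η y) U := intg hUm hb hEc (fun y _ => by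
        rw [abs_of_pos (hE0 y)]; exact hbE y)
      rw [hK, hmE]
      refine setIntegral_mono_on ?_ hi1 hUm fun y hy => ?_
      · refine intg hUm hb (by fun_prop) (fun y hy => ?_)
        rw [abs_of_nonneg (mul_nonneg (hE0 y).le (Real.exp_pos _).le)]
        refine le_trans ?_ (hbE y)
        have := hKle a ha.1 y hy
        nlinarith [hE0 y]
      · have := hKle a ha.1 y hy
        nlinarith [hE0 y]
    have hαa : a ≤ α a := by
      rw [hα]
      show a ≤ a * m / K a
      rw [le_div_iff₀ hKa]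
      exact mul_le_mul_of_nonneg_left hKm ha.1.le
    have hpt : ∀ y ∈ U, 0 ≤ Real.exp (-(a * G y)) - Real.exp (-(α a * G y)) ∧
        Real.exp (-(a * G y)) - Real.exp (-(α a * G y)) ≤
          (α a - a) * G y * Real.exp (-(a * G y)) := by
      intro y hy
      have h1 : (α a - a) * G y ≥ 0 := mul_nonneg (by linarith) (hG0 y hy)
      have h2 : Real.exp (-(α a * G y)) = Real.exp (-(a * G y)) * Real.exp (-((α a - a) * G y)) := by
        rw [← Real.exp_add]; ring_nf
      have h3 := Real.add_one_le_exp (-((α a - a) * G y))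
      have h4 := Real.exp_pos (-(a * G y))
      constructor
      · rw [sub_nonneg, Real.exp_le_exp]
        linarith
      · rw [h2]
        nlinarith
    have hnn : 0 ≤ ∫ y in U, EE η y * ((Real.exp (-(a * G y)) - Real.exp (-(α a * G y))) / a) :=
      setIntegral_nonneg hUm fun y hy =>
        mul_nonneg (hE0 y).le (div_nonneg (hpt y hy).1 ha.1.le)
    rw [Real.norm_eq_abs, abs_of_nonneg hnn]
    have e1 : (m - K a) / a / K a = (α a - a) / a ^ 2 := by
      rw [hα]
      show (m - K a) / a / K a = (a * m / K a - a) / a ^ 2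
      field_simp [ha.1.ne', hKa.ne']
    rw [e1, ← integral_const_mul]
    have hexpG : ∀ c : ℝ, 0 ≤ c → ∀ y ∈ U, Real.exp (-(c * G y)) ≤ 1 := by
      intro c hc y hy
      rw [Real.exp_le_one_iff]
      have := mul_nonneg hc (hG0 y hy)
      linarith
    refine setIntegral_mono_on ?_ ?_ hUm fun y hy => ?_
    · have h9 : IntegrableOn (fun y => a⁻¹ * (C * ((1 + ‖y‖) * EE η y))) U := hb.const_mul _
      refine intg hUm h9 (by fun_prop) (fun y hy => ?_)
      rw [abs_of_nonneg (mul_nonneg (hE0 y).le (div_nonneg (hpt y hy).1 ha.1.le))]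
      have h10 : Real.exp (-(a * G y)) - Real.exp (-(α a * G y)) ≤ 1 := by
        have := hexpG a ha.1.le y hy
        have := Real.exp_pos (-(α a * G y))
        linarith
      have h11 : (Real.exp (-(a * G y)) - Real.exp (-(α a * G y))) / a ≤ a⁻¹ := by
        rw [div_le_iff₀ ha.1, inv_mul_cancel₀ ha.1.ne']
        exact h10
      calc EE η y * ((Real.exp (-(a * G y)) - Real.exp (-(α a * G y))) / a)
          ≤ EE η y * a⁻¹ := mul_le_mul_of_nonneg_left h11 (hE0 y).le
        _ = a⁻¹ * EE η y := mul_comm _ _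
        _ ≤ a⁻¹ * (C * ((1 + ‖y‖) * EE η y)) :=
          mul_le_mul_of_nonneg_left (hbE y) (inv_nonneg.2 ha.1.le)
    · refine Integrable.const_mul ?_ _
      refine intg hUm hb (by fun_prop) (fun y hy => ?_)
      have hx : 0 ≤ a * G y := mul_nonneg ha.1.le (hG0 y hy)
      rw [abs_of_nonneg (mul_nonneg (hE0 y).le (mul_nonneg hx (Real.exp_pos _).le))]
      refine le_trans ?_ (hbE y)
      have h1 : a * G y * Real.exp (-(a * G y)) ≤ 1 := by
        have h2 := Real.add_one_le_exp (a * G y)
        rw [Real.exp_neg, ← div_eq_mul_inv, div_le_one (Real.exp_pos _)]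
        linarith
      nlinarith [hE0 y]
    · have h1 := (hpt y hy).2
      have h2 : (Real.exp (-(a * G y)) - Real.exp (-(α a * G y))) / a
          ≤ (α a - a) / a ^ 2 * ((a * G y) * Real.exp (-(a * G y))) := by
        rw [div_le_iff₀ ha.1]
        refine h1.trans (le_of_eq ?_)
        field_simp [ha.1.ne']
      calc EE η y * ((Real.exp (-(a * G y)) - Real.exp (-(α a * G y))) / a)
          ≤ EE η y * ((α a - a) / a ^ 2 * ((a * G y) * Real.exp (-(a * G y)))) :=
            mul_le_mul_of_nonneg_left h2 (hE0 y).le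
        _ = (α a - a) / a ^ 2 * (EE η y * ((a * G y) * Real.exp (-(a * G y)))) := by ring
  -- the sum
  have hsum := ((hT1.add hT2).add hT3).add hT4
  have hzero : ∀ᶠ a in 𝓝[>] (0 : ℝ),
      (Real.exp (W a) - 1) / a * (∫ y in U, EE η y * Real.exp (-(a * g y)))
        + (∫ y in U, EE η y * ((Real.exp (-(a * g y)) - Real.exp (-(a * G y))) / a))
        + (∫ y in U, EE η y * ((Real.exp (-(a * G y)) - Real.exp (-(α a * G y))) / a))
        + (1 - K a / m) / a * (∫ y in U, EE η y * Real.exp (-(α a * G y))) = 0 := by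
    filter_upwards [ev_pos, hKpos] with a ha hKa
    have hαp : 0 < α a := by
      rw [hα]
      exact div_pos (mul_pos ha.1 hm0) hKa
    have hsplit : ∀ (q : (Fin n → ℝ) → ℝ) (c : ℝ),
        (∫ y in U, Real.exp (-(dotProduct η y) - c * q y)) =
          ∫ y in U, EE η y * Real.exp (-(c * q y)) := by
      intro q c
      refine integral_congr_ae (Eventually.of_forall fun y => ?_)
      show Real.exp (-(dotProduct η y) - c * q y) = Real.exp (-(dotProduct η y)) * Real.exp (-(c * q y))
      rw [← Real.exp_add]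
      ring_nf
    have h1 : gL U k a η = Lap U η / α a := by
      unfold gL
      rw [hsplit, ← hmdef]
      have e : (∫ y in U, EE η y * Real.exp (-(a * k y))) = K a := by rw [hK]
      rw [e, hα]
      show a⁻¹ * K a = m / (a * m / K a)
      field_simp [ha.1.ne', hKa.ne', hm0.ne']
    have h2 := hH a (α a) ha.1 hαp h1
    unfold gL at h2
    rw [hsplit, hsplit] at h2
    have hiG : ∀ c : ℝ, 0 ≤ c → IntegrableOn (fun y => EE η y * Real.exp (-(c * G y))) U := by
      intro c hc
      refine intg hUm hb (by fun_prop) (fun y hy => ?_)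
      rw [abs_of_nonneg (mul_nonneg (hE0 y).le (Real.exp_pos _).le)]
      refine le_trans ?_ (hbE y)
      have h1 : Real.exp (-(c * G y)) ≤ 1 := by
        rw [Real.exp_le_one_iff]
        have := mul_nonneg hc (hG0 y hy)
        linarith
      nlinarith [hE0 y]
    have hig : IntegrableOn (fun y => EE η y * Real.exp (-(a * g y))) U := by
      refine intg hUm hb (by fun_prop) (fun y hy => ?_)
      rw [abs_of_nonneg (mul_nonneg (hE0 y).le (Real.exp_pos _).le)]
      have h1 : Real.exp (-(a * g y)) ≤ Real.exp D := by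
        rw [Real.exp_le_exp]
        have := hgD y hy
        nlinarith [ha.1, ha.2]
      have h2 : Real.exp (-(a * g y)) ≤ C := h1.trans hCD
      calc EE η y * Real.exp (-(a * g y)) ≤ EE η y * C := mul_le_mul_of_nonneg_left h2 (hE0 y).le
        _ ≤ C * ((1 + ‖y‖) * EE η y) := by nlinarith [hEle y, hC1]
    have s2 : (∫ y in U, EE η y * ((Real.exp (-(a * g y)) - Real.exp (-(a * G y))) / a))
        = ((∫ y in U, EE η y * Real.exp (-(a * g y))) - ∫ y in U, EE η y * Real.exp (-(a * G y))) / a := by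
      rw [← integral_sub hig (hiG a ha.1.le), ← integral_div]
      refine integral_congr_ae (Eventually.of_forall fun y => ?_)
      show EE η y * ((Real.exp (-(a * g y)) - Real.exp (-(a * G y))) / a)
        = (EE η y * Real.exp (-(a * g y)) - EE η y * Real.exp (-(a * G y))) / a
      ring
    have s3 : (∫ y in U, EE η y * ((Real.exp (-(a * G y)) - Real.exp (-(α a * G y))) / a))
        = ((∫ y in U, EE η y * Real.exp (-(a * G y))) -
          ∫ y in U, EE η y * Real.exp (-(α a * G y))) / a := by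
      rw [← integral_sub (hiG a ha.1.le) (hiG (α a) hαp.le), ← integral_div]
      refine integral_congr_ae (Eventually.of_forall fun y => ?_)
      show EE η y * ((Real.exp (-(a * G y)) - Real.exp (-(α a * G y))) / a)
        = (EE η y * Real.exp (-(a * G y)) - EE η y * Real.exp (-(α a * G y))) / a
      ring
    rw [s2, s3]
    generalize (∫ y in U, EE η y * Real.exp (-(a * g y))) = Ig at h2 ⊢
    generalize (∫ y in U, EE η y * Real.exp (-(a * G y))) = IG
    generalize (∫ y in U, EE η y * Real.exp (-(α a * G y))) = Ia at h2 ⊢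
    have hαe : (α a)⁻¹ = K a / (a * m) := by
      rw [hα]
      show (a * m / K a)⁻¹ = K a / (a * m)
      rw [inv_div]
    rw [hαe] at h2
    have h3 : Real.exp (W a) * Ig = K a / m * Ia := by
      have ha' := ha.1.ne'
      have hm' := hm0.ne'
      field_simp at h2 ⊢
      linarith
    have e : (Real.exp (W a) - 1) / a * Ig + (Ig - IG) / a + (IG - Ia) / a + (1 - K a / m) / a * Ia
        = (Real.exp (W a) * Ig - K a / m * Ia) / a := by ring
    rw [e, h3, sub_self, zero_div]
  have hu := tendsto_nhds_unique (hsum.congr' hzero) tendsto_const_nhds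
  -- conclusion
  have hgi : IntegrableOn (fun y => EE η y * (G y - g y)) U := by
    refine intg hUm hb (by fun_prop) (fun y hy => ?_)
    have h6 : |g y - G y| ≤ (1 + |A| + |B|) * (1 + ‖y‖) := by
      have h7 := hgG y hy
      have h8 : B * ‖y‖ ≤ |B| * ‖y‖ := mul_le_mul_of_nonneg_right (le_abs_self B) (hN y)
      have h9 := le_abs_self A
      nlinarith [abs_nonneg A, abs_nonneg B, hN y, mul_nonneg (abs_nonneg A) (hN y)]
    have h7 : (1 + |A| + |B|) ≤ C := by
      rw [hC]
      have : 0 ≤ 1 + |A| + |B| := by linarith [abs_nonneg A, abs_nonneg B]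
      nlinarith
    rw [abs_mul, abs_of_pos (hE0 y), abs_sub_comm]
    calc EE η y * |g y - G y| ≤ EE η y * (C * (1 + ‖y‖)) :=
          mul_le_mul_of_nonneg_left (h6.trans (mul_le_mul_of_nonneg_right h7
            (by linarith [hN y]))) (hE0 y).le
      _ = C * ((1 + ‖y‖) * EE η y) := by ring
  have hki : IntegrableOn (fun y => EE η y * k y) U := by
    refine intg hUm hb (by fun_prop) (fun y hy => ?_)
    have h6 : k y ≤ C * (1 + ‖y‖) := by
      have h7 := (hk0 y hy).2
      have h8 : B * ‖y‖ ≤ |B| * ‖y‖ := mul_le_mul_of_nonneg_right (le_abs_self B) (hN y)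
      have h9 : |B| ≤ C := by
        rw [hC]
        have : |B| ≤ 1 + |A| + |B| := by linarith [abs_nonneg A]
        nlinarith [abs_nonneg A, abs_nonneg B]
      have h10 : |B| * ‖y‖ ≤ C * ‖y‖ := mul_le_mul_of_nonneg_right h9 (hN y)
      nlinarith
    rw [abs_of_nonneg (mul_nonneg (hE0 y).le (hk0 y hy).1)]
    calc EE η y * k y ≤ EE η y * (C * (1 + ‖y‖)) := mul_le_mul_of_nonneg_left h6 (hE0 y).le
      _ = C * ((1 + ‖y‖) * EE η y) := by ring
  have hfin : (∫ y in U, Real.exp (-(dotProduct η y)) * (g y - G y - k y))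
      = -((∫ y in U, EE η y * (G y - g y)) + ∫ y in U, EE η y * k y) := by
    rw [← integral_add hgi hki, ← integral_neg]
    refine integral_congr_ae (Eventually.of_forall fun y => ?_)
    show Real.exp (-(dotProduct η y)) * (g y - G y - k y)
      = -(Real.exp (-(dotProduct η y)) * (G y - g y) + Real.exp (-(dotProduct η y)) * k y)
    ring
  rw [hfin, ← hmdef]
  linarith

end Pool.Agent.PCN
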