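import Pool.Agent.PCN.Stmts

open MeasureTheory Set Filter Topology

namespace Pool.Agent.PCN

namespace FOLAux

/-- The difference quotient of `1 - exp`. -/
noncomputable def q (a δ s : ℝ) : ℝ := (1 - Real.exp (-(s * a * δ))) / s

lemma q_upper {a δ s K : ℝ} (hs : 0 < s) (ha : 0 < a) (h : δ ≤ K) : q a δ s ≤ a * K := by
  unfold q
  rw [div_le_iff₀ hs]
  have h1 : -(s * a * δ) + 1 ≤ Real.exp (-(s * a * δ)) := Real.add_one_le_exp _
  have h2 : s * a * δ ≤ s * a * K := mul_le_mul_of_nonneg_left h (mul_pos hs ha).le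
  nlinarith

lemma exp_sub_one_le {x : ℝ} : Real.exp x - 1 ≤ x * Real.exp x := by
  have h1 : -x + 1 ≤ Real.exp (-x) := Real.add_one_le_exp _
  have h2 : 0 < Real.exp x := Real.exp_pos _
  have h3 : Real.exp x * Real.exp (-x) = 1 := by
    rw [← Real.exp_add]; simp
  nlinarith

lemma q_lower {a δ s D : ℝ} (hs : 0 < s) (hs1 : s ≤ 1) (ha : 0 < a) (hD : 0 ≤ D)
    (h : -D ≤ δ) : -(a * D * Real.exp (a * D)) ≤ q a δ s := by
  unfold q
  rw [le_div_iff₀ hs]
  have h1 : -(s * a * δ) ≤ s * a * D := by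
    have := mul_le_mul_of_nonneg_left h (mul_pos hs ha).le
    nlinarith
  have h2 : Real.exp (-(s * a * δ)) ≤ Real.exp (s * a * D) := Real.exp_le_exp.mpr h1
  have h3 : Real.exp (s * a * D) - 1 ≤ (s * a * D) * Real.exp (s * a * D) := exp_sub_one_le
  have h4 : s * a * D ≤ a * D := by
    have : 0 ≤ a * D := mul_nonneg ha.le hD
    nlinarith
  have h5 : Real.exp (s * a * D) ≤ Real.exp (a * D) := Real.exp_le_exp.mpr h4
  have h6 : 0 ≤ s * a * D := mul_nonneg (mul_pos hs ha).le hD
  have h7 : (s * a * D) * Real.exp (s * a * D) ≤ (s * a * D) * Real.exp (a * D) :=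
    mul_le_mul_of_nonneg_left h5 h6
  nlinarith

lemma q_le_inv {a δ s : ℝ} (hs : 0 < s) : q a δ s ≤ 1 / s := by
  unfold q
  apply div_le_div_of_nonneg_right _ hs.le
  have := Real.exp_pos (-(s * a * δ))
  linarith

lemma q_tendsto {a : ℝ} {δ : ℝ → ℝ} {d : ℝ} (h : Tendsto δ (𝓝[>] 0) (𝓝 d)) :
    Tendsto (fun s => q a (δ s) s) (𝓝[>] 0) (𝓝 (a * d)) := by
  have hs0 : Tendsto (fun s : ℝ => s) (𝓝[>] 0) (𝓝 0) := tendsto_nhdsWithin_of_tendsto_nhds tendsto_id
  have h1 : Tendsto (fun s => a * δ s) (𝓝[>] 0) (𝓝 (a * d)) := h.const_mul a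
  have h2 : Tendsto (fun s => s * (a * δ s)) (𝓝[>] 0) (𝓝 0) := by
    simpa using hs0.mul h1
  have h3 : Tendsto (fun s => s * (a * δ s) ^ 2) (𝓝[>] 0) (𝓝 0) := by
    simpa using hs0.mul (h1.pow 2)
  have h4 : ∀ᶠ s in 𝓝[>] (0 : ℝ), |s * (a * δ s)| ≤ 1 := by
    have := h2.abs
    simp only [abs_zero] at this
    exact (this.eventually (gt_mem_nhds one_pos)).mono fun s hs => le_of_lt hs
  have h5 : ∀ᶠ s in 𝓝[>] (0 : ℝ), |q a (δ s) s - a * δ s| ≤ s * (a * δ s) ^ 2 := by
    filter_upwards [h4, self_mem_nhdsWithin] with s hs hpos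
    have hpos' : (0 : ℝ) < s := hpos
    have e1 := Real.abs_exp_sub_one_sub_id_le (x := -(s * (a * δ s))) (by rwa [abs_neg])
    have e2 : q a (δ s) s - a * δ s =
        -(Real.exp (-(s * (a * δ s))) - 1 - -(s * (a * δ s))) / s := by
      unfold q
      rw [mul_assoc]
      field_simp
      ring
    rw [e2, abs_div, abs_neg, abs_of_pos hpos', div_le_iff₀ hpos']
    refine e1.trans (le_of_eq ?_)
    ring
  have h6 : Tendsto (fun s => q a (δ s) s - a * δ s) (𝓝[>] 0) (𝓝 0) :=
    squeeze_zero_norm' h5 h3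
  have h7 := h6.add h1
  simpa using h7

/-- The translate of `U`. -/
def At {n : ℕ} (U : Set (Fin n → ℝ)) (v : Fin n → ℝ) : Set (Fin n → ℝ) := {y | y - v ∈ U}

lemma At_open {n : ℕ} {U : Set (Fin n → ℝ)} (hU : IsOpen U) (v : Fin n → ℝ) : IsOpen (At U v) :=
  hU.preimage (by fun_prop : Continuous fun y : Fin n → ℝ => y - v)

lemma At_sub {n : ℕ} {U : Set (Fin n → ℝ)} (hU : OCone U) {v : Fin n → ℝ} (hv : v ∈ U) :
    At U v ⊆ U := by
  intro y hy
  have := hU.add _ hy _ hv
  simpa using this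

/-- Lower bound of the integral over the translate. -/
lemma int_At {n : ℕ} {U : Set (Fin n → ℝ)} (hU : OCone U) {v : Fin n → ℝ} (hv : v ∈ U)
    {F : (Fin n → ℝ) → ℝ} (hF : IntegrableOn F U) {c : ℝ}
    (h : ∀ u ∈ U, c * F u ≤ F (u + v)) :
    c * ∫ y in U, F y ≤ ∫ y in U, (At U v).indicator F y := by
  have hUm : MeasurableSet U := hU.op.measurableSet
  have hAm : MeasurableSet (At U v) := (At_open hU.op v).measurableSet
  have hsub := At_sub hU hv
  have hind : ∀ u, (At U v).indicator F (u + v) = U.indicator (fun u => F (u + v)) u := by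
    intro u
    by_cases hu : u ∈ U
    · rw [Set.indicator_of_mem hu, Set.indicator_of_mem]
      show u + v - v ∈ U
      simpa using hu
    · rw [Set.indicator_of_notMem hu, Set.indicator_of_notMem]
      intro h'
      have h'' : u + v - v ∈ U := h'
      apply hu
      simpa using h''
  have hI1 : Integrable ((At U v).indicator F) := by
    rw [integrable_indicator_iff hAm]
    exact hF.mono_set hsub
  have hI2 : IntegrableOn (fun u => F (u + v)) U := by
    rw [← integrable_indicator_iff hUm]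
    have := hI1.comp_add_right v
    refine this.congr (Filter.Eventually.of_forall fun u => ?_)
    exact hind u
  have e1 : ∫ y in U, (At U v).indicator F y = ∫ u in U, F (u + v) := by
    rw [← integral_indicator hUm, Set.indicator_indicator, Set.inter_eq_self_of_subset_right hsub,
      ← integral_indicator hUm]
    rw [← integral_add_right_eq_self ((At U v).indicator F) v]
    exact integral_congr_ae (Filter.Eventually.of_forall hind)
  rw [e1, ← integral_const_mul]
  exact setIntegral_mono_on (hF.const_mul c) hI2 hUm h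

end FOLAux

open FOLAux in
theorem FOL_thm : FOL := by
  intro hINT hSCL n U k g d D M hU hk hg hrec hlow hdm hdM hlim a η hdom
  obtain ⟨ha, ε, hε, hcoer⟩ := hdom
  simp only at ha hcoer
  have hUm : MeasurableSet U := hU.op.measurableSet
  have hdot : Continuous (fun y : Fin n → ℝ => dotProduct η y) := by
    unfold dotProduct; fun_prop
  obtain ⟨F, hFdef⟩ : ∃ F : (Fin n → ℝ) → ℝ,
    F = fun y => Real.exp (-(dotProduct η y) - a * k y) := ⟨_, rfl⟩
  have hFc : Continuous F := by
    rw [hFdef]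
    exact Real.continuous_exp.comp ((hdot.neg).sub (continuous_const.mul hk.cont))
  have hFpos : ∀ y, 0 < F y := fun y => by rw [hFdef]; exact Real.exp_pos _
  have hFint : IntegrableOn F U := by
    have h1 := hINT n U (fun y => dotProduct η y + a * k y) ε 0 hUm hε
      ((hdot.add (continuous_const.mul hk.cont)).continuousOn) (fun y hy => by
        simpa using hcoer y hy)
    refine Integrable.mono' h1 hFc.aestronglyMeasurable ?_
    refine Filter.Eventually.of_forall fun y => ?_
    rw [Real.norm_eq_abs, abs_of_pos (hFpos y)]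
    have : F y = Real.exp (-(dotProduct η y + a * k y)) := by
      simp only [hFdef]; congr 1; ring
    rw [this]
    have h2 := Real.exp_pos (-(dotProduct η y + a * k y))
    nlinarith [norm_nonneg y]
  obtain ⟨D', hD'⟩ : ∃ D' : ℝ, D' = max D 0 := ⟨_, rfl⟩
  have hD0 : 0 ≤ D' := by rw [hD']; exact le_max_right _ _
  have hδlow : ∀ y ∈ U, -D' ≤ g y - k y := by
    intro y hy
    have h1 := hlow y hy
    have h2 : D ≤ D' := by rw [hD']; exact le_max_left _ _
    linarith
  have hUs : ∀ y ∈ U, ∀ s : ℝ, 0 < s → s⁻¹ • y ∈ U := fun y hy s hs =>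
    hU.smul y hy _ (inv_pos.mpr hs)
  obtain ⟨C, hC⟩ : ∃ C : ℝ, C = a * D' * Real.exp (a * D') := ⟨_, rfl⟩
  have hC0 : 0 ≤ C := by
    rw [hC]; exact mul_nonneg (mul_nonneg ha.le hD0) (Real.exp_pos _).le
  obtain ⟨G, hG⟩ : ∃ G : ℝ → (Fin n → ℝ) → ℝ,
    G = fun s y => F y * q a (g (s⁻¹ • y) - k (s⁻¹ • y)) s := ⟨_, rfl⟩
  have hGc : ∀ s : ℝ, 0 < s → ContinuousOn (G s) U := by
    intro s hs
    rw [hG]
    unfold q
    have h1 : ContinuousOn (fun y : Fin n → ℝ => g (s⁻¹ • y)) U :=
      hg.comp (by fun_prop) (fun y hy => hUs y hy s hs)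
    have h2 : Continuous (fun y : Fin n → ℝ => k (s⁻¹ • y)) :=
      hk.cont.comp (by fun_prop)
    refine hFc.continuousOn.mul (ContinuousOn.div_const ?_ _)
    refine continuousOn_const.sub ?_
    refine Real.continuous_exp.comp_continuousOn ?_
    exact (continuousOn_const.mul (h1.sub h2.continuousOn)).neg
  have hqlow : ∀ s : ℝ, 0 < s → s ≤ 1 → ∀ y ∈ U, -C ≤ q a (g (s⁻¹ • y) - k (s⁻¹ • y)) s := by
    intro s hs hs1 y hy
    rw [hC]
    exact q_lower hs hs1 ha hD0 (hδlow _ (hUs y hy s hs))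
  have hqabs : ∀ s : ℝ, 0 < s → s ≤ 1 → ∀ y ∈ U,
      |q a (g (s⁻¹ • y) - k (s⁻¹ • y)) s| ≤ 1 / s + C := by
    intro s hs hs1 y hy
    rw [abs_le]
    have h1 := hqlow s hs hs1 y hy
    have h2 : q a (g (s⁻¹ • y) - k (s⁻¹ • y)) s ≤ 1 / s := q_le_inv hs
    have h3 : 0 < 1 / s := by positivity
    constructor <;> linarith
  have hGabs : ∀ s : ℝ, 0 < s → s ≤ 1 → ∀ y ∈ U, |G s y| ≤ (1 / s + C) * F y := by
    intro s hs hs1 y hy
    rw [hG]
    simp only
    rw [abs_mul, abs_of_pos (hFpos y), mul_comm]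
    exact mul_le_mul_of_nonneg_right (hqabs s hs hs1 y hy) (hFpos y).le
  have hGint : ∀ s : ℝ, 0 < s → s ≤ 1 → IntegrableOn (G s) U := by
    intro s hs hs1
    refine Integrable.mono' (hFint.const_mul (1 / s + C))
      ((hGc s hs).aestronglyMeasurable hUm) ?_
    refine (ae_restrict_iff' hUm).mpr (Filter.Eventually.of_forall fun y hy => ?_)
    rw [Real.norm_eq_abs]
    exact hGabs s hs hs1 y hy
  -- the quotient as an integral
  have hkey : ∀ s : ℝ, 0 < s → s ≤ 1 →
      (gL U k a η - s ^ (n + 1) * gL U g (s * a) (s • η)) / s = a⁻¹ * ∫ y in U, G s y := by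
    intro s hs hs1
    have h1 := (hSCL n U hU s hs).2.2.2 g a η
    have hE : ∀ y ∈ U, Real.exp (-(dotProduct η y) - s * a * g (s⁻¹ • y)) = F y - s * G s y := by
      intro y hy
      have hky : k y = s * k (s⁻¹ • y) := by
        have := hk.smul (s⁻¹ • y) s hs.le
        rw [← this, smul_smul, mul_inv_cancel₀ hs.ne', one_smul]
      have e1 : Real.exp (-(dotProduct η y) - s * a * g (s⁻¹ • y)) =
          F y * Real.exp (-(s * a * (g (s⁻¹ • y) - k (s⁻¹ • y)))) := by
        rw [hFdef]
        simp only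
        rw [← Real.exp_add, hky]
        congr 1
        ring
      rw [e1, hG]
      simp only
      unfold q
      field_simp
      ring
    have h2 : ∫ y in U, Real.exp (-(dotProduct η y) - s * a * g (s⁻¹ • y)) =
        (∫ y in U, F y) - s * ∫ y in U, G s y := by
      rw [setIntegral_congr_fun hUm hE, integral_sub hFint ((hGint s hs hs1).const_mul s),
        integral_const_mul]
    rw [h1, h2]
    have h3 : gL U k a η = a⁻¹ * ∫ y in U, F y := by
      unfold gL
      rw [hFdef]
    rw [h3]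
    have h4 : s ^ (n + 1) * (s⁻¹) ^ (n + 1) = 1 := by
      rw [← mul_pow, mul_inv_cancel₀ hs.ne', one_pow]
    rw [← mul_assoc (s ^ (n + 1)), h4, one_mul]
    field_simp
    ring
  obtain ⟨y1, hy1⟩ := hU.ne
  obtain ⟨c1, hc1⟩ : ∃ c1 : ℝ, c1 = dotProduct η y1 + a * k y1 := ⟨_, rfl⟩
  have hc0 : 0 ≤ c1 := by
    rw [hc1]
    exact le_trans (mul_nonneg hε.le (norm_nonneg _)) (hcoer y1 hy1)
  -- the first part
  have hT1 : ∀ R : ℝ, 0 < R → Tendsto (fun s : ℝ => ∫ y in U, (At U ((s * R) • y1)).indicator (G s) y)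
      (𝓝[>] 0) (𝓝 (∫ y in U, F y * (a * d y))) := by
    intro R hR
    obtain ⟨K, hK⟩ : ∃ K : ℝ, K = |g (R • y1) + k (-(R • y1))| := ⟨_, rfl⟩
    have hK0 : 0 ≤ K := by rw [hK]; exact abs_nonneg _
    have hB0 : 0 ≤ a * K + C := by positivity
    have hlt : ∀ᶠ s in 𝓝[>] (0 : ℝ), s < 1 :=
      mem_nhdsWithin_of_mem_nhds (gt_mem_nhds one_pos)
    refine tendsto_integral_filter_of_dominated_convergence (fun y => (a * K + C) * F y) ?_ ?_
      (hFint.const_mul _) ?_
    · filter_upwards [self_mem_nhdsWithin] with s hs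
      exact ((hGc s hs).aestronglyMeasurable hUm).indicator (At_open hU.op _).measurableSet
    · filter_upwards [self_mem_nhdsWithin, hlt] with s hs hs1
      have hs' : (0 : ℝ) < s := hs
      refine (ae_restrict_iff' hUm).mpr (Filter.Eventually.of_forall fun y hy => ?_)
      by_cases hyA : y ∈ At U ((s * R) • y1)
      · rw [Set.indicator_of_mem hyA, Real.norm_eq_abs, hG]
        simp only
        rw [abs_mul, abs_of_pos (hFpos y), mul_comm]
        refine mul_le_mul_of_nonneg_right ?_ (hFpos y).le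
        have hup : g (s⁻¹ • y) - k (s⁻¹ • y) ≤ K := by
          have hu : y - (s * R) • y1 ∈ U := hyA
          have hu' := hUs _ hu s hs'
          have e1 : s⁻¹ • y = R • y1 + s⁻¹ • (y - (s * R) • y1) := by
            rw [smul_sub, smul_smul, ← mul_assoc, inv_mul_cancel₀ hs'.ne', one_mul]
            abel
          have h1 := hrec (R • y1) (hU.smul y1 hy1 R hR) _ hu'
          rw [← e1] at h1
          have e2 : s⁻¹ • (y - (s * R) • y1) = s⁻¹ • y + (-(R • y1)) := by
            rw [e1]; abel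
          have h2 := hk.add (s⁻¹ • y) (-(R • y1))
          rw [← e2] at h2
          have h3 : g (R • y1) + k (-(R • y1)) ≤ K := by rw [hK]; exact le_abs_self _
          linarith
        have h4 : q a (g (s⁻¹ • y) - k (s⁻¹ • y)) s ≤ a * K := q_upper hs' ha hup
        have h5 := hqlow s hs' hs1.le y hy
        rw [abs_le]
        have h6 : 0 ≤ a * K := mul_nonneg ha.le hK0
        constructor <;> linarith
      · rw [Set.indicator_of_notMem hyA, norm_zero]
        exact mul_nonneg hB0 (hFpos y).le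
    · have hlim' := hlim
      filter_upwards [hlim', ae_restrict_mem hUm] with y hy hyU
      have h1 : Tendsto (fun s : ℝ => g (s⁻¹ • y) - k (s⁻¹ • y)) (𝓝[>] 0) (𝓝 (d y)) :=
        hy.comp tendsto_inv_nhdsGT_zero
      have h2 := (q_tendsto (a := a) h1).const_mul (F y)
      refine Tendsto.congr' ?_ h2
      have h3 : Tendsto (fun s : ℝ => y - (s * R) • y1) (𝓝[>] 0) (𝓝 y) := by
        have hc : Continuous (fun s : ℝ => y - (s * R) • y1) := by fun_prop
        have := hc.tendsto 0
        simp only [zero_mul, zero_smul, sub_zero] at this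
        exact tendsto_nhdsWithin_of_tendsto_nhds this
      filter_upwards [h3.eventually (hU.op.mem_nhds hyU)] with s hs
      rw [Set.indicator_of_mem (show y ∈ At U ((s * R) • y1) from hs), hG]
  -- the second part
  obtain ⟨I, hI⟩ : ∃ I : ℝ, I = ∫ y in U, F y := ⟨_, rfl⟩
  have hI0 : 0 ≤ I := by
    rw [hI]; exact integral_nonneg fun y => (hFpos y).le
  have hT2 : ∀ R : ℝ, 0 < R → ∀ s : ℝ, 0 < s → s ≤ 1 →
      |(∫ y in U, G s y) - ∫ y in U, (At U ((s * R) • y1)).indicator (G s) y| ≤
        (1 + C) * (R * c1 * I) := by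
    intro R hR s hs hs1
    have hv : (s * R) • y1 ∈ U := hU.smul y1 hy1 _ (mul_pos hs hR)
    have hAm : MeasurableSet (At U ((s * R) • y1)) := (At_open hU.op _).measurableSet
    have hlowI : Real.exp (-(s * R * c1)) * I ≤
        ∫ y in U, (At U ((s * R) • y1)).indicator F y := by
      rw [hI]
      refine int_At hU hv hFint ?_
      intro u hu
      rw [hFdef]
      simp only
      rw [← Real.exp_add]
      apply Real.exp_le_exp.mpr
      have h1 := hk.add u ((s * R) • y1)
      have h2 := hk.smul y1 (s * R) (mul_pos hs hR).le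
      rw [h2] at h1
      have h3 : dotProduct η (u + (s * R) • y1) = dotProduct η u + s * R * dotProduct η y1 := by
        rw [dotProduct_add, dotProduct_smul, smul_eq_mul]
      rw [h3, hc1]
      have h4 := mul_le_mul_of_nonneg_left h1 ha.le
      nlinarith
    have hIF : IntegrableOn ((At U ((s * R) • y1)).indicator F) U := hFint.indicator hAm
    have hIG : IntegrableOn ((At U ((s * R) • y1)).indicator (G s)) U :=
      (hGint s hs hs1).indicator hAm
    rw [← integral_sub (hGint s hs hs1) hIG]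
    have h5 : |∫ y in U, (G s y - (At U ((s * R) • y1)).indicator (G s) y)| ≤
        ∫ y in U, (1 / s + C) * (F y - (At U ((s * R) • y1)).indicator F y) := by
      rw [← Real.norm_eq_abs]
      refine norm_integral_le_of_norm_le ((hFint.sub hIF).const_mul _) ?_
      refine (ae_restrict_iff' hUm).mpr (Filter.Eventually.of_forall fun y hy => ?_)
      by_cases hyA : y ∈ At U ((s * R) • y1)
      · rw [Set.indicator_of_mem hyA, Set.indicator_of_mem hyA]
        simp
      · rw [Set.indicator_of_notMem hyA, Set.indicator_of_notMem hyA, sub_zero, sub_zero,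
          Real.norm_eq_abs]
        exact hGabs s hs hs1 y hy
    refine h5.trans ?_
    rw [integral_const_mul, integral_sub hFint hIF, ← hI]
    have h6 : -(s * R * c1) + 1 ≤ Real.exp (-(s * R * c1)) := Real.add_one_le_exp _
    have h7 : I - ∫ y in U, (At U ((s * R) • y1)).indicator F y ≤ s * R * c1 * I := by
      nlinarith
    have h8 : 0 ≤ 1 / s + C := by positivity
    refine (mul_le_mul_of_nonneg_left h7 h8).trans ?_
    have h9 : (1 / s + C) * (s * R * c1 * I) = (1 + C * s) * (R * c1 * I) := by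
      field_simp
    rw [h9]
    refine mul_le_mul_of_nonneg_right ?_ (by positivity)
    nlinarith
  have hmain : Tendsto (fun s : ℝ => ∫ y in U, G s y) (𝓝[>] 0)
      (𝓝 (∫ y in U, F y * (a * d y))) := by
    rw [Metric.tendsto_nhds]
    intro e he
    obtain ⟨R, hR, hRe⟩ : ∃ R : ℝ, 0 < R ∧ (1 + C) * (R * c1 * I) < e / 2 := by
      have hX : 0 ≤ (1 + C) * c1 * I := by positivity
      refine ⟨e / (2 * ((1 + C) * c1 * I + 1)), by positivity, ?_⟩
      have h1 : (1 + C) * (e / (2 * ((1 + C) * c1 * I + 1)) * c1 * I) =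
          e / 2 * ((1 + C) * c1 * I / ((1 + C) * c1 * I + 1)) := by
        field_simp
      rw [h1]
      have h2 : (1 + C) * c1 * I / ((1 + C) * c1 * I + 1) < 1 := by
        rw [div_lt_one (by positivity)]; linarith
      nlinarith
    have h1 := (Metric.tendsto_nhds.mp (hT1 R hR)) (e / 2) (by positivity)
    have hlt : ∀ᶠ s in 𝓝[>] (0 : ℝ), s < 1 :=
      mem_nhdsWithin_of_mem_nhds (gt_mem_nhds one_pos)
    filter_upwards [h1, hlt, self_mem_nhdsWithin] with s h2 h3 h4
    have h5 := hT2 R hR s h4 h3.le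
    rw [Real.dist_eq] at h2 ⊢
    have h6 := abs_sub_le (∫ y in U, G s y)
      (∫ y in U, (At U ((s * R) • y1)).indicator (G s) y) (∫ y in U, F y * (a * d y))
    linarith
  have hfin := hmain.const_mul a⁻¹
  have hval : a⁻¹ * ∫ y in U, F y * (a * d y) =
      ∫ y in U, Real.exp (-(dotProduct η y) - a * k y) * d y := by
    rw [← integral_const_mul]
    congr 1
    funext y
    rw [hFdef]
    field_simp
  rw [hval] at hfin
  refine Tendsto.congr' ?_ hfin
  have hlt : ∀ᶠ s in 𝓝[>] (0 : ℝ), s < 1 :=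
    mem_nhdsWithin_of_mem_nhds (gt_mem_nhds one_pos)
  filter_upwards [hlt, self_mem_nhdsWithin] with s h3 h4
  exact (hkey s h4 h3.le).symm

end Pool.Agent.PCN
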