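import Pool.Agent.PCN.Stmts

/-!
# G1A: the lower bound of `g`
-/

set_option autoImplicit false

open MeasureTheory Set Filter Topology

namespace Pool.Agent.PCN

namespace G1AAux

lemma dot_cont {n : ℕ} (η : Fin n → ℝ) : Continuous fun y : Fin n → ℝ => dotProduct η y := by
  unfold dotProduct
  exact continuous_finsetSum _ fun i _ => continuous_const.mul (continuous_apply i)

/-- integrability of `exp (-c)` -/
lemma int_exp (hI : INT) {n : ℕ} {U : Set (Fin n → ℝ)} (hU : IsOpen U) {c : (Fin n → ℝ) → ℝ}
    (hc : Continuous c) {ε : ℝ} (hε : 0 < ε) (h : ∀ y ∈ U, ε * ‖y‖ ≤ c y) :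
    IntegrableOn (fun y => Real.exp (-(c y))) U := by
  have h1 := hI n U c ε 0 hU.measurableSet hε hc.continuousOn (fun y hy => by
    rw [add_zero]
    exact h y hy)
  refine Integrable.mono' h1 (Real.continuous_exp.comp hc.neg).aestronglyMeasurable
    (Filter.Eventually.of_forall fun y => ?_)
  rw [Real.norm_of_nonneg (Real.exp_pos _).le]
  have h2 : (1 : ℝ) ≤ 1 + ‖y‖ := by
    have := norm_nonneg y
    linarith
  calc Real.exp (-(c y)) = 1 * Real.exp (-(c y)) := (one_mul _).symm
    _ ≤ (1 + ‖y‖) * Real.exp (-(c y)) := mul_le_mul_of_nonneg_right h2 (Real.exp_pos _).le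

lemma rp_anti {n : ℕ} {x y : ℝ} (hx : 0 < x) (hxy : x ≤ y) : rp n y ≤ rp n x := by
  unfold rp
  apply Real.rpow_le_rpow_of_nonpos hx hxy
  have : (0 : ℝ) ≤ 1 / ((n : ℝ) + 1) := by positivity
  linarith

end G1AAux

open G1AAux

theorem G1A_thm : G1A := by
  intro hI n U P k g b M hU hne hP hk hb hpos hlow hup y hy
  obtain ⟨hPk, hPe⟩ : (∀ y, ∀ p ∈ P, dotProduct p y ≤ k y) ∧ ∃ p ∈ P, k y = dotProduct p y :=
    ⟨fun y => (hP y).1, (hP y).2⟩
  obtain ⟨p, hp, hpy⟩ := hPe
  have key : ∀ η ∈ Ud U, b * rp n (Lap U η) - dotProduct η y ≤ g y - k y + M := by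
    rintro η ⟨ε, hε, hη⟩
    have hdom : ((1 : ℝ), η - p) ∈ Dom U k := by
      refine ⟨one_pos, ε, hε, fun x hx => ?_⟩
      show ε * ‖x‖ ≤ dotProduct (η - p) x + 1 * k x
      rw [sub_dotProduct, one_mul]
      have h1 := hη x hx
      have h2 := hPk x p hp
      linarith
    have hle : gL U k 1 (η - p) ≤ Lap U η := by
      unfold gL Lap
      rw [inv_one, one_mul]
      have e1 : IntegrableOn (fun x => Real.exp (-(dotProduct (η - p) x) - 1 * k x)) U := by
        have h1 := int_exp hI hU.op (c := fun x => dotProduct (η - p) x + k x)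
          ((dot_cont _).add hk.cont) hε (fun x hx => by
            have h1 := hη x hx
            have h2 := hPk x p hp
            simp only [sub_dotProduct]
            linarith)
        refine h1.congr_fun (fun x _ => ?_) hU.op.measurableSet
        simp only
        congr 1
        ring
      have e2 : IntegrableOn (fun x => Real.exp (-(dotProduct η x))) U :=
        int_exp hI hU.op (dot_cont _) hε hη
      refine setIntegral_mono_on e1 e2 hU.op.measurableSet fun x _ => ?_
      apply Real.exp_le_exp.2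
      have h2 := hPk x p hp
      rw [sub_dotProduct]
      linarith
    have h1 := hpos (η - p) hdom
    have h2 := hlow (η - p) hdom
    have h3 := hup (η - p) hdom y hy
    have h4 : b * rp n (Lap U η) ≤ b * rp n (gL U k 1 (η - p)) :=
      mul_le_mul_of_nonneg_left (rp_anti h1 hle) hb
    rw [sub_dotProduct] at h3
    linarith
  refine ⟨⟨g y - k y + M, ?_⟩, ?_⟩
  · rintro _ ⟨η, hη, rfl⟩
    exact key η hη
  · have h1 : g1 U b y ≤ g y - k y + M := by
      unfold g1
      apply csSup_le (hne.image _)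
      rintro _ ⟨η, hη, rfl⟩
      exact key η hη
    linarith

end Pool.Agent.PCN
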