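import Pool.Agent.PCN.Stmts

open MeasureTheory Set Filter Topology

namespace Pool.Agent.PCN

namespace G1BAux

theorem integ (hI : INT) {n : ℕ} {U : Set (Fin n → ℝ)} (hU : OCone U)
    {c : (Fin n → ℝ) → ℝ} {ε : ℝ} (hε : 0 < ε) (hc : Continuous c)
    (h : ∀ y ∈ U, ε * ‖y‖ ≤ c y) : IntegrableOn (fun y => Real.exp (-(c y))) U := by
  have h1 := hI n U c ε 0 hU.op.measurableSet hε hc.continuousOn
    (fun y hy => by simpa using h y hy)
  refine Integrable.mono' h1 ?_ ?_
  · exact (Real.continuous_exp.comp hc.neg).aestronglyMeasurable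
  · refine Filter.Eventually.of_forall fun y => ?_
    rw [Real.norm_eq_abs, abs_of_pos (Real.exp_pos _)]
    nlinarith [Real.exp_pos (-(c y)), norm_nonneg y]

theorem rp_anti (n : ℕ) {z z' : ℝ} (hz : 0 < z) (h : z ≤ z') : rp n z' ≤ rp n z := by
  unfold rp
  refine Real.rpow_le_rpow_of_nonpos hz h ?_
  have : (0 : ℝ) ≤ 1 / ((n : ℝ) + 1) := by positivity
  linarith

end G1BAux

open G1BAux in
theorem G1B_thm : G1B := by
  intro hI n U k g b M hU hne hk hb hpos hbdd hA hB
  obtain ⟨η0, ε0, hε0, h0⟩ := hne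
  obtain ⟨B, hB0, hBk⟩ := hk.bdd
  have hdp : ∀ η : Fin n → ℝ, Continuous fun y : Fin n → ℝ => dotProduct η y := by
    intro η
    unfold dotProduct
    exact continuous_finsetSum _ fun i _ => continuous_const.mul (continuous_apply i)
  have hl : ∀ y ∈ U, k y ≤ dotProduct ((B / ε0) • η0) y := by
    intro y hy
    rw [smul_dotProduct, smul_eq_mul]
    have h1 := h0 y hy
    have h2 := le_of_abs_le (hBk y)
    have h3 : B / ε0 * (ε0 * ‖y‖) ≤ B / ε0 * dotProduct η0 y :=
      mul_le_mul_of_nonneg_left h1 (by positivity)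
    have h4 : B / ε0 * (ε0 * ‖y‖) = B * ‖y‖ := by
      field_simp
    linarith
  refine ⟨(B / ε0) • η0, fun y hy => ?_⟩
  refine le_of_forall_pos_le_add fun ε hε => ?_
  obtain ⟨η, hη, h1⟩ := hB y hy ε hε
  obtain ⟨-, δ, hδ, hδU⟩ := hη
  simp only [one_mul] at hδU
  have hUd : η + (B / ε0) • η0 ∈ Ud U := by
    refine ⟨δ, hδ, fun x hx => ?_⟩
    have h2 := hδU x hx
    have h3 := hl x hx
    rw [add_dotProduct]
    linarith
  have h2 : Lap U (η + (B / ε0) • η0) ≤ gL U k 1 η := by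
    unfold Lap gL
    rw [inv_one, one_mul]
    obtain ⟨δ', hδ', hδU'⟩ := hUd
    refine setIntegral_mono_on ?_ ?_ hU.op.measurableSet ?_
    · exact integ hI hU hδ' (hdp _) hδU'
    · have h3 := integ hI hU (c := fun x => dotProduct η x + k x) hδ ((hdp _).add hk.cont) hδU
      refine h3.congr_fun (fun x _ => ?_) hU.op.measurableSet
      simp only
      congr 1
      ring
    · intro x hx
      refine Real.exp_le_exp.2 ?_
      have h3 := hl x hx
      rw [add_dotProduct]
      linarith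
  have h3 : rp n (gL U k 1 η) ≤ rp n (Lap U (η + (B / ε0) • η0)) :=
    rp_anti n (hpos _ hUd) h2
  have h4 := hA η ⟨one_pos, δ, hδ, fun x hx => by simpa only [one_mul] using hδU x hx⟩
  have h5 : b * rp n (gL U k 1 η) ≤ b * rp n (Lap U (η + (B / ε0) • η0)) :=
    mul_le_mul_of_nonneg_left h3 hb
  have h6 : b * rp n (Lap U (η + (B / ε0) • η0)) - dotProduct (η + (B / ε0) • η0) y
      ≤ g1 U b y :=
    le_csSup (hbdd y hy) ⟨_, hUd, rfl⟩
  rw [add_dotProduct] at h6
  linarith

end Pool.Agent.PCN
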