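import Pool.Agent.PCN.Stmts

/-!
# Homogeneity, continuity and positivity of the limit profile
-/

set_option maxHeartbeats 4000000

open MeasureTheory Set Filter Topology Pointwise

namespace Pool.Agent.PCN

namespace G1CAux

lemma ud_smul {n : ℕ} {U : Set (Fin n → ℝ)} {η : Fin n → ℝ} (h : η ∈ Ud U) {s : ℝ}
    (hs : 0 < s) : s • η ∈ Ud U := by
  obtain ⟨ε, hε, h⟩ := h
  refine ⟨s * ε, mul_pos hs hε, fun y hy => ?_⟩
  rw [smul_dotProduct, smul_eq_mul, mul_assoc]
  exact mul_le_mul_of_nonneg_left (h y hy) hs.le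

lemma convex_of_ocone {n : ℕ} {U : Set (Fin n → ℝ)} (hU : OCone U) : Convex ℝ U := by
  intro x hx y hy a c ha hc hac
  rcases ha.eq_or_lt with h | h
  · subst h
    have : c = 1 := by linarith
    subst this
    simpa using hy
  · rcases hc.eq_or_lt with h' | h'
    · subst h'
      have : a = 1 := by linarith
      subst this
      simpa using hx
    · exact hU.add _ (hU.smul x hx a h) _ (hU.smul y hy c h')

lemma rp_scale (n : ℕ) {s L : ℝ} (hs : 0 < s) (hL : 0 < L) :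
    rp n (((s ^ (n + 1))⁻¹) ^ n * L) = s ^ n * rp n L := by
  unfold rp
  have h1 : (0 : ℝ) ≤ ((s ^ (n + 1))⁻¹) ^ n := by positivity
  rw [Real.mul_rpow h1 hL.le]
  congr 1
  have h2 : ((s ^ (n + 1))⁻¹) ^ n = ((s ^ n)⁻¹) ^ (n + 1) := by
    rw [inv_pow, inv_pow, ← pow_mul, ← pow_mul]
    congr 2
    ring
  have h3 : (0 : ℝ) ≤ (s ^ n)⁻¹ := by positivity
  have hn : ((n : ℝ) + 1) ≠ 0 := by positivity
  rw [h2, ← Real.rpow_natCast _ (n + 1), ← Real.rpow_mul h3]
  have h4 : ((n + 1 : ℕ) : ℝ) * (-(1 / ((n : ℝ) + 1))) = -1 := by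
    push_cast
    field_simp
  rw [h4, Real.rpow_neg_one, inv_inv]

lemma mem_scale (hS : SCL) {n : ℕ} {U : Set (Fin n → ℝ)} {b : ℝ} (hU : OCone U)
    (hpos : ∀ η ∈ Ud U, 0 < Lap U η) {η : Fin n → ℝ} (hη : η ∈ Ud U) (y : Fin n → ℝ) {s : ℝ}
    (hs : 0 < s) :
    b * rp n (Lap U (s ^ (n + 1) • η)) - dotProduct (s ^ (n + 1) • η) (s⁻¹ • y) =
      s ^ n * (b * rp n (Lap U η) - dotProduct η y) := by
  have h1 := (hS n U hU (s ^ (n + 1)) (by positivity)).2.1 η
  rw [h1, rp_scale n hs (hpos η hη), smul_dotProduct, dotProduct_smul, smul_eq_mul, smul_eq_mul]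
  have hs' : s ≠ 0 := hs.ne'
  have : s ^ (n + 1) * (s⁻¹ * dotProduct η y) = s ^ n * dotProduct η y := by
    rw [pow_succ]
    field_simp
  rw [this]
  ring

lemma set_scale (hS : SCL) {n : ℕ} {U : Set (Fin n → ℝ)} {b : ℝ} (hU : OCone U)
    (hpos : ∀ η ∈ Ud U, 0 < Lap U η) (y : Fin n → ℝ) {s : ℝ} (hs : 0 < s) :
    g1set U b (s⁻¹ • y) = s ^ n • g1set U b y := by
  apply Set.Subset.antisymm
  · rintro _ ⟨η, hη, rfl⟩
    have hη' : (s ^ (n + 1))⁻¹ • η ∈ Ud U := ud_smul hη (by positivity)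
    refine ⟨_, ⟨(s ^ (n + 1))⁻¹ • η, hη', rfl⟩, ?_⟩
    have h := mem_scale (b := b) hS hU hpos hη' y hs
    rw [smul_smul, mul_inv_cancel₀ (by positivity : s ^ (n + 1) ≠ 0), one_smul] at h
    simp only [smul_eq_mul]
    rw [← h]
  · rintro _ ⟨_, ⟨η, hη, rfl⟩, rfl⟩
    refine ⟨s ^ (n + 1) • η, ud_smul hη (by positivity), ?_⟩
    simp only [smul_eq_mul]
    exact mem_scale hS hU hpos hη y hs

end G1CAux

open G1CAux in
theorem G1C_thm : G1C := by
  intro hS n U b hU hne hb hpos hbdd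
  obtain ⟨η0, hη0⟩ := hne
  have hneS : ∀ y, (g1set U b y).Nonempty := fun y => ⟨_, ⟨η0, hη0, rfl⟩⟩
  have hle : ∀ y ∈ U, ∀ η ∈ Ud U, b * rp n (Lap U η) - dotProduct η y ≤ g1 U b y :=
    fun y hy η hη => le_csSup (hbdd y hy) ⟨η, hη, rfl⟩
  refine ⟨?_, ?_, ?_⟩
  · intro y _ s hs
    unfold g1
    rw [set_scale hS hU hpos y hs, Real.sSup_smul_of_nonneg (by positivity), smul_eq_mul]
  · have hconv : ConvexOn ℝ U (g1 U b) := by
      refine ⟨convex_of_ocone hU, ?_⟩
      intro x hx y hy a c ha hc hac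
      apply csSup_le (hneS _)
      rintro _ ⟨η, hη, rfl⟩
      have h1 := mul_le_mul_of_nonneg_left (hle x hx η hη) ha
      have h2 := mul_le_mul_of_nonneg_left (hle y hy η hη) hc
      simp only [smul_eq_mul, dotProduct_add, dotProduct_smul]
      have h3 : b * rp n (Lap U η) = a * (b * rp n (Lap U η)) + c * (b * rp n (Lap U η)) := by
        rw [← add_mul, hac, one_mul]
      linarith
    exact hconv.continuousOn hU.op
  · intro y hy
    have hlim : Tendsto (fun s : ℝ => -(s * dotProduct η0 y)) (𝓝[>] 0) (𝓝 0) := by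
      have : Tendsto (fun s : ℝ => -(s * dotProduct η0 y)) (𝓝 0) (𝓝 (-(0 * dotProduct η0 y))) :=
        (tendsto_id.mul_const _).neg
      rw [zero_mul, neg_zero] at this
      exact this.mono_left nhdsWithin_le_nhds
    refine le_of_tendsto hlim ?_
    filter_upwards [self_mem_nhdsWithin] with s hs
    have hs' : 0 < s := hs
    have hm := ud_smul hη0 hs'
    have h := hle y hy _ hm
    have h1 : 0 ≤ b * rp n (Lap U (s • η0)) :=
      mul_nonneg hb (Real.rpow_nonneg (hpos _ hm).le _)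
    rw [smul_dotProduct, smul_eq_mul] at h
    linarith

end Pool.Agent.PCN
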