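import Pool.Agent.PCN.Stmts

/-!
# Polyhedral recession cones: the gain
-/

open MeasureTheory Set Filter Topology

namespace Pool.Agent.PCN

namespace GAIAux

theorem rp_pos (n : ℕ) {z : ℝ} (hz : 0 < z) : 0 < rp n z := Real.rpow_pos_of_pos hz _

theorem rp_pow (n : ℕ) {z : ℝ} (hz : 0 < z) : (rp n z) ^ (n + 1) = z⁻¹ := by
  unfold rp
  rw [← Real.rpow_natCast, ← Real.rpow_mul hz.le]
  have h0 : ((n : ℝ) + 1) ≠ 0 := by positivity
  have h1 : (-(1 / ((n : ℝ) + 1))) * ((n + 1 : ℕ) : ℝ) = -1 := by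
    push_cast
    field_simp
  rw [h1, Real.rpow_neg_one]

theorem rp_gain (n : ℕ) {z z' c : ℝ} (hz' : 0 < z') (hle : z' ≤ z) (hc : 0 < c)
    (hcz : c ≤ rp n z) :
    rp n z + (z - z') * c ^ (n + 2) * (1 / ((n : ℝ) + 1)) ≤ rp n z' := by
  have hz : 0 < z := lt_of_lt_of_le hz' hle
  have hn : (0 : ℝ) < (n : ℝ) + 1 := by positivity
  set α : ℝ := 1 / ((n : ℝ) + 1) with hα
  have hαpos : 0 < α := by positivity
  have hx : 0 < z' / z := by positivity
  have h1 : rp n z' = rp n z * (z' / z) ^ (-α) := by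
    unfold rp
    rw [← hα, ← Real.mul_rpow hz.le hx.le]
    congr 1
    field_simp
  have h2 : 1 + α * (1 - z' / z) ≤ (z' / z) ^ (-α) := by
    rw [Real.rpow_def_of_pos hx]
    have e1 := Real.add_one_le_exp (Real.log (z' / z) * (-α))
    have e2 := Real.log_le_sub_one_of_pos hx
    have e3 : Real.log (z' / z) * α ≤ (z' / z - 1) * α :=
      mul_le_mul_of_nonneg_right e2 hαpos.le
    nlinarith
  have hψ : 0 < rp n z := rp_pos n hz
  have h3 : rp n z * (1 + α * (1 - z' / z)) ≤ rp n z' := by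
    rw [h1]
    exact mul_le_mul_of_nonneg_left h2 hψ.le
  have h4 : rp n z * (1 + α * (1 - z' / z)) = rp n z + (z - z') * (rp n z) ^ (n + 2) * α := by
    have e : (rp n z) ^ (n + 2) = rp n z * z⁻¹ := by
      rw [← rp_pow n hz]; ring
    rw [e]
    have : z' / z = z' * z⁻¹ := div_eq_mul_inv _ _
    rw [this]
    have hzz : z * z⁻¹ = 1 := mul_inv_cancel₀ hz.ne'
    calc rp n z * (1 + α * (1 - z' * z⁻¹))
        = rp n z * (1 + α * (z * z⁻¹ - z' * z⁻¹)) := by rw [hzz]
      _ = rp n z + (z - z') * (rp n z * z⁻¹) * α := by ring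
  have h5 : c ^ (n + 2) ≤ (rp n z) ^ (n + 2) := pow_le_pow_left₀ hc.le hcz _
  have h6 : (z - z') * c ^ (n + 2) * α ≤ (z - z') * (rp n z) ^ (n + 2) * α :=
    mul_le_mul_of_nonneg_right (mul_le_mul_of_nonneg_left h5 (sub_nonneg.mpr hle)) hαpos.le
  linarith [h3, h4, h6]

/-- Elements of the dual are nonnegative on the cone. -/
theorem nonneg_of_Ud {n : ℕ} {U : Set (Fin n → ℝ)} {η : Fin n → ℝ} (hη : η ∈ Ud U)
    {y : Fin n → ℝ} (hy : y ∈ U) : 0 ≤ dotProduct η y := by
  obtain ⟨ε, hε, h⟩ := hη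
  exact le_trans (mul_nonneg hε.le (norm_nonneg y)) (h y hy)

theorem smul_Ud {n : ℕ} {U : Set (Fin n → ℝ)} {η : Fin n → ℝ} (hη : η ∈ Ud U) {s : ℝ}
    (hs : 0 < s) : s • η ∈ Ud U := by
  obtain ⟨ε, hε, h⟩ := hη
  refine ⟨s * ε, mul_pos hs hε, fun y hy => ?_⟩
  rw [smul_dotProduct, smul_eq_mul, mul_assoc]
  exact mul_le_mul_of_nonneg_left (h y hy) hs.le

/-- Uniform bound for functionals which are bounded at an interior point. -/
theorem bound_Ud {n : ℕ} {U : Set (Fin n → ℝ)} {y0 : Fin n → ℝ} {r : ℝ} (hr : 0 < r)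
    (hball : Metric.closedBall y0 r ⊆ U) {η : Fin n → ℝ} (hη : η ∈ Ud U) (y : Fin n → ℝ) :
    dotProduct η y ≤ (dotProduct η y0 / r) * ‖y‖ := by
  classical
  -- the point
  let u : Fin n → ℝ := fun i => if 0 ≤ η i then 1 else -1
  have hu : ∀ i, η i * u i = |η i| := by
    intro i
    by_cases h : 0 ≤ η i
    · simp [u, h, abs_of_nonneg h]
    · have h' : η i < 0 := not_le.mp h
      simp [u, h, abs_of_neg h']
  have hmem : y0 - r • u ∈ U := by
    apply hball
    rw [Metric.mem_closedBall, dist_eq_norm]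
    have e : y0 - r • u - y0 = -(r • u) := by abel
    rw [e, norm_neg, norm_smul, Real.norm_of_nonneg hr.le]
    have : ‖u‖ ≤ 1 := by
      rw [pi_norm_le_iff_of_nonneg zero_le_one]
      intro i
      by_cases h : 0 ≤ η i
      · simp [u, h]
      · simp [u, h]
    nlinarith
  have h1 := nonneg_of_Ud hη hmem
  have h2 : dotProduct η u = ∑ i, |η i| := by
    simp only [dotProduct]
    exact Finset.sum_congr rfl (fun i _ => hu i)
  rw [dotProduct_sub, dotProduct_smul, smul_eq_mul, h2] at h1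
  have h3 : ∑ i, |η i| ≤ dotProduct η y0 / r := by
    rw [le_div_iff₀ hr]
    linarith
  have h4 : dotProduct η y ≤ (∑ i, |η i|) * ‖y‖ := by
    simp only [dotProduct]
    rw [Finset.sum_mul]
    apply Finset.sum_le_sum
    intro i _
    calc η i * y i ≤ |η i * y i| := le_abs_self _
      _ = |η i| * |y i| := abs_mul _ _
      _ ≤ |η i| * ‖y‖ := by
        apply mul_le_mul_of_nonneg_left _ (abs_nonneg _)
        have := norm_le_pi_norm y i
        rwa [Real.norm_eq_abs] at this
  exact le_trans h4 (mul_le_mul_of_nonneg_right h3 (norm_nonneg y))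

/-- The limit profile is positive. -/
theorem g1_pos (hscl : SCL) {n : ℕ} {U : Set (Fin n → ℝ)} {b : ℝ} {y0 : Fin n → ℝ}
    (hU : OCone U) (hd : (Ud U).Nonempty) (hb : 0 < b) (hL : ∀ η ∈ Ud U, 0 < Lap U η)
    (hbd : BddAbove (g1set U b y0)) (hy0 : y0 ∈ U) : 0 < g1 U b y0 := by
  obtain ⟨η0, hη0⟩ := hd
  have hL0 := hL η0 hη0
  set ψ : ℝ := rp n (Lap U η0) with hψ
  have hψpos : 0 < ψ := rp_pos n hL0
  set e : ℝ := dotProduct η0 y0 with he
  have he0 : 0 ≤ e := nonneg_of_Ud hη0 hy0
  set t : ℝ := b * ψ / (e + 1) with ht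
  have hbψ : 0 < b * ψ := mul_pos hb hψpos
  have he1 : 0 < e + 1 := by linarith
  have htpos : 0 < t := div_pos hbψ he1
  have hte : t * e < b * ψ := by
    have h1 : t * (e + 1) = b * ψ := by
      rw [ht]; field_simp
    nlinarith
  have hs : 0 < t ^ (n + 1) := pow_pos htpos _
  have hmem : t ^ (n + 1) • η0 ∈ Ud U := smul_Ud hη0 hs
  have hLs := (hscl n U hU (t ^ (n + 1)) hs).2.1 η0
  have hrp : rp n (Lap U (t ^ (n + 1) • η0)) = t ^ n * ψ := by
    have hpos : 0 < rp n (Lap U (t ^ (n + 1) • η0)) := rp_pos n (hL _ hmem)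
    have hpos' : 0 < t ^ n * ψ := mul_pos (pow_pos htpos _) hψpos
    have h1 := rp_pow n (hL _ hmem)
    have h2 := rp_pow n hL0
    have h3 : (t ^ n * ψ) ^ (n + 1) = (Lap U (t ^ (n + 1) • η0))⁻¹ := by
      rw [hLs, mul_pow, hψ, h2, mul_inv, inv_pow, inv_inv]
      ring
    exact (pow_left_inj₀ hpos.le hpos'.le (Nat.succ_ne_zero n)).mp (h1.trans h3.symm)
  have hle : b * rp n (Lap U (t ^ (n + 1) • η0)) - dotProduct (t ^ (n + 1) • η0) y0 ≤
      g1 U b y0 := le_csSup hbd ⟨_, hmem, rfl⟩
  rw [hrp, smul_dotProduct, smul_eq_mul, ← he] at hle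
  have hval : 0 < b * (t ^ n * ψ) - t ^ (n + 1) * e := by
    have : b * (t ^ n * ψ) - t ^ (n + 1) * e = t ^ n * (b * ψ - t * e) := by ring
    rw [this]
    exact mul_pos (pow_pos htpos _) (by linarith)
  linarith

end GAIAux

open GAIAux in
theorem GAI_thm : GAI := by
  intro hint hscl n U k b y0 hU hd hk hk0 hb hL hgL hbd hy0 hub
  by_contra hne
  push_neg at hne
  obtain ⟨y2, hy2, hky2⟩ := hne
  have hky2' : 0 < k y2 := lt_of_le_of_ne (hk0 y2 hy2) (Ne.symm hky2)
  have hmeas : MeasurableSet U := hU.op.measurableSet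
  -- (1)
  set S : ℝ := g1 U b y0 with hS
  have hSpos : 0 < S := g1_pos hscl hU hd hb hL (hbd y0 hy0) hy0
  -- the ball
  obtain ⟨r, hr, hball⟩ := Metric.nhds_basis_closedBall.mem_iff.mp (hU.op.mem_nhds hy0)
  -- the half point
  have hhalf : (1 / 2 : ℝ) • y0 ∈ U := hU.smul y0 hy0 _ (by norm_num)
  set G2 : ℝ := g1 U b ((1 / 2 : ℝ) • y0) with hG2
  set R : ℝ := |2 * G2| / r + 1 with hR
  have hRpos : 0 < R := by positivity
  -- the integral
  have hintR : IntegrableOn (fun y : Fin n → ℝ => (1 + ‖y‖) * Real.exp (-(R * ‖y‖))) U :=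
    hint n U (fun y => R * ‖y‖) R 0 hmeas hRpos (by fun_prop) (fun y _ => by simp)
  have hcont : Continuous (fun y : Fin n → ℝ =>
      Real.exp (-(R * ‖y‖)) * (1 - Real.exp (-(k y)))) := by
    have := hk.cont
    fun_prop
  have hintc : IntegrableOn (fun y : Fin n → ℝ =>
      Real.exp (-(R * ‖y‖)) * (1 - Real.exp (-(k y)))) U := by
    refine Integrable.mono' hintR hcont.aestronglyMeasurable.restrict ?_
    refine (ae_restrict_iff' hmeas).mpr (Eventually.of_forall fun y hy => ?_)
    have h1 : Real.exp (-(k y)) ≤ 1 := by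
      rw [Real.exp_le_one_iff]; linarith [hk0 y hy]
    have h2 : 0 < Real.exp (-(k y)) := Real.exp_pos _
    have h3 : 0 < Real.exp (-(R * ‖y‖)) := Real.exp_pos _
    rw [Real.norm_of_nonneg (mul_nonneg h3.le (by linarith))]
    have h4 := norm_nonneg y
    calc Real.exp (-(R * ‖y‖)) * (1 - Real.exp (-(k y)))
        ≤ Real.exp (-(R * ‖y‖)) * (1 + ‖y‖) :=
          mul_le_mul_of_nonneg_left (by linarith) h3.le
      _ = (1 + ‖y‖) * Real.exp (-(R * ‖y‖)) := mul_comm _ _
  set c1 : ℝ := ∫ y in U, Real.exp (-(R * ‖y‖)) * (1 - Real.exp (-(k y))) with hc1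
  have hc1pos : 0 < c1 := by
    rw [hc1, setIntegral_pos_iff_support_of_nonneg_ae _ hintc]
    · have hsub : U ∩ {y | 0 < k y} ⊆ (Function.support fun y : Fin n → ℝ =>
          Real.exp (-(R * ‖y‖)) * (1 - Real.exp (-(k y)))) ∩ U := by
        rintro y ⟨hy, hky⟩
        refine ⟨?_, hy⟩
        rw [Function.mem_support]
        have hky' : 0 < k y := hky
        have h1 : Real.exp (-(k y)) < 1 := by
          rw [Real.exp_lt_one_iff]; linarith
        exact (mul_pos (Real.exp_pos _) (by linarith)).ne'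
      have hop : IsOpen (U ∩ {y | 0 < k y}) :=
        hU.op.inter (isOpen_lt continuous_const hk.cont)
      exact lt_of_lt_of_le (hop.measure_pos volume ⟨y2, hy2, hky2'⟩) (measure_mono hsub)
    · refine (ae_restrict_iff' hmeas).mpr (Eventually.of_forall fun y hy => ?_)
      have h1 : Real.exp (-(k y)) ≤ 1 := by
        rw [Real.exp_le_one_iff]; linarith [hk0 y hy]
      exact mul_nonneg (Real.exp_pos _).le (by linarith)
  set c0 : ℝ := S / (2 * b) with hc0
  have hc0pos : 0 < c0 := by positivity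
  set δ : ℝ := b * (c1 * c0 ^ (n + 2) * (1 / ((n : ℝ) + 1))) with hδ
  have hδpos : 0 < δ := by positivity
  -- the bound for every element of the dual
  have key : ∀ η ∈ Ud U, b * rp n (Lap U η) - dotProduct η y0 ≤ max (S / 2) (S - δ) := by
    intro η hη
    by_cases hv : b * rp n (Lap U η) - dotProduct η y0 ≤ S / 2
    · exact le_trans hv (le_max_left _ _)
    push_neg at hv
    refine le_trans ?_ (le_max_right _ _)
    have he0 : 0 ≤ dotProduct η y0 := nonneg_of_Ud hη hy0
    have hcz : c0 ≤ rp n (Lap U η) := by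
      rw [hc0, div_le_iff₀ (by positivity)]
      nlinarith
    have hhb : b * rp n (Lap U η) - dotProduct η ((1 / 2 : ℝ) • y0) ≤ G2 :=
      le_csSup (hbd _ hhalf) ⟨_, hη, rfl⟩
    rw [dotProduct_smul, smul_eq_mul] at hhb
    have hey : dotProduct η y0 ≤ |2 * G2| := by
      have : dotProduct η y0 ≤ 2 * G2 := by linarith
      exact le_trans this (le_abs_self _)
    have hRy : ∀ y : Fin n → ℝ, dotProduct η y ≤ R * ‖y‖ := by
      intro y
      refine le_trans (bound_Ud hr hball hη y) ?_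
      apply mul_le_mul_of_nonneg_right _ (norm_nonneg y)
      rw [hR]
      have : dotProduct η y0 / r ≤ |2 * G2| / r := div_le_div_of_nonneg_right hey hr.le
      linarith
    -- integrability at η
    obtain ⟨ε, hε, hεy⟩ := hη
    have hη' : η ∈ Ud U := ⟨ε, hε, hεy⟩
    have hi0 : IntegrableOn (fun y => (1 + ‖y‖) * Real.exp (-(dotProduct η y))) U :=
      hint n U (fun y => dotProduct η y) ε 0 hmeas hε
        (by
          have : Continuous (fun y : Fin n → ℝ => dotProduct η y) := by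
            simp only [dotProduct]; fun_prop
          exact this.continuousOn)
        (fun y hy => by simpa using hεy y hy)
    have hcd : Continuous (fun y : Fin n → ℝ => dotProduct η y) := by
      simp only [dotProduct]; fun_prop
    have hi1 : IntegrableOn (fun y => Real.exp (-(dotProduct η y))) U := by
      refine Integrable.mono' hi0 (by fun_prop) ?_
      refine (ae_restrict_iff' hmeas).mpr (Eventually.of_forall fun y hy => ?_)
      rw [Real.norm_of_nonneg (Real.exp_pos _).le]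
      have h3 : 0 < Real.exp (-(dotProduct η y)) := Real.exp_pos _
      have h4 := norm_nonneg y
      nlinarith
    have hi2 : IntegrableOn (fun y => Real.exp (-(dotProduct η y) - 1 * k y)) U := by
      refine Integrable.mono' hi1 (by
        have := hk.cont
        exact (by fun_prop : Continuous (fun y => Real.exp (-(dotProduct η y) - 1 * k y))
          ).aestronglyMeasurable.restrict) ?_
      refine (ae_restrict_iff' hmeas).mpr (Eventually.of_forall fun y hy => ?_)
      rw [Real.norm_of_nonneg (Real.exp_pos _).le]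
      apply Real.exp_le_exp.mpr
      linarith [hk0 y hy]
    have hdiff : c1 ≤ Lap U η - gL U k 1 η := by
      unfold Lap gL
      rw [inv_one, one_mul, ← integral_sub hi1 hi2, hc1]
      apply setIntegral_mono_on hintc (hi1.sub hi2) hmeas
      intro y hy
      have h1 : Real.exp (-(k y)) ≤ 1 := by
        rw [Real.exp_le_one_iff]; linarith [hk0 y hy]
      have h2 : Real.exp (-(dotProduct η y)) - Real.exp (-(dotProduct η y) - 1 * k y) =
          Real.exp (-(dotProduct η y)) * (1 - Real.exp (-(k y))) := by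
        rw [mul_sub, mul_one, ← Real.exp_add]
        ring_nf
      simp only [Pi.sub_apply]
      rw [h2]
      apply mul_le_mul_of_nonneg_right _ (by linarith)
      apply Real.exp_le_exp.mpr
      linarith [hRy y]
    have hz' := hgL η hη'
    have hle : gL U k 1 η ≤ Lap U η := by linarith
    have hgain := rp_gain n hz' hle hc0pos hcz
    have h7 : c1 * c0 ^ (n + 2) * (1 / ((n : ℝ) + 1)) ≤
        (Lap U η - gL U k 1 η) * c0 ^ (n + 2) * (1 / ((n : ℝ) + 1)) := by
      apply mul_le_mul_of_nonneg_right _ (by positivity)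
      exact mul_le_mul_of_nonneg_right hdiff (by positivity)
    have h8 := hub η hη'
    have h9 : rp n (Lap U η) + c1 * c0 ^ (n + 2) * (1 / ((n : ℝ) + 1)) ≤ rp n (gL U k 1 η) := by
      linarith
    have h10 := mul_le_mul_of_nonneg_left h9 hb.le
    rw [mul_add] at h10
    rw [hδ]
    linarith
  have hfin : S ≤ max (S / 2) (S - δ) := by
    rw [hS]
    unfold g1
    apply csSup_le (hd.image _)
    rintro v ⟨η, hη, rfl⟩
    exact key η hη
  rcases le_max_iff.mp hfin with h | h
  · linarith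
  · linarith

end Pool.Agent.PCN
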