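import Pool.Agent.PCN.Stmts

/-!
# Polyhedral recession cones: module HBW

The abstract form of the identity `h = b ψ + w`.
-/

set_option autoImplicit false

open MeasureTheory Set Filter Topology

namespace Pool.Agent.PCN

namespace HBWAux

theorem tendsto_mul_right {t : ℝ} (ht : 0 < t) :
    Tendsto (fun s : ℝ => s * t) (𝓝[>] 0) (𝓝[>] 0) := by
  refine tendsto_nhdsWithin_iff.2 ⟨?_, ?_⟩
  · have h : Tendsto (fun s : ℝ => s * t) (𝓝 0) (𝓝 (0 * t)) :=
      (continuous_id.mul continuous_const).tendsto 0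
    rw [zero_mul] at h
    exact h.mono_left nhdsWithin_le_nhds
  · filter_upwards [self_mem_nhdsWithin] with s hs
    exact mul_pos hs ht

/-- `w` is homogeneous of degree `1` -/
theorem w_smul {X : Type} [AddCommGroup X] [Module ℝ X] {n : ℕ} {φ w Λ : X → ℝ} {x : X} {t : ℝ}
    (ht : 0 < t) (hx : 0 < φ x) (hφ : φ (t • x) = (t⁻¹) ^ (n + 1) * φ x)
    (h1 : Tendsto (fun s : ℝ => (φ x - s ^ (n + 1) * Λ (s • x)) / s) (𝓝[>] 0)
      (𝓝 (φ x * w x)))
    (h2 : Tendsto (fun s : ℝ => (φ (t • x) - s ^ (n + 1) * Λ (s • (t • x))) / s) (𝓝[>] 0)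
      (𝓝 (φ (t • x) * w (t • x)))) : w (t • x) = t * w x := by
  have h3 := (h1.comp (tendsto_mul_right ht)).const_mul ((t⁻¹) ^ (n + 1) * t)
  have h4 : Tendsto (fun s : ℝ => (φ (t • x) - s ^ (n + 1) * Λ (s • (t • x))) / s) (𝓝[>] 0)
      (𝓝 ((t⁻¹) ^ (n + 1) * t * (φ x * w x))) := by
    refine h3.congr' ?_
    filter_upwards [self_mem_nhdsWithin] with s hs
    have hs' : s ≠ 0 := ne_of_gt hs
    have ht' : t ≠ 0 := ht.ne'
    have e : (t⁻¹) ^ (n + 1) * (s * t) ^ (n + 1) = s ^ (n + 1) := by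
      rw [← mul_pow]
      congr 1
      field_simp
    simp only [Function.comp]
    rw [hφ, smul_smul, ← e]
    field_simp
  have h5 := tendsto_nhds_unique h2 h4
  rw [hφ] at h5
  have h6 : (t⁻¹) ^ (n + 1) * φ x ≠ 0 := by positivity
  have h7 : (t⁻¹) ^ (n + 1) * φ x * w (t • x) = (t⁻¹) ^ (n + 1) * φ x * (t * w x) := by
    rw [h5]
    ring
  exact mul_left_cancel₀ h6 h7

theorem tendsto_exp (a : ℝ) : Tendsto (fun s : ℝ => Real.exp (s * a)) (𝓝[>] 0) (𝓝 1) := by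
  have h : Tendsto (fun s : ℝ => Real.exp (s * a)) (𝓝 0) (𝓝 (Real.exp (0 * a))) :=
    (Real.continuous_exp.comp (continuous_id.mul continuous_const)).tendsto 0
  rw [zero_mul, Real.exp_zero] at h
  exact h.mono_left nhdsWithin_le_nhds

theorem tendsto_exp_sub (a b : ℝ) :
    Tendsto (fun s : ℝ => (Real.exp (s * a) - Real.exp (s * b)) / s) (𝓝[>] 0) (𝓝 (a - b)) := by
  have h1 : HasDerivAt (fun s : ℝ => Real.exp (s * a) - Real.exp (s * b)) (a - b) 0 := by
    have h2 : ∀ c : ℝ, HasDerivAt (fun s : ℝ => Real.exp (s * c)) c 0 := fun c => by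
      have h3 := ((hasDerivAt_id (0 : ℝ)).mul_const c).exp
      simpa using h3
    exact (h2 a).sub (h2 b)
  have h4 := h1.tendsto_slope_zero_right
  refine h4.congr fun s => ?_
  simp only [zero_add, zero_mul, Real.exp_zero, sub_self, sub_zero, smul_eq_mul]
  ring

/-- on a level set of `φ` the difference `h - w` is constant -/
theorem level {X : Type} [AddCommGroup X] [Module ℝ X] {n : ℕ} {φ h w Λ : X → ℝ} {x x' : X}
    (hx : 0 < φ x) (he : φ x = φ x')
    (h1 : Tendsto (fun s : ℝ => (φ x - s ^ (n + 1) * Λ (s • x)) / s) (𝓝[>] 0)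
      (𝓝 (φ x * w x)))
    (h2 : Tendsto (fun s : ℝ => (φ x' - s ^ (n + 1) * Λ (s • x')) / s) (𝓝[>] 0)
      (𝓝 (φ x' * w x')))
    (h3 : ∀ s : ℝ, 0 < s → Real.exp (s * h x) * Λ (s • x) = Real.exp (s * h x') * Λ (s • x')) :
    h x - w x = h x' - w x' := by
  have h4 := (tendsto_exp_sub (h x) (h x')).mul_const (φ x)
  have h5 := ((tendsto_exp (h x)).mul h1).sub ((tendsto_exp (h x')).mul h2)
  have h6 : Tendsto (fun s : ℝ => (Real.exp (s * h x) - Real.exp (s * h x')) / s * φ x) (𝓝[>] 0)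
      (𝓝 (1 * (φ x * w x) - 1 * (φ x' * w x'))) := by
    refine h5.congr' ?_
    filter_upwards [self_mem_nhdsWithin] with s hs
    have hs' : s ≠ 0 := ne_of_gt hs
    have h7 := h3 s hs
    rw [← he]
    have h8 : Real.exp (s * h x) * (s ^ (n + 1) * Λ (s • x)) =
        Real.exp (s * h x') * (s ^ (n + 1) * Λ (s • x')) := by
      linear_combination s ^ (n + 1) * h7
    rw [← mul_div_assoc, ← mul_div_assoc, ← sub_div, div_mul_eq_mul_div]
    congr 1
    linear_combination -h8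
  have h9 := tendsto_nhds_unique h4 h6
  rw [← he] at h9
  have h10 : φ x * (h x - h x') = φ x * (w x - w x') := by linear_combination h9
  have h11 := mul_left_cancel₀ hx.ne' h10
  linarith

theorem rp_smul {n : ℕ} {s z : ℝ} (hs : 0 < s) (hz : 0 < z) :
    rp n (s ^ (n + 1) * z) = s⁻¹ * rp n z := by
  unfold rp
  rw [Real.mul_rpow (by positivity) hz.le, ← Real.rpow_natCast, ← Real.rpow_mul hs.le]
  have e : ((n + 1 : ℕ) : ℝ) * -(1 / ((n : ℝ) + 1)) = -1 := by
    have : (n : ℝ) + 1 ≠ 0 := by positivity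
    push_cast
    field_simp
  rw [e, Real.rpow_neg_one]

end HBWAux

theorem HBW_thm : HBW := by
  intro n X _ _ Dm φ h w Λ hs hp hφ hh hl he
  rcases Dm.eq_empty_or_nonempty with h0 | ⟨x0, hx0⟩
  · exact ⟨0, fun x hx => by rw [h0] at hx; exact absurd hx (Set.notMem_empty x)⟩
  have hp0 := hp x0 hx0
  have hr0 : 0 < rp n (φ x0) := Real.rpow_pos_of_pos hp0 _
  refine ⟨(h x0 - w x0) / rp n (φ x0), fun x hx => ?_⟩
  have hpx := hp x hx
  obtain ⟨s, hs0, hs1⟩ : ∃ s : ℝ, 0 < s ∧ s ^ (n + 1) = φ x / φ x0 := by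
    refine ⟨(φ x / φ x0) ^ (((n + 1 : ℕ) : ℝ)⁻¹), Real.rpow_pos_of_pos (div_pos hpx hp0) _, ?_⟩
    exact Real.rpow_inv_natCast_pow (div_pos hpx hp0).le (Nat.succ_ne_zero n)
  have h1 : φ (s • x) = φ x0 := by
    rw [hφ x hx s hs0, inv_pow, hs1]
    field_simp
  have hsx := hs x hx s hs0
  have h2 := HBWAux.level (hp _ hsx) h1 (hl _ hsx) (hl _ hx0) (he _ hsx _ hx0 h1)
  have h3 := HBWAux.w_smul hs0 hpx (hφ x hx s hs0) (hl x hx) (hl _ hsx)
  rw [hh x hx s hs0, h3] at h2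
  have h4 : rp n (φ x) = s⁻¹ * rp n (φ x0) := by
    rw [← HBWAux.rp_smul hs0 hp0, hs1]
    congr 1
    field_simp
  rw [h4, ← h2]
  field_simp
  ring

end Pool.Agent.PCN
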