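import Pool.Agent.PCN.Stmts

/-! # PCN: basic facts about the infimum functional (HGB) -/

open MeasureTheory Set Filter Topology
open scoped Pointwise

namespace Pool.Agent.PCN

namespace HGBAux

theorem lowb {n : ℕ} {U : Set (Fin n → ℝ)} {k g : (Fin n → ℝ) → ℝ} {D : ℝ}
    (hg' : ∀ y ∈ U, k y - D ≤ g y) {a : ℝ} {η : Fin n → ℝ} (h : (a, η) ∈ Dom U k) :
    BddBelow ((fun y => dotProduct η y + a * g y) '' U) := by
  obtain ⟨ha, ε, hε, hb⟩ := h
  refine ⟨-(a * D), ?_⟩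
  rintro _ ⟨y, hy, rfl⟩
  have h1 := hb y hy
  have h2 := hg' y hy
  have ha' : (0 : ℝ) < a := ha
  have h3 : a * (k y - D) ≤ a * g y := mul_le_mul_of_nonneg_left h2 ha'.le
  have h4 : 0 ≤ ε * ‖y‖ := mul_nonneg hε.le (norm_nonneg y)
  simp only at h1 ⊢
  nlinarith

theorem domsmul {n : ℕ} {U : Set (Fin n → ℝ)} {k : (Fin n → ℝ) → ℝ}
    {a : ℝ} {η : Fin n → ℝ} (h : (a, η) ∈ Dom U k) {s : ℝ} (hs : 0 < s) :
    (s * a, s • η) ∈ Dom U k := by
  obtain ⟨ha, ε, hε, hb⟩ := h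
  refine ⟨mul_pos hs ha, s * ε, mul_pos hs hε, ?_⟩
  intro y hy
  have h1 := hb y hy
  simp only at h1 ⊢
  rw [smul_dotProduct, smul_eq_mul]
  have h2 := mul_le_mul_of_nonneg_left h1 hs.le
  calc s * ε * ‖y‖ = s * (ε * ‖y‖) := by ring
    _ ≤ s * (dotProduct η y + a * k y) := h2
    _ = s * dotProduct η y + s * a * k y := by ring

theorem hgsmul {n : ℕ} (U : Set (Fin n → ℝ)) (g : (Fin n → ℝ) → ℝ)
    (a : ℝ) (η : Fin n → ℝ) {s : ℝ} (hs : 0 < s) :
    hg U g (s * a) (s • η) = s * hg U g a η := by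
  unfold hg
  have e : s * sInf ((fun y => dotProduct η y + a * g y) '' U) =
      sInf (s • ((fun y => dotProduct η y + a * g y) '' U)) := by
    rw [Real.sInf_smul_of_nonneg hs.le, smul_eq_mul]
  rw [e]
  congr 1
  ext z
  rw [Set.mem_smul_set]
  constructor
  · rintro ⟨y, hy, rfl⟩
    refine ⟨dotProduct η y + a * g y, ⟨y, hy, rfl⟩, ?_⟩
    simp only [smul_dotProduct, smul_eq_mul]
    ring
  · rintro ⟨_, ⟨y, hy, rfl⟩, rfl⟩
    refine ⟨y, hy, ?_⟩
    simp only [smul_dotProduct, smul_eq_mul]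
    ring

end HGBAux

theorem HGB_thm : HGB := by
  intro n U k g D _ hkg a η h
  have hB := HGBAux.lowb hkg h
  refine ⟨hB, ?_, ?_, ?_⟩
  · intro y hy
    exact csInf_le hB ⟨y, hy, rfl⟩
  · intro s hs
    exact HGBAux.hgsmul U g a η hs
  · intro s hs
    exact HGBAux.domsmul h hs

end Pool.Agent.PCN
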