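import Pool.Agent.PCN.Stmts

/-!
# Polyhedral recession cones: module INT, integrability
-/

open MeasureTheory Set Filter Topology

namespace Pool.Agent.PCN

namespace INTAux

theorem pow_le_exp (k : ℕ) (hk : 0 < k) {ε r : ℝ} (hε : 0 < ε) (hr : 0 ≤ r) :
    (1 + r) ^ k ≤ (1 + (ε / k)⁻¹) ^ k * Real.exp (ε * r) := by
  have hk' : (0 : ℝ) < k := by exact_mod_cast hk
  set δ : ℝ := ε / k with hδ
  have hδ0 : 0 < δ := div_pos hε hk'
  have h1 : 1 + r ≤ (1 + δ⁻¹) * (1 + δ * r) := by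
    have e : (1 + δ⁻¹) * (1 + δ * r) = 1 + r + (δ * r + δ⁻¹) := by
      field_simp
      ring
    rw [e]
    have : 0 ≤ δ * r + δ⁻¹ := by positivity
    linarith
  have h2 : 1 + δ * r ≤ Real.exp (δ * r) := by
    have := Real.add_one_le_exp (δ * r)
    linarith
  have h3 : Real.exp (ε * r) = Real.exp (δ * r) ^ k := by
    rw [← Real.exp_nat_mul]
    congr 1
    rw [hδ]
    field_simp
  calc (1 + r) ^ k ≤ ((1 + δ⁻¹) * (1 + δ * r)) ^ k :=
        pow_le_pow_left₀ (by linarith) h1 k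
    _ = (1 + δ⁻¹) ^ k * (1 + δ * r) ^ k := mul_pow _ _ _
    _ ≤ (1 + δ⁻¹) ^ k * Real.exp (δ * r) ^ k := by
        refine mul_le_mul_of_nonneg_left (pow_le_pow_left₀ (by positivity) h2 k) (by positivity)
    _ = (1 + δ⁻¹) ^ k * Real.exp (ε * r) := by rw [h3]

end INTAux

open INTAux

theorem INT_thm : INT := by
  intro n U c ε M hU hε hc hle
  set C : ℝ := Real.exp M * (1 + (ε / ((n + 2 : ℕ) : ℝ))⁻¹) ^ (n + 2) with hC
  have hint : Integrable (fun y : Fin n → ℝ => C * (1 + ‖y‖) ^ (-((n : ℝ) + 1))) := by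
    refine Integrable.const_mul (integrable_one_add_norm ?_) C
    rw [Module.finrank_fin_fun]
    linarith
  refine Integrable.mono' hint.integrableOn ?_ ?_
  · refine ContinuousOn.aestronglyMeasurable ?_ hU
    exact (continuousOn_const.add continuous_norm.continuousOn).mul
      (Real.continuous_exp.comp_continuousOn hc.neg)
  · rw [ae_restrict_iff' hU]
    refine Eventually.of_forall fun y hy => ?_
    have hr : 0 ≤ ‖y‖ := norm_nonneg y
    have h1 : Real.exp (-(c y)) ≤ Real.exp M * Real.exp (-(ε * ‖y‖)) := by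
      rw [← Real.exp_add]
      apply Real.exp_le_exp.2
      have := hle y hy
      linarith
    have h2 := pow_le_exp (n + 2) (by omega) hε hr
    have hpos : (0 : ℝ) < 1 + ‖y‖ := by linarith
    have h3 : (1 + ‖y‖) * Real.exp (-(ε * ‖y‖)) ≤
        (1 + (ε / ((n + 2 : ℕ) : ℝ))⁻¹) ^ (n + 2) * (1 + ‖y‖) ^ (-((n : ℝ) + 1)) := by
      have e1 : (1 + ‖y‖) ^ (-((n : ℝ) + 1)) = ((1 + ‖y‖) ^ (n + 1))⁻¹ := by
        rw [Real.rpow_neg hpos.le]
        congr 1
        rw [← Real.rpow_natCast]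
        push_cast
        rfl
      rw [e1, Real.exp_neg, ← div_eq_mul_inv, ← div_eq_mul_inv, div_le_div_iff₀ (Real.exp_pos _)
        (by positivity)]
      calc (1 + ‖y‖) * (1 + ‖y‖) ^ (n + 1) = (1 + ‖y‖) ^ (n + 2) := by ring
        _ ≤ _ := h2
    rw [Real.norm_of_nonneg (by positivity)]
    calc (1 + ‖y‖) * Real.exp (-(c y)) ≤
        (1 + ‖y‖) * (Real.exp M * Real.exp (-(ε * ‖y‖))) :=
          mul_le_mul_of_nonneg_left h1 hpos.le
      _ = Real.exp M * ((1 + ‖y‖) * Real.exp (-(ε * ‖y‖))) := by ring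
      _ ≤ Real.exp M * ((1 + (ε / ((n + 2 : ℕ) : ℝ))⁻¹) ^ (n + 2) *
          (1 + ‖y‖) ^ (-((n : ℝ) + 1))) :=
          mul_le_mul_of_nonneg_left h3 (Real.exp_pos M).le
      _ = C * (1 + ‖y‖) ^ (-((n : ℝ) + 1)) := by rw [hC]; ring

end Pool.Agent.PCN
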