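import Pool.Agent.PCN.Stmts

/-!
# KPR: a finite maximum of linear forms is continuous and sublinear
-/

open MeasureTheory Set Filter Topology

namespace Pool.Agent.PCN

namespace KPRAux

variable {n : ℕ}

theorem dot_bound (p x : Fin n → ℝ) : |dotProduct p x| ≤ (∑ i, |p i|) * ‖x‖ := by
  unfold dotProduct
  calc |∑ i, p i * x i| ≤ ∑ i, |p i * x i| := Finset.abs_sum_le_sum_abs _ _
    _ ≤ ∑ i, |p i| * ‖x‖ := by
        apply Finset.sum_le_sum
        intro i _
        rw [abs_mul]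
        exact mul_le_mul_of_nonneg_left (norm_le_pi_norm x i) (abs_nonneg _)
    _ = (∑ i, |p i|) * ‖x‖ := by rw [Finset.sum_mul]

theorem addk {P : Finset (Fin n → ℝ)} {k : (Fin n → ℝ) → ℝ} (h : IsMaxOf P k)
    (x y : Fin n → ℝ) : k (x + y) ≤ k x + k y := by
  obtain ⟨p, hp, hk⟩ := (h (x + y)).2
  rw [hk, dotProduct_add]
  exact add_le_add ((h x).1 p hp) ((h y).1 p hp)

theorem smulk {P : Finset (Fin n → ℝ)} {k : (Fin n → ℝ) → ℝ} (h : IsMaxOf P k)
    (x : Fin n → ℝ) (s : ℝ) (hs : 0 ≤ s) : k (s • x) = s * k x := by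
  apply le_antisymm
  · obtain ⟨p, hp, hk⟩ := (h (s • x)).2
    rw [hk, dotProduct_smul, smul_eq_mul]
    exact mul_le_mul_of_nonneg_left ((h x).1 p hp) hs
  · obtain ⟨q, hq, hk⟩ := (h x).2
    rw [hk]
    have := (h (s • x)).1 q hq
    rwa [dotProduct_smul, smul_eq_mul] at this

theorem bddk {P : Finset (Fin n → ℝ)} {k : (Fin n → ℝ) → ℝ} (h : IsMaxOf P k) :
    ∃ B : ℝ, 0 < B ∧ ∀ x, |k x| ≤ B * ‖x‖ := by
  refine ⟨1 + ∑ p ∈ P, ∑ i, |p i|, ?_, ?_⟩
  · have : 0 ≤ ∑ p ∈ P, ∑ i, |p i| :=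
      Finset.sum_nonneg fun p _ => Finset.sum_nonneg fun i _ => abs_nonneg _
    linarith
  · intro x
    obtain ⟨p, hp, hk⟩ := (h x).2
    rw [hk]
    refine (dot_bound p x).trans (mul_le_mul_of_nonneg_right ?_ (norm_nonneg x))
    have h1 : ∑ i, |p i| ≤ ∑ p ∈ P, ∑ i, |p i| :=
      Finset.single_le_sum (f := fun p : Fin n → ℝ => ∑ i, |p i|)
        (fun p _ => Finset.sum_nonneg fun i _ => abs_nonneg _) hp
    linarith

end KPRAux

open KPRAux in
theorem KPR_thm : KPR := by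
  intro n P k h
  obtain ⟨B, hB, hb⟩ := bddk h
  refine ⟨?_, addk h, smulk h, B, hB, hb⟩
  have hlip : ∀ x y, |k x - k y| ≤ B * ‖x - y‖ := by
    intro x y
    rw [abs_le]
    constructor
    · have h1 := addk h x (y - x)
      have h2 := (abs_le.mp (hb (y - x))).2
      rw [add_sub_cancel] at h1
      rw [norm_sub_rev] at h2
      linarith
    · have h1 := addk h y (x - y)
      have h2 := (abs_le.mp (hb (x - y))).2
      rw [add_sub_cancel] at h1
      linarith
  have : LipschitzWith (Real.toNNReal B) k := by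
    apply LipschitzWith.of_dist_le_mul
    intro x y
    rw [Real.dist_eq, dist_eq_norm, Real.coe_toNNReal _ hB.le]
    exact hlip x y
  exact this.continuous

end Pool.Agent.PCN
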