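import Pool.Agent.PCN.RayAssembly

/-!
# LIJ: injectivity of the Laplace transform on an open cone
-/

open MeasureTheory Set Filter Topology ProbabilityTheory

namespace Pool.Agent.PCN

namespace LIJAux

variable {n : ℕ}

/-- Coordinates of a functional. -/
noncomputable def co (L : StrongDual ℝ (Fin n → ℝ)) : Fin n → ℝ := fun i => L (Pi.single i 1)

lemma co_apply (L : StrongDual ℝ (Fin n → ℝ)) (y : Fin n → ℝ) : L y = dotProduct (co L) y := by
  classical
  have h : y = ∑ i, y i • (Pi.single i (1 : ℝ) : Fin n → ℝ) := by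
    ext j
    simp [Finset.sum_apply, Pi.single_apply]
  conv_lhs => rw [h]
  rw [map_sum]
  unfold dotProduct co
  refine Finset.sum_congr rfl (fun i _ => ?_)
  rw [map_smul, smul_eq_mul, mul_comm]

/-- The weighted measure. -/
noncomputable def wm (U : Set (Fin n → ℝ)) (w : (Fin n → ℝ) → ℝ) : Measure (Fin n → ℝ) :=
  (volume.restrict U).withDensity (fun y => ENNReal.ofReal (w y))

lemma integrable_wm {U : Set (Fin n → ℝ)} {w : (Fin n → ℝ) → ℝ}
    (hw : AEMeasurable w (volume.restrict U)) (hw0 : ∀ y, 0 ≤ w y) {g : (Fin n → ℝ) → ℝ} :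
    Integrable g (wm U w) ↔ Integrable (fun y => w y * g y) (volume.restrict U) := by
  unfold wm
  rw [integrable_withDensity_iff_integrable_smul₀' hw.ennreal_ofReal
    (Eventually.of_forall (fun _ => ENNReal.ofReal_lt_top))]
  have : ∀ y, (ENNReal.ofReal (w y)).toReal • g y = w y * g y := fun y => by
    rw [ENNReal.toReal_ofReal (hw0 y), smul_eq_mul]
  simp only [this]

lemma integral_wm {U : Set (Fin n → ℝ)} {w : (Fin n → ℝ) → ℝ}
    (hw : AEMeasurable w (volume.restrict U)) (hw0 : ∀ y, 0 ≤ w y) (g : (Fin n → ℝ) → ℝ) :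
    ∫ y, g y ∂(wm U w) = ∫ y in U, w y * g y := by
  unfold wm
  rw [integral_withDensity_eq_integral_toReal_smul₀ hw.ennreal_ofReal
    (Eventually.of_forall (fun _ => ENNReal.ofReal_lt_top))]
  have : ∀ y, (ENNReal.ofReal (w y)).toReal • g y = w y * g y := fun y => by
    rw [ENNReal.toReal_ofReal (hw0 y), smul_eq_mul]
  simp only [this]

lemma finite_wm {U : Set (Fin n → ℝ)} {w : (Fin n → ℝ) → ℝ}
    (hwi : Integrable w (volume.restrict U)) :
    IsFiniteMeasure (wm U w) := by
  unfold wm
  exact isFiniteMeasure_withDensity_ofReal hwi.2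

/-- Two weights with the same exponential moments near `0` give the same complex moments. -/
lemma complexMGF_eq {μ ν : Measure (Fin n → ℝ)} {X : (Fin n → ℝ) → ℝ} {δ : ℝ} (hδ : 0 < δ)
    (h1 : ∀ t : ℝ, |t| < δ → Integrable (fun y => Real.exp (t * X y)) μ)
    (h2 : ∀ t : ℝ, |t| < δ → Integrable (fun y => Real.exp (t * X y)) ν)
    (h3 : ∀ t : ℝ, |t| < δ → mgf X μ t = mgf X ν t) :
    complexMGF X μ Complex.I = complexMGF X ν Complex.I := by
  set S : Set ℂ := {z | z.re ∈ Ioo (-δ) δ} with hS
  have hsub : ∀ {ρ : Measure (Fin n → ℝ)},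
      (∀ t : ℝ, |t| < δ → Integrable (fun y => Real.exp (t * X y)) ρ) →
      S ⊆ {z | z.re ∈ interior (integrableExpSet X ρ)} := by
    intro ρ h z hz
    change z.re ∈ interior (integrableExpSet X ρ)
    rw [mem_interior]
    exact ⟨Ioo (-δ) δ, fun t ht => h t (abs_lt.mpr ht), isOpen_Ioo, hz⟩
  have hX : AnalyticOnNhd ℂ (complexMGF X μ) S := analyticOnNhd_complexMGF.mono (hsub h1)
  have hY : AnalyticOnNhd ℂ (complexMGF X ν) S := analyticOnNhd_complexMGF.mono (hsub h2)
  have hpre : IsPreconnected S :=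
    ((convex_Ioo (-δ) δ).linear_preimage Complex.reLm).isPreconnected
  have h0 : (0 : ℂ) ∈ S := by
    change (0 : ℂ).re ∈ Ioo (-δ) δ
    simp [hδ]
  have hI : Complex.I ∈ S := by
    change Complex.I.re ∈ Ioo (-δ) δ
    simp [hδ]
  have hfreq : ∃ᶠ z in 𝓝[≠] (0 : ℂ), complexMGF X μ z = complexMGF X ν z := by
    have hr : ∃ᶠ t : ℝ in 𝓝[≠] (0 : ℝ), complexMGF X μ (t : ℂ) = complexMGF X ν (t : ℂ) := by
      apply Eventually.frequently
      have hnhds : ∀ᶠ t : ℝ in 𝓝[≠] (0 : ℝ), |t| < δ := by
        apply eventually_nhdsWithin_of_eventually_nhds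
        have := Metric.ball_mem_nhds (0 : ℝ) hδ
        filter_upwards [this] with t ht
        simpa [Real.dist_eq] using ht
      filter_upwards [hnhds] with t ht
      rw [complexMGF_ofReal, complexMGF_ofReal, h3 t ht]
    rw [frequently_iff_seq_forall] at hr ⊢
    obtain ⟨xs, hx_tendsto, hx_eq⟩ := hr
    refine ⟨fun n => xs n, ?_, fun n => hx_eq n⟩
    rw [tendsto_nhdsWithin_iff] at hx_tendsto ⊢
    constructor
    · have := (Complex.continuous_ofReal.tendsto 0).comp hx_tendsto.1
      rw [Complex.ofReal_zero] at this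
      exact this
    · simpa using hx_tendsto.2
  exact hX.eqOn_of_preconnected_of_frequently_eq hY hpre h0 hfreq hI

lemma abs_dot_le (ℓ y : Fin n → ℝ) : |dotProduct ℓ y| ≤ (∑ i, |ℓ i|) * ‖y‖ := by
  unfold dotProduct
  refine (Finset.abs_sum_le_sum_abs _ _).trans ?_
  rw [Finset.sum_mul]
  refine Finset.sum_le_sum (fun i _ => ?_)
  rw [abs_mul]
  exact mul_le_mul_of_nonneg_left (norm_le_pi_norm y i) (abs_nonneg _)

end LIJAux

open LIJAux in
theorem LIJ_thm : LIJ := by
  intro hINT n U f A B hU hne hf hfb hint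
  obtain ⟨η0, hη0⟩ := hne
  have hmeas : MeasurableSet U := hU.op.measurableSet
  obtain ⟨ε, hε, hη0'⟩ := id hη0
  have hcont : ∀ η : Fin n → ℝ, Continuous (fun y : Fin n → ℝ => dotProduct η y) := by
    intro η; unfold dotProduct; fun_prop
  set fp : (Fin n → ℝ) → ℝ := fun y => max (f y) 0 with hfp
  set fm : (Fin n → ℝ) → ℝ := fun y => max (-f y) 0 with hfm
  have hfpm : AEStronglyMeasurable fp (volume.restrict U) :=
    (hf.aemeasurable.max aemeasurable_const).aestronglyMeasurable
  have hfmm : AEStronglyMeasurable fm (volume.restrict U) :=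
    (hf.aemeasurable.neg.max aemeasurable_const).aestronglyMeasurable
  have hA : ∀ y ∈ U, |f y| ≤ |A| + |B| * ‖y‖ := fun y hy => by
    have h1 := hfb y hy
    have h2 := le_abs_self A
    have h3 := mul_le_mul_of_nonneg_right (le_abs_self B) (norm_nonneg y)
    linarith
  have hfpb : ∀ y ∈ U, |fp y| ≤ |A| + |B| * ‖y‖ := by
    intro y hy
    refine le_trans ?_ (hA y hy)
    simp only [hfp]
    rw [abs_of_nonneg (le_max_right _ _)]
    exact max_le (le_abs_self _) (abs_nonneg _)
  have hfmb : ∀ y ∈ U, |fm y| ≤ |A| + |B| * ‖y‖ := by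
    intro y hy
    refine le_trans ?_ (hA y hy)
    simp only [hfm]
    rw [abs_of_nonneg (le_max_right _ _)]
    exact max_le (neg_le_abs _) (abs_nonneg _)
  have hfsplit : ∀ y, f y = fp y - fm y := by
    intro y
    simp only [hfp, hfm]
    rcases le_total 0 (f y) with h | h
    · rw [max_eq_left h, max_eq_right (by linarith)]; ring
    · rw [max_eq_right h, max_eq_left (by linarith)]; ring
  set wp : (Fin n → ℝ) → ℝ := fun y => Real.exp (-(dotProduct η0 y)) * fp y with hwp
  set wn : (Fin n → ℝ) → ℝ := fun y => Real.exp (-(dotProduct η0 y)) * fm y with hwn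
  have hexpm : ∀ η : Fin n → ℝ, Continuous (fun y : Fin n → ℝ => Real.exp (-(dotProduct η y))) :=
    fun η => Real.continuous_exp.comp (hcont η).neg
  have hwp0 : ∀ y, 0 ≤ wp y := fun y => mul_nonneg (Real.exp_pos _).le (le_max_right _ _)
  have hwn0 : ∀ y, 0 ≤ wn y := fun y => mul_nonneg (Real.exp_pos _).le (le_max_right _ _)
  have hwpm : AEMeasurable wp (volume.restrict U) :=
    ((hexpm η0).aestronglyMeasurable.mul hfpm).aemeasurable
  have hwnm : AEMeasurable wn (volume.restrict U) :=
    ((hexpm η0).aestronglyMeasurable.mul hfmm).aemeasurable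
  have hwpi : Integrable wp (volume.restrict U) := integrableOn_exp_mul hINT hU hη0 hfpm hfpb
  have hwni : Integrable wn (volume.restrict U) := integrableOn_exp_mul hINT hU hη0 hfmm hfmb
  have := finite_wm hwpi
  have := finite_wm hwni
  have hmeq : wm U wp = wm U wn := by
    apply Measure.ext_of_charFunDual
    ext L
    rw [charFunDual_apply, charFunDual_apply]
    have key : complexMGF L (wm U wp) Complex.I = complexMGF L (wm U wn) Complex.I := by
      set ℓ := co L with hℓ
      set c : ℝ := ∑ i, |ℓ i| with hc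
      have hc0 : 0 ≤ c := Finset.sum_nonneg (fun i _ => abs_nonneg _)
      have hUd : ∀ t : ℝ, |t| < ε / (2 * (c + 1)) → η0 - t • ℓ ∈ Ud U := by
        intro t ht
        refine ⟨ε / 2, by positivity, fun y hy => ?_⟩
        rw [sub_dotProduct, smul_dotProduct, smul_eq_mul]
        have h1 := hη0' y hy
        have h2 : |t * dotProduct ℓ y| ≤ ε / 2 * ‖y‖ := by
          rw [abs_mul]
          have h3 := abs_dot_le ℓ y
          rw [← hc] at h3
          have h4 : |t| * (c * ‖y‖) ≤ ε / 2 * ‖y‖ := by
            have h5 : |t| * c ≤ ε / 2 := by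
              rw [lt_div_iff₀ (by positivity)] at ht
              nlinarith [abs_nonneg t]
            nlinarith [norm_nonneg y]
          exact (mul_le_mul_of_nonneg_left h3 (abs_nonneg t)).trans h4
        have h3 := (abs_le.mp h2).2
        linarith
      have hrw : ∀ (t : ℝ) (φ : (Fin n → ℝ) → ℝ) (y : Fin n → ℝ),
          Real.exp (-(dotProduct η0 y)) * φ y * Real.exp (t * L y) =
            Real.exp (-(dotProduct (η0 - t • ℓ) y)) * φ y := by
        intro t φ y
        rw [co_apply L y, sub_dotProduct, smul_dotProduct, smul_eq_mul]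
        rw [mul_right_comm, ← Real.exp_add]
        congr 2
        ring
      apply complexMGF_eq (δ := ε / (2 * (c + 1))) (by positivity)
      · intro t ht
        rw [integrable_wm hwpm hwp0]
        simp only [hwp, hrw]
        exact integrableOn_exp_mul hINT hU (hUd t ht) hfpm hfpb
      · intro t ht
        rw [integrable_wm hwnm hwn0]
        simp only [hwn, hrw]
        exact integrableOn_exp_mul hINT hU (hUd t ht) hfmm hfmb
      · intro t ht
        unfold mgf
        rw [integral_wm hwpm hwp0, integral_wm hwnm hwn0]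
        simp only [hwp, hwn, hrw]
        have h1 := hint _ (hUd t ht)
        have i1 := integrableOn_exp_mul hINT hU (hUd t ht) hfpm hfpb
        have i2 := integrableOn_exp_mul hINT hU (hUd t ht) hfmm hfmb
        have e : ∀ y, Real.exp (-(dotProduct (η0 - t • ℓ) y)) * f y =
            Real.exp (-(dotProduct (η0 - t • ℓ) y)) * fp y -
              Real.exp (-(dotProduct (η0 - t • ℓ) y)) * fm y := fun y => by
          rw [hfsplit y]; ring
        simp only [e] at h1
        rw [integral_sub i1 i2] at h1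
        linarith
    unfold complexMGF at key
    have e : ∀ v : Fin n → ℝ, Complex.exp (Complex.I * (L v : ℂ)) =
        Complex.exp ((L v : ℂ) * Complex.I) := fun v => by rw [mul_comm]
    simp only [e] at key
    exact key
  have hae : (fun y => ENNReal.ofReal (wp y)) =ᵐ[volume.restrict U]
      fun y => ENNReal.ofReal (wn y) := by
    refine (withDensity_eq_iff hwpm.ennreal_ofReal hwnm.ennreal_ofReal ?_).mp hmeq
    have := hwpi.2
    rw [hasFiniteIntegral_iff_ofReal (Eventually.of_forall hwp0)] at this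
    exact this.ne
  filter_upwards [hae] with y hy
  have h1 : wp y = wn y := by
    have := congrArg ENNReal.toReal hy
    rwa [ENNReal.toReal_ofReal (hwp0 y), ENNReal.toReal_ofReal (hwn0 y)] at this
  have h2 : fp y = fm y := mul_left_cancel₀ (Real.exp_ne_zero _) h1
  rw [hfsplit y, h2, sub_self]

end Pool.Agent.PCN
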