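import Pool.Agent.PCN.Stmts

/-!
# Polyhedral recession cones: positivity of the Laplace transforms
-/

open MeasureTheory Set Filter Topology

namespace Pool.Agent.PCN

namespace POSAux

theorem pos_aux (hI : INT) {n : ℕ} {U : Set (Fin n → ℝ)} (hU : OCone U) {c : (Fin n → ℝ) → ℝ}
    {ε : ℝ} (hε : 0 < ε) (hc : Continuous c) (h : ∀ y ∈ U, ε * ‖y‖ ≤ c y) :
    0 < ∫ y in U, Real.exp (-(c y)) := by
  have hm : MeasurableSet U := hU.op.measurableSet
  have h1 : IntegrableOn (fun y => (1 + ‖y‖) * Real.exp (-(c y))) U :=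
    hI n U c ε 0 hm hε hc.continuousOn (fun y hy => by rw [add_zero]; exact h y hy)
  have h2 : IntegrableOn (fun y => Real.exp (-(c y))) U := by
    refine Integrable.mono h1 ?_ ?_
    · exact (Real.continuous_exp.comp hc.neg).aestronglyMeasurable
    · refine ae_of_all _ fun y => ?_
      have h3 : 0 < Real.exp (-(c y)) := Real.exp_pos _
      have h4 : 0 ≤ ‖y‖ := norm_nonneg y
      rw [Real.norm_eq_abs, Real.norm_eq_abs, abs_of_pos h3, abs_of_nonneg (by positivity)]
      nlinarith
  rw [setIntegral_pos_iff_support_of_nonneg_ae (ae_of_all _ fun y => (Real.exp_pos _).le) h2]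
  have h5 : Function.support (fun y => Real.exp (-(c y))) ∩ U = U := by
    rw [Set.inter_eq_right]
    intro y _
    exact (Real.exp_pos _).ne'
  rw [h5]
  exact hU.op.measure_pos volume hU.ne

theorem cont_dot {n : ℕ} (η : Fin n → ℝ) : Continuous fun y : Fin n → ℝ => dotProduct η y := by
  unfold dotProduct
  exact continuous_finsetSum _ fun i _ => continuous_const.mul (continuous_apply i)

end POSAux

open POSAux in
theorem POS_thm : POS := by
  intro hI n U hU
  refine ⟨fun k hk a η hd => ?_, fun η hη => ?_⟩
  · obtain ⟨ha, ε, hε, h⟩ := hd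
    have h1 := pos_aux hI hU (c := fun y => dotProduct η y + a * k y) hε
      ((cont_dot η).add (continuous_const.mul hk)) h
    unfold gL
    have h2 : (fun y => Real.exp (-(dotProduct η y) - a * k y)) =
        fun y => Real.exp (-(dotProduct η y + a * k y)) := by
      funext y
      congr 1
      ring
    rw [h2]
    exact mul_pos (inv_pos.2 ha) h1
  · obtain ⟨ε, hε, h⟩ := hη
    exact pos_aux hI hU (c := fun y => dotProduct η y) hε (cont_dot η) h

end Pool.Agent.PCN
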