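import Pool.Agent.PCN.Stmts

/-!
# Assembly of part I
-/

open MeasureTheory Set Filter Topology

namespace Pool.Agent.PCN

/-- Functions of linear growth are integrable against the exponential weight. -/
lemma integrableOn_exp_mul (hINT : INT) {n : ℕ} {U : Set (Fin n → ℝ)} (hU : OCone U)
    {η : Fin n → ℝ} (hη : η ∈ Ud U) {f : (Fin n → ℝ) → ℝ} {A B : ℝ}
    (hf : AEStronglyMeasurable f (volume.restrict U)) (hb : ∀ y ∈ U, |f y| ≤ A + B * ‖y‖) :
    IntegrableOn (fun y => Real.exp (-(dotProduct η y)) * f y) U := by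
  obtain ⟨ε, hε, hη⟩ := hη
  have hmeas : MeasurableSet U := hU.op.measurableSet
  have hcont : Continuous (fun y : Fin n → ℝ => dotProduct η y) := by
    unfold dotProduct; fun_prop
  have h1 := (hINT n U (fun y => dotProduct η y) ε 0 hmeas hε hcont.continuousOn
    (fun y hy => by simpa using hη y hy)).const_mul (|A| + |B|)
  refine Integrable.mono' h1 ?_ ?_
  · exact ((Real.continuous_exp.comp hcont.neg).aestronglyMeasurable).mul hf
  · rw [ae_restrict_iff' hmeas]
    refine Eventually.of_forall (fun y hy => ?_)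
    rw [norm_mul, Real.norm_eq_abs, Real.norm_eq_abs, abs_of_pos (Real.exp_pos _)]
    have h2 := hb y hy
    have h3 : A + B * ‖y‖ ≤ (|A| + |B|) * (1 + ‖y‖) := by
      have := le_abs_self A
      have := le_abs_self B
      have := norm_nonneg y
      have := abs_nonneg A
      have := abs_nonneg B
      nlinarith
    calc Real.exp (-(dotProduct η y)) * |f y|
        ≤ Real.exp (-(dotProduct η y)) * ((|A| + |B|) * (1 + ‖y‖)) := by
          apply mul_le_mul_of_nonneg_left (h2.trans h3) (Real.exp_pos _).le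
      _ = (|A| + |B|) * ((1 + ‖y‖) * Real.exp (-(dotProduct η y))) := by ring

theorem rayt_of (hKPR : KPR) (hINT : INT) (hSCL : SCL) (hPOS : POS) (hSEC : SEC) (hFOL : FOL)
    (hHBW : HBW) (hSUBG : SUBG) (hHGB : HGB) (hSUP : SUP) (hBPO : BPO) (hG1A : G1A) (hG1B : G1B)
    (hG1C : G1C) (hALA : ALA) (hBLM : BLM) (hBUP : BUP) (hFOC : FOC) (hWLI : WLI) (hWBD : WBD)
    (hLIJ : LIJ) (hCST : CST) (hGAI : GAI) : RAYT := by
  intro n U P k g D hR
  have hS := hKPR n P k hR.max
  have hk0 : ∀ y, 0 ≤ k y := fun y => by simpa using (hR.max y).1 0 hR.zeroP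
  rcases Nat.eq_zero_or_pos n with hn0 | hn
  · subst hn0
    intro y _
    have : y = (0 : ℝ) • y := Subsingleton.elim _ _
    rw [this, hS.smul y 0 le_rfl, zero_mul]
  have hop := hR.cone.op
  have hgc : ContinuousOn g U := hR.conv.continuousOn hop
  have hpos := hPOS hINT n U hR.cone
  have hgpos : ∀ a η, (a, η) ∈ Dom U k → 0 < gL U k a η := hpos.1 k hS.cont
  have hLpos := hpos.2
  obtain ⟨d, T, hdm, hdT, hdlim⟩ := hSEC n U P k g D hR.cone hR.max hR.recc hR.lower
  obtain ⟨M, hM⟩ : ∃ M : ℝ, ∀ y, |d y| ≤ M := by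
    refine ⟨∑ t ∈ T, |t|, fun y => ?_⟩
    exact Finset.single_le_sum (f := fun t : ℝ => |t|) (fun t _ => abs_nonneg t) (hdT y)
  have hfol := hFOL hINT hSCL n U k g d D M hR.cone hS hgc hR.recc hR.lower hdm hM hdlim
  have hwbd := hWBD hINT n U k d M hR.cone hS hdm hM
  have hhg := hHGB n U k g D hR.cone hR.lower
  have hscl := hSCL n U hR.cone
  obtain ⟨b, hb⟩ := hHBW n (ℝ × (Fin n → ℝ)) (Dom U k) (fun x => gL U k x.1 x.2)
    (fun x => hg U g x.1 x.2) (fun x => ww U k d x.1 x.2) (fun x => gL U g x.1 x.2)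
    (fun x hx s hs => (hhg x.1 x.2 hx).2.2.2 s hs)
    (fun x hx => hgpos x.1 x.2 hx)
    (fun x hx s hs => (hscl s hs).2.2.1 k hS.smul x.1 x.2)
    (fun x hx s hs => (hhg x.1 x.2 hx).2.2.1 s hs)
    (fun x hx => by
      have := hfol x.1 x.2 hx
      rw [← (hwbd x.1 x.2 hx (hgpos x.1 x.2 hx)).2.1] at this
      exact this)
    (fun x hx x' hx' he s hs => hR.str x.1 x'.1 x.2 x'.2 hx hx' he s hs)
  have hb' : ∀ a η, (a, η) ∈ Dom U k → hg U g a η = b * rp n (gL U k a η) + ww U k d a η :=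
    fun a η h => hb (a, η) h
  have hw1 : ∀ η, ((1 : ℝ), η) ∈ Dom U k → |ww U k d 1 η| ≤ M := fun η h => by
    have := (hwbd 1 η h (hgpos 1 η h)).1
    simpa using this
  have hup : ∀ η, ((1 : ℝ), η) ∈ Dom U k → hg U g 1 η ≤ b * rp n (gL U k 1 η) + M := by
    intro η h
    rw [hb' 1 η h]
    have := (abs_le.mp (hw1 η h)).2
    linarith
  have hlow : ∀ η, ((1 : ℝ), η) ∈ Dom U k → b * rp n (gL U k 1 η) - M ≤ hg U g 1 η := by
    intro η h
    rw [hb' 1 η h]
    have := (abs_le.mp (hw1 η h)).1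
    linarith
  have hle : ∀ η, ((1 : ℝ), η) ∈ Dom U k → ∀ y ∈ U, hg U g 1 η ≤ dotProduct η y + g y := by
    intro η h y hy
    have := (hhg 1 η h).2.1 y hy
    simpa using this
  have hsup := hSUP hSUBG n U k g D hR.cone hR.dual hS hR.conv hR.recc hR.lower
  have hbpos : 0 < b := hBPO n U k g b M hR.cone (fun η h => hgpos 1 η h) hle hup hsup hR.blow
  have hA := hG1A hINT n U P k g b M hR.cone hR.dual hR.max hS hbpos.le
    (fun η h => hgpos 1 η h) hlow hle
  have hbdd : ∀ y ∈ U, BddAbove (g1set U b y) := fun y hy => (hA y hy).1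
  have hgl : ∀ y ∈ U, g1 U b y + k y - M ≤ g y := fun y hy => (hA y hy).2
  obtain ⟨ℓ, hℓ⟩ := hG1B hINT n U k g b M hR.cone hR.dual hS hbpos.le hLpos hbdd hup hsup
  obtain ⟨hhom, hcont, hg1nn⟩ := hG1C hSCL n U b hR.cone hR.dual hbpos.le hLpos hbdd
  have hgam : ∀ (a a' : ℝ) (η η' : Fin n → ℝ), (a, η) ∈ Dom U k → (a', η') ∈ Dom U k →
      gL U k a η = gL U k a' η' →
      Real.exp (ww U k d a η) * gL U g a η = Real.exp (ww U k d a' η') * gL U g a' η' := by
    intro a a' η η' h h' he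
    have h1 := hR.str a a' η η' h h' he 1 one_pos
    simp only [one_mul, one_smul] at h1
    rw [hb' a η h, hb' a' η' h', he, Real.exp_add, Real.exp_add, mul_assoc, mul_assoc] at h1
    exact mul_left_cancel₀ (Real.exp_ne_zero _) h1
  have hbup := hBUP hINT hSCL hALA hBLM n U k g (g1 U b) (ww U k d) ℓ M hn hR.cone hS
    (fun y _ => hk0 y) hgc hcont hg1nn hhom
    (fun y hy => by have := hgl y hy; have := hk0 y; linarith) hℓ hLpos
    (fun a η h => (hwbd a η h (hgpos a η h)).1) hgam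
  obtain ⟨B, hB, hBk⟩ := hS.bdd
  have hDom : ∀ (a : ℝ) (η : Fin n → ℝ), 0 < a → η ∈ Ud U → (a, η) ∈ Dom U k := by
    rintro a η ha ⟨ε, hε, h⟩
    refine ⟨ha, ε, hε, fun y hy => ?_⟩
    have h1 := h y hy
    have h2 := mul_nonneg ha.le (hk0 y)
    change ε * ‖y‖ ≤ dotProduct η y + a * k y
    linarith
  have hℓb : ∀ y : Fin n → ℝ, |dotProduct ℓ y| ≤ (∑ i, |ℓ i|) * ‖y‖ := by
    intro y
    unfold dotProduct
    refine (Finset.abs_sum_le_sum_abs _ _).trans ?_
    rw [Finset.sum_mul]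
    refine Finset.sum_le_sum (fun i _ => ?_)
    rw [abs_mul]
    exact mul_le_mul_of_nonneg_left (norm_le_pi_norm y i) (abs_nonneg _)
  have hM0 : 0 ≤ M := (abs_nonneg _).trans (hM 0)
  set B' : ℝ := B + ∑ i, |ℓ i| with hB'
  have hsum0 : 0 ≤ ∑ i, |ℓ i| := Finset.sum_nonneg (fun i _ => abs_nonneg _)
  have hgG : ∀ y ∈ U, |g y - g1 U b y| ≤ M + B' * ‖y‖ := by
    intro y hy
    have h1 := hgl y hy
    have h2 := hℓ y hy
    have h3 := (abs_le.mp (hℓb y)).2
    have h4 := hk0 y
    have h5 := norm_nonneg y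
    have h6 : (∑ i, |ℓ i|) * ‖y‖ ≤ B' * ‖y‖ := by
      apply mul_le_mul_of_nonneg_right _ h5
      rw [hB']; linarith
    have h7 : 0 ≤ B' * ‖y‖ := by rw [hB']; positivity
    rw [abs_le]
    constructor <;> linarith
  have hkB : ∀ y ∈ U, 0 ≤ k y ∧ k y ≤ B' * ‖y‖ := by
    intro y _
    refine ⟨hk0 y, ?_⟩
    have h1 := (abs_le.mp (hBk y)).2
    have h5 := norm_nonneg y
    have h6 : B * ‖y‖ ≤ B' * ‖y‖ := by
      apply mul_le_mul_of_nonneg_right _ h5
      rw [hB']; linarith
    linarith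
  have hκc : ContinuousOn (fun y => g y - g1 U b y - k y) U :=
    (hgc.sub hcont).sub hS.cont.continuousOn
  have hκm : AEStronglyMeasurable (fun y => g y - g1 U b y - k y) (volume.restrict U) :=
    hκc.aestronglyMeasurable hop.measurableSet
  have hκb : ∀ y ∈ U, |g y - g1 U b y - k y| ≤ M + (B' + B') * ‖y‖ := by
    intro y hy
    have h1 := abs_le.mp (hgG y hy)
    have h2 := hkB y hy
    rw [abs_le]
    constructor <;> nlinarith [h1.1, h1.2, h2.1, h2.2]
  have key : ∀ η ∈ Ud U, ∫ y in U, Real.exp (-(dotProduct η y)) *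
      (g y - g1 U b y - k y - d y) = 0 := by
    intro η hη
    have hw := hWLI hINT n U k d M η hR.cone hS (fun y _ => hk0 y) hdm hM hη (hLpos η hη)
    have h1 := hFOC hINT n U k g (g1 U b) (fun a => ww U k d a η) _ M B' |D| η hR.cone hη
      (hLpos η hη) hS.cont.continuousOn hgc hcont hkB hg1nn hgG
      (fun y hy => by
        have h1 := hR.lower y hy
        have h2 := hk0 y
        have h3 := le_abs_self D
        linarith) (abs_nonneg D) hw
      (fun a a' ha ha' he => hbup a' a η η (hDom a η ha hη) ha' hη he)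
    rw [div_mul_cancel₀ _ (hLpos η hη).ne'] at h1
    have i1 := integrableOn_exp_mul hINT hR.cone hη hκm hκb
    have i2 := integrableOn_exp_mul hINT hR.cone hη (A := M) (B := 0)
      hdm.aestronglyMeasurable (fun y _ => by simpa using hM y)
    have e : ∀ y, Real.exp (-(dotProduct η y)) * (g y - g1 U b y - k y - d y) =
        Real.exp (-(dotProduct η y)) * (g y - g1 U b y - k y) -
          Real.exp (-(dotProduct η y)) * d y := fun y => by ring
    simp only [e]
    rw [integral_sub i1 i2, h1, sub_self]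
  have hae := hLIJ hINT n U (fun y => g y - g1 U b y - k y - d y) (M + M) (B' + B') hR.cone
    hR.dual (hκm.sub hdm.aestronglyMeasurable)
    (fun y hy => by
      have h1 := hκb y hy
      have h2 := hM y
      have h3 := abs_sub (g y - g1 U b y - k y) (d y)
      calc |g y - g1 U b y - k y - d y| ≤ |g y - g1 U b y - k y| + |d y| := h3
        _ ≤ M + M + (B' + B') * ‖y‖ := by linarith) key
  obtain ⟨c, hc⟩ := hCST n U (fun y => g y - g1 U b y - k y) d T hR.cone hκc hdT
    (hae.mono (fun y hy => by linarith))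
  have hdc : ∀ᵐ y ∂(volume.restrict U), d y = c := by
    have h1 : ∀ᵐ y ∂(volume.restrict U), y ∈ U := ae_restrict_mem hop.measurableSet
    filter_upwards [hae, h1] with y h2 h3
    have := hc y h3
    linarith
  obtain ⟨y0, hy0, hky0⟩ := hR.sector
  refine hGAI hINT hSCL n U k b y0 hR.cone hR.dual hS (fun y _ => hk0 y) hbpos hLpos
    (fun η hη => hgpos 1 η (hDom 1 η one_pos hη)) hbdd hy0 (fun η hη => ?_)
  have hd := hDom 1 η one_pos hη
  have h1 := hle η hd y0 hy0
  rw [hb' 1 η hd, (hwbd 1 η hd (hgpos 1 η hd)).2.2 c hdc] at h1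
  have h2 := hc y0 hy0
  simp only [hky0] at h2
  linarith

end Pool.Agent.PCN
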