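import Pool.Agent.PCN.Stmts

/-!
# Polyhedral recession cones, part I, module SCL: scaling
-/



open MeasureTheory Set Filter Topology

namespace Pool.Agent.PCN

namespace SCLAux

open scoped Pointwise

theorem smul_cone {n : ℕ} {U : Set (Fin n → ℝ)} (hU : OCone U) {s : ℝ} (hs : 0 < s) :
    s • U = U := by
  ext x
  rw [Set.mem_smul_set]
  constructor
  · rintro ⟨y, hy, rfl⟩
    exact hU.smul y hy s hs
  · intro hx
    exact ⟨s⁻¹ • x, hU.smul x hx _ (inv_pos.2 hs), by rw [smul_inv_smul₀ hs.ne']⟩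

theorem base {n : ℕ} {U : Set (Fin n → ℝ)} (hU : OCone U) {s : ℝ} (hs : 0 < s)
    (F : (Fin n → ℝ) → ℝ) : ∫ y in U, F (s • y) = (s⁻¹) ^ n * ∫ y in U, F y := by
  rw [Measure.setIntegral_comp_smul_of_pos volume F U hs, smul_cone hU hs,
    Module.finrank_fin_fun, smul_eq_mul, inv_pow]

end SCLAux

open SCLAux in
/-- **SCL**. -/
theorem SCL_thm : SCL := by
  intro n U hU s hs
  have hs0 : s ≠ 0 := hs.ne'
  have h4 : ∀ (g : (Fin n → ℝ) → ℝ) (a : ℝ) (η : Fin n → ℝ), gL U g (s * a) (s • η) =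
      (s⁻¹) ^ (n + 1) *
        (a⁻¹ * ∫ y in U, Real.exp (-(dotProduct η y) - s * a * g (s⁻¹ • y))) := by
    intro g a η
    have h := base hU hs (fun y => Real.exp (-(dotProduct η y) - s * a * g (s⁻¹ • y)))
    rw [gL, pow_succ, mul_inv]
    have e : ∫ y in U, Real.exp (-(dotProduct (s • η) y) - s * a * g y) =
        ∫ y in U, (fun y => Real.exp (-(dotProduct η y) - s * a * g (s⁻¹ • y))) (s • y) := by
      congr 1
      funext y
      show _ = Real.exp (-(dotProduct η (s • y)) - s * a * g (s⁻¹ • s • y))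
      rw [inv_smul_smul₀ hs0, smul_dotProduct, dotProduct_smul]
    rw [e, h]
    ring
  refine ⟨base hU hs, ?_, ?_, h4⟩
  · intro η
    have h := base hU hs (fun y => Real.exp (-(dotProduct η y)))
    rw [Lap, Lap, ← h]
    congr 1
    funext y
    show _ = Real.exp (-(dotProduct η (s • y)))
    rw [smul_dotProduct, dotProduct_smul]
  · intro k hk a η
    rw [h4 k a η, gL]
    congr 3
    funext y
    rw [hk y s⁻¹ (inv_nonneg.2 hs.le)]
    congr 1
    field_simp

end Pool.Agent.PCN
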