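import Pool.Agent.PCN.Stmts

/-!
# Module SEC: limits of `g - k` along rays
-/

set_option autoImplicit false

open MeasureTheory Set Filter Topology

namespace Pool.Agent.PCN

namespace SECAux

variable {n : ℕ}

/-- the open cone on which `p` is the strict maximum -/
def S (U : Set (Fin n → ℝ)) (P : Finset (Fin n → ℝ)) (p : Fin n → ℝ) : Set (Fin n → ℝ) :=
  U ∩ {y | ∀ q ∈ P, q ≠ p → dotProduct q y < dotProduct p y}

theorem cont_dot (q : Fin n → ℝ) : Continuous (fun y : Fin n → ℝ => dotProduct q y) := by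
  unfold dotProduct
  fun_prop

theorem S_open {U : Set (Fin n → ℝ)} (hU : OCone U) (P : Finset (Fin n → ℝ)) (p : Fin n → ℝ) :
    IsOpen (S U P p) := by
  have e : {y : Fin n → ℝ | ∀ q ∈ P, q ≠ p → dotProduct q y < dotProduct p y} =
      ⋂ q ∈ P.erase p, {y | dotProduct q y < dotProduct p y} := by
    ext y
    simp only [mem_ofPred_eq, mem_iInter, Finset.mem_erase]
    exact ⟨fun h q hq => h q hq.2 hq.1, fun h q hq hqp => h q ⟨hqp, hq⟩⟩
  unfold S
  rw [e]
  exact hU.op.inter (isOpen_biInter_finset fun q _ => isOpen_lt (cont_dot q) (cont_dot p))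

theorem S_smul {U : Set (Fin n → ℝ)} (hU : OCone U) {P : Finset (Fin n → ℝ)} {p y : Fin n → ℝ}
    (hy : y ∈ S U P p) {s : ℝ} (hs : 0 < s) : s • y ∈ S U P p := by
  refine ⟨hU.smul y hy.1 s hs, fun q hq hqp => ?_⟩
  rw [dotProduct_smul, dotProduct_smul, smul_eq_mul, smul_eq_mul]
  exact mul_lt_mul_of_pos_left (hy.2 q hq hqp) hs

theorem k_eq {U : Set (Fin n → ℝ)} {P : Finset (Fin n → ℝ)} {k : (Fin n → ℝ) → ℝ}
    (hk : IsMaxOf P k) {p y : Fin n → ℝ} (hp : p ∈ P) (hy : y ∈ S U P p) :
    k y = dotProduct p y := by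
  obtain ⟨h1, q, hq, h2⟩ := hk y
  by_cases hqp : q = p
  · rw [h2, hqp]
  · have h3 := hy.2 q hq hqp
    have h4 := h1 p hp
    linarith

theorem ae_ne (v : Fin n → ℝ) (hv : v ≠ 0) : ∀ᵐ y : Fin n → ℝ, dotProduct v y ≠ 0 := by
  let f : (Fin n → ℝ) →ₗ[ℝ] ℝ :=
    { toFun := fun y => dotProduct v y
      map_add' := fun x y => dotProduct_add v x y
      map_smul' := fun c x => by
        rw [dotProduct_smul]
        rfl }
  have hf : ∀ y, f y = dotProduct v y := fun y => rfl
  have h1 : LinearMap.ker f ≠ ⊤ := by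
    intro h
    have h2 : v ∈ LinearMap.ker f := by
      rw [h]
      exact Submodule.mem_top
    rw [LinearMap.mem_ker, hf] at h2
    exact hv (dotProduct_self_eq_zero.1 h2)
  have h2 := Measure.addHaar_submodule (volume : Measure (Fin n → ℝ)) (LinearMap.ker f) h1
  rw [ae_iff]
  have e : {y : Fin n → ℝ | ¬ dotProduct v y ≠ 0} = (LinearMap.ker f : Set (Fin n → ℝ)) := by
    ext y
    simp only [mem_ofPred_eq, not_not, SetLike.mem_coe, LinearMap.mem_ker, hf]
  rw [e]
  exact h2

theorem limit {U : Set (Fin n → ℝ)} {P : Finset (Fin n → ℝ)} {k g : (Fin n → ℝ) → ℝ} {D : ℝ}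
    (hU : OCone U) (hk : IsMaxOf P k) (hrec : ∀ y ∈ U, ∀ x ∈ U, g (y + x) ≤ g y + k x)
    (hlow : ∀ y ∈ U, k y - D ≤ g y) {p y : Fin n → ℝ} (hp : p ∈ P) (hy : y ∈ S U P p) :
    Tendsto (fun s : ℝ => g (s • y) - k (s • y)) atTop
      (𝓝 (sInf ((fun x => g x - dotProduct p x) '' U))) := by
  have hbdd : BddBelow ((fun x => g x - dotProduct p x) '' U) := by
    refine ⟨-D, ?_⟩
    rintro _ ⟨x, hx, rfl⟩
    have h1 := hlow x hx
    have h2 := (hk x).1 p hp
    simp only
    linarith
  have hne : ((fun x => g x - dotProduct p x) '' U).Nonempty := hU.ne.image _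
  refine tendsto_order.2 ⟨fun c hc => ?_, fun c hc => ?_⟩
  · filter_upwards [eventually_gt_atTop (0 : ℝ)] with s hs
    have h1 := S_smul hU hy hs
    rw [k_eq hk hp h1]
    exact lt_of_lt_of_le hc (csInf_le hbdd ⟨s • y, h1.1, rfl⟩)
  · obtain ⟨_, ⟨x, hx, rfl⟩, hxc⟩ := exists_lt_of_csInf_lt hne hc
    have h1 : Tendsto (fun s : ℝ => y - s⁻¹ • x) atTop (𝓝 (y - (0 : ℝ) • x)) :=
      tendsto_const_nhds.sub (tendsto_inv_atTop_zero.smul_const x)
    rw [zero_smul, sub_zero] at h1
    have h2 := h1.eventually ((S_open hU P p).mem_nhds hy)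
    filter_upwards [h2, eventually_gt_atTop (0 : ℝ)] with s h3 hs
    have h4 := S_smul hU h3 hs
    have e : s • (y - s⁻¹ • x) = s • y - x := by
      rw [smul_sub, smul_smul, mul_inv_cancel₀ hs.ne', one_smul]
    rw [e] at h4
    have h5 := hrec x hx _ h4.1
    rw [add_sub_cancel, k_eq hk hp h4, dotProduct_sub] at h5
    rw [k_eq hk hp (S_smul hU hy hs)]
    simp only at hxc
    linarith

end SECAux

open SECAux in
theorem SEC_thm : SEC := by
  intro n U P k g D hU hk hrec hlow
  classical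
  let dd : (Fin n → ℝ) → ℝ := fun p => sInf ((fun x => g x - dotProduct p x) '' U)
  have hval : ∀ p ∈ P, ∀ y ∈ S U P p,
      (∑ q ∈ P, (S U P q).indicator (fun _ => dd q) y) = dd p := by
    intro p hp y hy
    rw [Finset.sum_eq_single_of_mem p hp]
    · exact indicator_of_mem hy _
    · intro q hq hqp
      apply indicator_of_notMem
      intro hy'
      have h1 := hy.2 q hq hqp
      have h2 := hy'.2 p hp (Ne.symm hqp)
      linarith
  refine ⟨fun y => ∑ q ∈ P, (S U P q).indicator (fun _ => dd q) y, insert 0 (P.image dd), ?_, ?_,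
    ?_⟩
  · exact Finset.measurable_sum _ fun q _ => measurable_const.indicator (S_open hU P q).measurableSet
  · intro y
    show (∑ q ∈ P, (S U P q).indicator (fun _ => dd q) y) ∈ insert 0 (P.image dd)
    by_cases h : ∃ p ∈ P, y ∈ S U P p
    · obtain ⟨p, hp, hy⟩ := h
      rw [hval p hp y hy]
      exact Finset.mem_insert_of_mem (Finset.mem_image_of_mem _ hp)
    · have h0 : (∑ q ∈ P, (S U P q).indicator (fun _ => dd q) y) = 0 := by
        apply Finset.sum_eq_zero
        intro q hq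
        apply indicator_of_notMem
        intro hy
        exact h ⟨q, hq, hy⟩
      rw [h0]
      exact Finset.mem_insert_self _ _
  · rw [ae_restrict_iff' hU.op.measurableSet]
    have h1 : ∀ᵐ y : Fin n → ℝ, ∀ p ∈ P, ∀ q ∈ P, p ≠ q → dotProduct (p - q) y ≠ 0 := by
      rw [eventually_all_finset]
      intro p _
      rw [eventually_all_finset]
      intro q _
      by_cases hpq : p = q
      · exact Eventually.of_forall fun y h => absurd hpq h
      · filter_upwards [ae_ne (p - q) (sub_ne_zero.2 hpq)] with y hy _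
        exact hy
    filter_upwards [h1] with y hy hyU
    obtain ⟨h2, p, hp, h3⟩ := hk y
    have hyS : y ∈ S U P p := by
      refine ⟨hyU, fun q hq hqp => ?_⟩
      have h4 := hy p hp q hq (Ne.symm hqp)
      rw [sub_dotProduct] at h4
      have h5 := h2 q hq
      rw [h3] at h5
      exact lt_of_le_of_ne h5 fun h6 => h4 (by rw [h6, sub_self])
    have h6 := hval p hp y hyS
    show Tendsto _ atTop (𝓝 (∑ q ∈ P, (S U P q).indicator (fun _ => dd q) y))
    rw [h6]
    exact limit hU hk hrec hlow hp hyS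

end Pool.Agent.PCN
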