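import Pool.Agent.PCN.Defs

/-!
# Polyhedral recession cones, part I: the analysis at one extreme ray

All statements are independent modules; a statement of the form `INT → ...` may use `INT`.
In the proofs: `U` open convex cone in `ℝ^n`, `N = n + 1`, `η y` is `dotProduct η y`,
`F y = exp (-η y - a k y)`.
-/

open MeasureTheory Set Filter Topology

namespace Pool.Agent.PCN

/-- KPR. A finite maximum of linear forms is continuous and sublinear.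
Proof. `k (x+y) = p (x+y) = p x + p y ≤ k x + k y`. For `s ≥ 0`: `k (s x) = p (s x) = s (p x) ≤
s (k x)` and `s (k x) = s (q x) = q (s x) ≤ k (s x)`. `B = 1 + ∑_{p ∈ P} ∑_i |p i|` gives
`|p x| ≤ B ‖x‖` for `p ∈ P`, so `|k x| ≤ B ‖x‖`. Subadditivity gives
`|k x - k y| ≤ B ‖x - y‖`, hence continuity. -/
def KPR : Prop :=
  ∀ (n : ℕ) (P : Finset (Fin n → ℝ)) (k : (Fin n → ℝ) → ℝ), IsMaxOf P k → Sublin k

/-- INT. Integrability.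
Proof. `(1 + ‖y‖) exp (-c y) ≤ exp M (1 + ‖y‖) exp (-ε ‖y‖) ≤ C (1 + ‖y‖)^(-(n+1))` because
`(1+r)^(n+2) exp (-ε r)` is bounded for `r ≥ 0`; use `integrable_one_add_norm`
(`finrank = n < n + 1`). Measurability: `ContinuousOn` on a measurable set. -/
def INT : Prop :=
  ∀ (n : ℕ) (U : Set (Fin n → ℝ)) (c : (Fin n → ℝ) → ℝ) (ε M : ℝ), MeasurableSet U → 0 < ε →
    ContinuousOn c U → (∀ y ∈ U, ε * ‖y‖ ≤ c y + M) →
    IntegrableOn (fun y => (1 + ‖y‖) * Real.exp (-(c y))) U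

/-- SCL. Scaling. `Measure.setIntegral_comp_smul` and `s • U = U`. The second and third statement
are the first one for `F y = exp (-η y)` and `F y = exp (-η y - a k y)`; the fourth one for
`F y = exp (-η y - s a g (s⁻¹ y))`, `F (s y) = exp (-(s η) y - s a g y)`. (`a = 0` is harmless.) -/
def SCL : Prop :=
  ∀ (n : ℕ) (U : Set (Fin n → ℝ)), OCone U → ∀ s : ℝ, 0 < s →
    (∀ F : (Fin n → ℝ) → ℝ, ∫ y in U, F (s • y) = (s⁻¹) ^ n * ∫ y in U, F y) ∧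
    (∀ η : Fin n → ℝ, Lap U (s • η) = (s⁻¹) ^ n * Lap U η) ∧
    (∀ k : (Fin n → ℝ) → ℝ, (∀ x, ∀ r : ℝ, 0 ≤ r → k (r • x) = r * k x) →
      ∀ (a : ℝ) (η : Fin n → ℝ), gL U k (s * a) (s • η) = (s⁻¹) ^ (n + 1) * gL U k a η) ∧
    (∀ (g : (Fin n → ℝ) → ℝ) (a : ℝ) (η : Fin n → ℝ), gL U g (s * a) (s • η) =
      (s⁻¹) ^ (n + 1) *
        (a⁻¹ * ∫ y in U, Real.exp (-(dotProduct η y) - s * a * g (s⁻¹ • y))))

/-- POS. Positivity. The integrands are positive, integrable (INT with `c = η y + a k y`, `M = 0`;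
`exp (-c) ≤ (1 + ‖y‖) exp (-c)`), and the open nonempty `U` has positive measure. -/
def POS : Prop :=
  INT → ∀ (n : ℕ) (U : Set (Fin n → ℝ)), OCone U →
    (∀ k : (Fin n → ℝ) → ℝ, Continuous k → ∀ (a : ℝ) (η : Fin n → ℝ), (a, η) ∈ Dom U k →
      0 < gL U k a η) ∧
    (∀ η ∈ Ud U, 0 < Lap U η)

/-- SEC. Limits of `g - k` along rays.
Proof. For `p ∈ P` let `S p = {y ∈ U | q y < p y for all q ∈ P, q ≠ p}`, an open cone, and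
`D p = inf_U (g - p) ≥ -D` (because `p ≤ k`). The `S p` are disjoint and cover `U` up to the null
set `⋃_{p ≠ q} {(p - q) y = 0}`. Let `y ∈ S p`. (i) `g (s y) - k (s y) = g (s y) - p (s y) ≥ D p`.
(ii) for `x ∈ U`: for `s` large `y - x / s ∈ S p` (open), so `s y - x ∈ S p ⊆ U`,
`k (s y - x) = p (s y - x)` and `g (s y) ≤ g x + p (s y - x)`, i.e.
`g (s y) - k (s y) ≤ g x - p x`; take the infimum over `x`. So the limit is `D p`. Put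
`d = D p` on `S p` and `d = 0` elsewhere (finite sum of indicators of open sets),
`T = {0} ∪ D '' P`. -/
def SEC : Prop :=
  ∀ (n : ℕ) (U : Set (Fin n → ℝ)) (P : Finset (Fin n → ℝ)) (k g : (Fin n → ℝ) → ℝ) (D : ℝ),
    OCone U → IsMaxOf P k → (∀ y ∈ U, ∀ x ∈ U, g (y + x) ≤ g y + k x) →
    (∀ y ∈ U, k y - D ≤ g y) →
    ∃ (d : (Fin n → ℝ) → ℝ) (T : Finset ℝ), Measurable d ∧ (∀ y, d y ∈ T) ∧
      ∀ᵐ y ∂(volume.restrict U),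
        Tendsto (fun s : ℝ => g (s • y) - k (s • y)) atTop (𝓝 (d y))

/-- FOL. First order expansion at `s = 0`.
Proof. Let `δ = g - k` (so `-D ≤ δ` on `U`). By SCL the quotient is `a⁻¹ ∫_U F(y) q_s(y) dy`,
`q_s(y) = (1 - exp (-s a δ(y/s))) / s`. Fix `y1 ∈ U`, `c = η y1 + a k(y1) ≥ 0`, `R > 0` and let
`A_s = {s R y1 + u | u ∈ U} ⊆ U`. On `A_s` (`y/s = R y1 + u/s`) `δ(y/s) ≤ g (R y1) + k (-(R y1))`
(recc and `k(u/s) ≤ k(y/s) + k(-R y1)`), so `|q_s|` is bounded there for `s ≤ 1` and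
`q_s → a d` a.e.; moreover `1_{A_s}(y) → 1` for `y ∈ U`; so `∫_{A_s} F q_s → a ∫_U F d`
(dominated convergence, `F` integrable by INT). On `U \ A_s`: `-C ≤ q_s ≤ 1/s` and
`∫_{A_s} F = ∫_U F (s R y1 + u) du ≥ exp (-s R c) ∫_U F`, so
`∫_{U \ A_s} F ≤ s R c ∫_U F` and the contribution is at most `(1 + C s) R c ∫_U F`. Let `s → 0`,
then `R → 0`. -/
def FOL : Prop :=
  INT → SCL → ∀ (n : ℕ) (U : Set (Fin n → ℝ)) (k g d : (Fin n → ℝ) → ℝ) (D M : ℝ),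
    OCone U → Sublin k → ContinuousOn g U → (∀ y ∈ U, ∀ x ∈ U, g (y + x) ≤ g y + k x) →
    (∀ y ∈ U, k y - D ≤ g y) → Measurable d → (∀ y, |d y| ≤ M) →
    (∀ᵐ y ∂(volume.restrict U),
      Tendsto (fun s : ℝ => g (s • y) - k (s • y)) atTop (𝓝 (d y))) →
    ∀ (a : ℝ) (η : Fin n → ℝ), (a, η) ∈ Dom U k →
      Tendsto (fun s : ℝ => (gL U k a η - s ^ (n + 1) * gL U g (s * a) (s • η)) / s) (𝓝[>] 0)
        (𝓝 (∫ y in U, Real.exp (-(dotProduct η y) - a * k y) * d y))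

/-- HBW. Abstract form of `h = b ψ + w`.
Proof. (1) `w (s • x) = s * w x`: replace `s` by `t s` in the limit. (2) If `φ x = φ x' = z`:
`exp (s h x) s^N Λ(s x) = exp (s h x') s^N Λ(s x')`; with `s^N Λ(s x) = z - s (z w x + o(1))`
subtract `z`, divide by `s`, `s → 0`: `h x - w x = h x' - w x'`. (3) If `Dm` is empty take `b = 0`;
otherwise fix `x0`, `b = (h x0 - w x0) / rp n (φ x0)`; for `x ∈ Dm` let
`s = (φ x / φ x0)^(1/N)`, so `φ (s x) = φ x0`, `s (h x - w x) = h x0 - w x0` and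
`rp n (φ x) = s⁻¹ * rp n (φ x0)`. -/
def HBW : Prop :=
  ∀ (n : ℕ) (X : Type) [AddCommGroup X] [Module ℝ X] (Dm : Set X) (φ h w Λ : X → ℝ),
    (∀ x ∈ Dm, ∀ s : ℝ, 0 < s → s • x ∈ Dm) → (∀ x ∈ Dm, 0 < φ x) →
    (∀ x ∈ Dm, ∀ s : ℝ, 0 < s → φ (s • x) = (s⁻¹) ^ (n + 1) * φ x) →
    (∀ x ∈ Dm, ∀ s : ℝ, 0 < s → h (s • x) = s * h x) →
    (∀ x ∈ Dm, Tendsto (fun s : ℝ => (φ x - s ^ (n + 1) * Λ (s • x)) / s) (𝓝[>] 0)
      (𝓝 (φ x * w x))) →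
    (∀ x ∈ Dm, ∀ x' ∈ Dm, φ x = φ x' → ∀ s : ℝ, 0 < s →
      Real.exp (s * h x) * Λ (s • x) = Real.exp (s * h x') * Λ (s • x')) →
    ∃ b : ℝ, ∀ x ∈ Dm, h x = b * rp n (φ x) + w x

/-- SUBG. Existence of subgradients on an open set (separate the point `(y, f y)` from the
strict epigraph over `U`, which is convex and open since `f` is continuous on `U`; the functional
is not vertical because `U` is open). -/
def SUBG : Prop :=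
  ∀ (n : ℕ) (U : Set (Fin n → ℝ)) (f : (Fin n → ℝ) → ℝ), IsOpen U → ConvexOn ℝ U f →
    ∀ y ∈ U, ∃ q : Fin n → ℝ, ∀ y' ∈ U, f y + dotProduct q (y' - y) ≤ f y'

/-- HGB. Basic facts. `η y + a g y ≥ η y + a k y - a D ≥ ε ‖y‖ - a D ≥ -a D`;
`Real.sInf_smul_of_nonneg` for the third. -/
def HGB : Prop :=
  ∀ (n : ℕ) (U : Set (Fin n → ℝ)) (k g : (Fin n → ℝ) → ℝ) (D : ℝ), OCone U →
    (∀ y ∈ U, k y - D ≤ g y) → ∀ (a : ℝ) (η : Fin n → ℝ), (a, η) ∈ Dom U k →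
      BddBelow ((fun y => dotProduct η y + a * g y) '' U) ∧
      (∀ y ∈ U, hg U g a η ≤ dotProduct η y + a * g y) ∧
      (∀ s : ℝ, 0 < s → hg U g (s * a) (s • η) = s * hg U g a η) ∧
      (∀ s : ℝ, 0 < s → (s * a, s • η) ∈ Dom U k)

/-- SUP. Support representation.
Proof. `q` a subgradient at `y`. For `x ∈ U`, `s > 0`: `g y + s (q x) ≤ g (y + s x) ≤ g y + s (k x)`,
so `q x ≤ k x`. Let `η0 ∈ Ud U` and `η = -q + t η0`, `t > 0`: `η x + k x ≥ t (η0 x)`, so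
`(1, η) ∈ Dom`; `hg U g 1 η ≥ inf_U (-q y' + g y') ≥ g y - q y`, hence
`hg U g 1 η - η y ≥ g y - t (η0 y)`; choose `t` with `t (η0 y) ≤ ε`. -/
def SUP : Prop :=
  SUBG → ∀ (n : ℕ) (U : Set (Fin n → ℝ)) (k g : (Fin n → ℝ) → ℝ) (D : ℝ), OCone U →
    (Ud U).Nonempty → Sublin k → ConvexOn ℝ U g → (∀ y ∈ U, ∀ x ∈ U, g (y + x) ≤ g y + k x) →
    (∀ y ∈ U, k y - D ≤ g y) → ∀ y ∈ U, ∀ ε : ℝ, 0 < ε →
      ∃ η : Fin n → ℝ, ((1 : ℝ), η) ∈ Dom U k ∧ g y - ε ≤ hg U g 1 η - dotProduct η y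

/-- BPO. The constant `b` is positive.
Proof. Suppose `b ≤ 0`; then `hg U g 1 η ≤ M` (`rp ≥ 0`). Fix `y1 ∈ U` and `0 < τ < 1` with
`g (τ y1) > M + 1` and `g (τ y1) > g y1 + 1`; take `η` for the point `τ y1` and `ε = 1`:
`g (τ y1) - 1 ≤ hg - τ (η y1) ≤ (1 - τ) (η y1) + g y1`, so `η y1 > 0`, so
`g (τ y1) - 1 ≤ M - τ (η y1) < M`, a contradiction. -/
def BPO : Prop :=
  ∀ (n : ℕ) (U : Set (Fin n → ℝ)) (k g : (Fin n → ℝ) → ℝ) (b M : ℝ), OCone U →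
    (∀ η, ((1 : ℝ), η) ∈ Dom U k → 0 < gL U k 1 η) →
    (∀ η, ((1 : ℝ), η) ∈ Dom U k → ∀ y ∈ U, hg U g 1 η ≤ dotProduct η y + g y) →
    (∀ η, ((1 : ℝ), η) ∈ Dom U k → hg U g 1 η ≤ b * rp n (gL U k 1 η) + M) →
    (∀ y ∈ U, ∀ ε : ℝ, 0 < ε →
      ∃ η : Fin n → ℝ, ((1 : ℝ), η) ∈ Dom U k ∧ g y - ε ≤ hg U g 1 η - dotProduct η y) →
    (∀ y ∈ U, Tendsto (fun τ : ℝ => g (τ • y)) (𝓝[>] 0) atTop) → 0 < b

/-- G1A. Lower bound of `g`.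
Proof. Let `y ∈ U`, `k y = p y`, `η ∈ Ud U`. `(1, η - p) ∈ Dom` since
`(η - p) y' + k y' ≥ η y'`. `gL U k 1 (η - p) = ∫ exp (-η y' + p y' - k y') ≤ Lap U η` (INT for
integrability), so `rp n (Lap U η) ≤ rp n (gL U k 1 (η - p))` and
`b rp (Lap U η) - η y + k y - M ≤ hg U g 1 (η - p) - (η - p) y ≤ g y`. -/
def G1A : Prop :=
  INT → ∀ (n : ℕ) (U : Set (Fin n → ℝ)) (P : Finset (Fin n → ℝ)) (k g : (Fin n → ℝ) → ℝ)
    (b M : ℝ), OCone U → (Ud U).Nonempty → IsMaxOf P k → Sublin k → 0 ≤ b →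
    (∀ η, ((1 : ℝ), η) ∈ Dom U k → 0 < gL U k 1 η) →
    (∀ η, ((1 : ℝ), η) ∈ Dom U k → b * rp n (gL U k 1 η) - M ≤ hg U g 1 η) →
    (∀ η, ((1 : ℝ), η) ∈ Dom U k → ∀ y ∈ U, hg U g 1 η ≤ dotProduct η y + g y) →
    ∀ y ∈ U, BddAbove (g1set U b y) ∧ g1 U b y + k y - M ≤ g y

/-- G1B. Upper bound of `g`.
Proof. There is `ℓ` with `k ≤ ℓ` on `U` (a multiple of an element of `Ud U`, `|k y| ≤ B ‖y‖`). If
`(1, η) ∈ Dom` then `η + ℓ ∈ Ud U` and `gL U k 1 η ≥ Lap U (η + ℓ) > 0`, so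
`rp (gL U k 1 η) ≤ rp (Lap U (η + ℓ))`. So `g y - ε ≤ hg U g 1 η - η y ≤
b rp (Lap U (η + ℓ)) - (η + ℓ) y + ℓ y + M ≤ g1 U b y + ℓ y + M`; `ε → 0`. -/
def G1B : Prop :=
  INT → ∀ (n : ℕ) (U : Set (Fin n → ℝ)) (k g : (Fin n → ℝ) → ℝ) (b M : ℝ), OCone U →
    (Ud U).Nonempty → Sublin k → 0 ≤ b → (∀ η ∈ Ud U, 0 < Lap U η) →
    (∀ y ∈ U, BddAbove (g1set U b y)) →
    (∀ η, ((1 : ℝ), η) ∈ Dom U k → hg U g 1 η ≤ b * rp n (gL U k 1 η) + M) →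
    (∀ y ∈ U, ∀ ε : ℝ, 0 < ε →
      ∃ η : Fin n → ℝ, ((1 : ℝ), η) ∈ Dom U k ∧ g y - ε ≤ hg U g 1 η - dotProduct η y) →
    ∃ ℓ : Fin n → ℝ, ∀ y ∈ U, g y ≤ g1 U b y + dotProduct ℓ y + M

/-- G1C. Homogeneity, continuity and positivity of `g1`.
Proof. (1) `η ↦ s^(n+1) η` is a bijection of `Ud U`;
`rp n (Lap U (s^(n+1) η)) = s^n rp n (Lap U η)` by SCL and `(s^(n+1) η) (s⁻¹ y) = s^n (η y)`; so
`g1set (s⁻¹ y) = s^n • g1set y`. (2) `g1` is convex on the open convex `U` as a supremum of affine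
functions, so continuous. (3) with `η = s η0`, `s → 0+`, the values
`b s^(n/(n+1)) rp (Lap U η0) - s (η0 y)` tend to `0` (`n ≥ 1`; for all `n` it suffices that they
are `≥ -s (η0 y)`). -/
def G1C : Prop :=
  SCL → ∀ (n : ℕ) (U : Set (Fin n → ℝ)) (b : ℝ), OCone U → (Ud U).Nonempty → 0 ≤ b →
    (∀ η ∈ Ud U, 0 < Lap U η) → (∀ y ∈ U, BddAbove (g1set U b y)) →
    (∀ y ∈ U, ∀ s : ℝ, 0 < s → g1 U b (s⁻¹ • y) = s ^ n * g1 U b y) ∧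
    ContinuousOn (g1 U b) U ∧ ∀ y ∈ U, 0 ≤ g1 U b y

/-- ALA. The parameters of the blow-up.
Proof. Fix `l > 0`; `a ↦ gL U k a (l η) = a⁻¹ ∫_U exp (-l η y - a k y)` is continuous on `(0, ∞)`
(dominated convergence, `k ≥ 0`), `≤ a⁻¹ Lap U (l η) → 0` as `a → ∞` and
`≥ a⁻¹ ∫_U exp (-l η y - k y) → ∞` as `a → 0+` (for `a ≤ 1`); intermediate values give `α l`.
`z α l ≤ Lap U (l η) = l^(-n) Lap U η`, so `α l / l → 0` as `l → ∞`, and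
`l^n α l = z⁻¹ ∫_U exp (-η u - (α l / l) k u) du → z⁻¹ Lap U η` (SCL, dominated convergence). -/
def ALA : Prop :=
  INT → SCL → ∀ (n : ℕ) (U : Set (Fin n → ℝ)) (k : (Fin n → ℝ) → ℝ), OCone U →
    Sublin k → (∀ y ∈ U, 0 ≤ k y) → (∀ η ∈ Ud U, 0 < Lap U η) → ∀ η ∈ Ud U, ∀ z : ℝ, 0 < z →
    ∃ α : ℝ → ℝ, (∀ l : ℝ, 0 < l → 0 < α l ∧ gL U k (α l) (l • η) = z) ∧
      Tendsto (fun l : ℝ => l ^ n * α l) atTop (𝓝 (Lap U η / z))

/-- BLM. The limit in the blow-up.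
Proof. `gL U g (α l) (l η) = (l^n α l)⁻¹ ∫_U exp (-η u - α l * g (l⁻¹ u)) du` (SCL with the
function `y ↦ exp (-η y - α l * g (l⁻¹ y))`). `α l → 0` (`n ≥ 1`) and
`l^n α l G u - α l M ≤ α l * g (l⁻¹ u) ≤ l^n α l G u + α l (ℓ u) / l + α l M`, so
`α l * g (l⁻¹ u) → a G u`. Dominated by `exp (α l M) exp (-η u)`. -/
def BLM : Prop :=
  INT → SCL → ∀ (n : ℕ) (U : Set (Fin n → ℝ)) (g G : (Fin n → ℝ) → ℝ) (ℓ : Fin n → ℝ)
    (a M : ℝ) (α : ℝ → ℝ), 1 ≤ n → OCone U → ContinuousOn g U → ContinuousOn G U →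
    (∀ y ∈ U, 0 ≤ G y) → (∀ y ∈ U, ∀ s : ℝ, 0 < s → G (s⁻¹ • y) = s ^ n * G y) →
    (∀ y ∈ U, G y - M ≤ g y) → (∀ y ∈ U, g y ≤ G y + dotProduct ℓ y + M) → 0 < a →
    (∀ l : ℝ, 0 < l → 0 < α l) → Tendsto (fun l : ℝ => l ^ n * α l) atTop (𝓝 a) →
    ∀ η ∈ Ud U, Tendsto (fun l : ℝ => gL U g (α l) (l • η)) atTop (𝓝 (gL U G a η))

/-- BUP. The blow-up identity.
Proof. ALA with `z = gL U k a0 η0 = Lap U η / a` gives `α` with
`(α l, l η) ∈ Dom` (`k ≥ 0`), `gL U k (α l) (l η) = z`, `l^n α l → a`, so `α l → 0`. The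
hypothesis gives `exp (w a0 η0) gL U g a0 η0 = exp (w (α l) (l η)) gL U g (α l) (l η)` for all
`l > 0`; let `l → ∞` (BLM, `|w (α l) (l η)| ≤ M α l → 0`). -/
def BUP : Prop :=
  INT → SCL → ALA → BLM → ∀ (n : ℕ) (U : Set (Fin n → ℝ)) (k g G : (Fin n → ℝ) → ℝ)
    (w : ℝ → (Fin n → ℝ) → ℝ) (ℓ : Fin n → ℝ) (M : ℝ), 1 ≤ n → OCone U → Sublin k →
    (∀ y ∈ U, 0 ≤ k y) → ContinuousOn g U → ContinuousOn G U → (∀ y ∈ U, 0 ≤ G y) →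
    (∀ y ∈ U, ∀ s : ℝ, 0 < s → G (s⁻¹ • y) = s ^ n * G y) → (∀ y ∈ U, G y - M ≤ g y) →
    (∀ y ∈ U, g y ≤ G y + dotProduct ℓ y + M) → (∀ η ∈ Ud U, 0 < Lap U η) →
    (∀ (a : ℝ) (η : Fin n → ℝ), (a, η) ∈ Dom U k → |w a η| ≤ M * a) →
    (∀ (a a' : ℝ) (η η' : Fin n → ℝ), (a, η) ∈ Dom U k → (a', η') ∈ Dom U k →
      gL U k a η = gL U k a' η' →
      Real.exp (w a η) * gL U g a η = Real.exp (w a' η') * gL U g a' η') →
    ∀ (a a0 : ℝ) (η η0 : Fin n → ℝ), (a0, η0) ∈ Dom U k → 0 < a → η ∈ Ud U →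
      gL U k a0 η0 = Lap U η / a → Real.exp (w a0 η0) * gL U g a0 η0 = gL U G a η

/-- FOC. First order comparison as `a → 0`.
Proof. Let `μ = exp (-η y) dy` on `U`, `m = Lap U η = μ(U) > 0`. For `a > 0` put
`a' = a m / ∫ exp (-a k) dμ` (`≥ a`). The hypothesis reads
`exp (W a) ∫ exp (-a g) = (∫ exp (-a k) / m) ∫ exp (-a' G)`, i.e.
`(exp (W a) - 1) ∫ exp (-a g) + ∫ (exp (-a g) - exp (-a G)) + ∫ (exp (-a G) - exp (-a' G))
 + (1 - ∫ exp (-a k) / m) ∫ exp (-a' G) = 0` (integrals with respect to `μ`). Divide by `a` and let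
`a → 0+`. Term 1: `→ ω m` (`exp (-a g) ≤ exp (a D)`). Term 2: `→ -∫ (g - G)` (mean value theorem:
the integrand is at most `|g - G| exp D` for `a ≤ 1`, `D ≥ 0`). Term 3:
`0 ≤ exp (-a G) - exp (-a' G) ≤ (a' - a) G exp (-a G)`, `(a' - a) / a^2` is bounded
(`(m - ∫ exp (-a k)) / a ≤ ∫ k`), and `∫ a G exp (-a G) → 0` (dominated by `1`), so `→ 0`.
Term 4: `→ ∫ k` (`a' → 0`). -/
def FOC : Prop :=
  INT → ∀ (n : ℕ) (U : Set (Fin n → ℝ)) (k g G : (Fin n → ℝ) → ℝ) (W : ℝ → ℝ)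
    (ω A B D : ℝ) (η : Fin n → ℝ), OCone U → η ∈ Ud U → 0 < Lap U η → ContinuousOn k U →
    ContinuousOn g U → ContinuousOn G U → (∀ y ∈ U, 0 ≤ k y ∧ k y ≤ B * ‖y‖) →
    (∀ y ∈ U, 0 ≤ G y) → (∀ y ∈ U, |g y - G y| ≤ A + B * ‖y‖) → (∀ y ∈ U, -D ≤ g y) → 0 ≤ D →
    Tendsto (fun a : ℝ => W a / a) (𝓝[>] 0) (𝓝 ω) →
    (∀ a a' : ℝ, 0 < a → 0 < a' → gL U k a η = Lap U η / a' →
      Real.exp (W a) * gL U g a η = gL U G a' η) →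
    ω * Lap U η = ∫ y in U, Real.exp (-(dotProduct η y)) * (g y - G y - k y)

/-- WLI. The limit of `w / a`. For `a > 0`
`ww / a = (∫_U F d) / (∫_U F)`, and both integrals converge (dominated by `M exp (-η y)`,
`k ≥ 0`). -/
def WLI : Prop :=
  INT → ∀ (n : ℕ) (U : Set (Fin n → ℝ)) (k d : (Fin n → ℝ) → ℝ) (M : ℝ) (η : Fin n → ℝ),
    OCone U → Sublin k → (∀ y ∈ U, 0 ≤ k y) → Measurable d → (∀ y, |d y| ≤ M) → η ∈ Ud U →
    0 < Lap U η →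
    Tendsto (fun a : ℝ => ww U k d a η / a) (𝓝[>] 0)
      (𝓝 ((∫ y in U, Real.exp (-(dotProduct η y)) * d y) / Lap U η))

/-- WBD. Bounds of `w`. `gL U k a η = a⁻¹ ∫_U F`, `|∫_U F d| ≤ M ∫_U F`. -/
def WBD : Prop :=
  INT → ∀ (n : ℕ) (U : Set (Fin n → ℝ)) (k d : (Fin n → ℝ) → ℝ) (M : ℝ), OCone U →
    Sublin k → Measurable d → (∀ y, |d y| ≤ M) → ∀ (a : ℝ) (η : Fin n → ℝ), (a, η) ∈ Dom U k →
    0 < gL U k a η →
    |ww U k d a η| ≤ M * a ∧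
    gL U k a η * ww U k d a η = ∫ y in U, Real.exp (-(dotProduct η y) - a * k y) * d y ∧
    ∀ c : ℝ, (∀ᵐ y ∂(volume.restrict U), d y = c) → ww U k d a η = c * a

/-- LIJ. Injectivity of the Laplace transform.
Proof. Let `η0 ∈ Ud U` and `μ± = exp (-η0 y) f± dy` on `U`, finite measures (INT). For `θ ∈ ℝ^n`
and `|t|` small `η0 - t θ ∈ Ud U` (`|θ y| ≤ C ‖y‖`), so `∫ exp (t θ y) dμ+ = ∫ exp (t θ y) dμ-`:
the laws of `y ↦ θ y` under `μ+` and `μ-` have moment generating functions which are finite and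
equal near `0`, so they are equal (`Mathlib.Probability.Moments.ComplexMGF`, or analyticity of
`z ↦ ∫ exp (z θ y) dμ±` in a strip), so the characteristic functions of `μ+` and `μ-` agree at
every `θ` and `μ+ = μ-` (`Measure.ext_of_charFun`); hence `f+ = f-` a.e. on `U`. -/
def LIJ : Prop :=
  INT → ∀ (n : ℕ) (U : Set (Fin n → ℝ)) (f : (Fin n → ℝ) → ℝ) (A B : ℝ), OCone U →
    (Ud U).Nonempty → AEStronglyMeasurable f (volume.restrict U) →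
    (∀ y ∈ U, |f y| ≤ A + B * ‖y‖) →
    (∀ η ∈ Ud U, ∫ y in U, Real.exp (-(dotProduct η y)) * f y = 0) →
    ∀ᵐ y ∂(volume.restrict U), f y = 0

/-- CST. A continuous function which is a.e. equal to a function with finitely many values is
constant. Proof. `κ` has values in the closed set `T` on a dense subset of the open set `U`, so on
`U`; `U` is convex, so connected; a continuous function with finitely many values on a connected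
set is constant. -/
def CST : Prop :=
  ∀ (n : ℕ) (U : Set (Fin n → ℝ)) (κ d : (Fin n → ℝ) → ℝ) (T : Finset ℝ), OCone U →
    ContinuousOn κ U → (∀ y, d y ∈ T) → (∀ᵐ y ∂(volume.restrict U), κ y = d y) →
    ∃ c : ℝ, ∀ y ∈ U, κ y = c

/-- GAI. The gain.
Proof. Suppose `k y2 > 0` for some `y2 ∈ U`. Write `ψ1 η = rp n (Lap U η)`.
(1) `S = g1 U b y0 > 0`: for `η = s η0` the value is `b s^(n/(n+1)) ψ1 η0 - s (η0 y0)`, positive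
for small `s` (SCL). (2) If `η ∈ Ud U` and `b ψ1 η - η y0 ≥ S/2`, then `ψ1 η ≥ S/(2b) =: c0`
(`η y0 ≥ 0`) and `0 ≤ b ψ1 η - η y0 ≤ g1 (y0/2) - (η y0)/2`, so `η y0 ≤ 2 g1 (y0/2)`; since a ball
of radius `r` around `y0` is in `U` and `η ≥ 0` on `U`, `r ∑ |η i| ≤ η y0`; so
`η y ≤ R ‖y‖` on `U` with `R` independent of `η`. (3) For such `η`:
`Lap U η - gL U k 1 η = ∫_U exp (-η y) (1 - exp (-k y)) ≥ ∫_U exp (-R ‖y‖) (1 - exp (-k y)) =: c1`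
and `c1 > 0`. With `z = Lap U η`, `z' = gL U k 1 η`, `0 < z' ≤ z - c1`:
`rp z' ≥ rp z + c1 c0^(n+2) / (n+1)` (mean value theorem for `z ↦ z^(-1/(n+1))`, derivative
`-(1/(n+1)) z^(-1/(n+1) - 1)`, absolute value at least `c0^(n+2)/(n+1)` on `[z', z]`). (4) So
`b ψ1 η - η y0 + b c1 c0^(n+2)/(n+1) ≤ g1 U b y0` for all near maximisers: contradiction. -/
def GAI : Prop :=
  INT → SCL → ∀ (n : ℕ) (U : Set (Fin n → ℝ)) (k : (Fin n → ℝ) → ℝ) (b : ℝ)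
    (y0 : Fin n → ℝ), OCone U → (Ud U).Nonempty → Sublin k → (∀ y ∈ U, 0 ≤ k y) → 0 < b →
    (∀ η ∈ Ud U, 0 < Lap U η) → (∀ η ∈ Ud U, 0 < gL U k 1 η) →
    (∀ y ∈ U, BddAbove (g1set U b y)) → y0 ∈ U →
    (∀ η ∈ Ud U, b * rp n (gL U k 1 η) - dotProduct η y0 ≤ g1 U b y0) → ∀ y ∈ U, k y = 0

/-- RAYT (assembly of the statements above). -/
def RAYT : Prop :=
  ∀ (n : ℕ) (U : Set (Fin n → ℝ)) (P : Finset (Fin n → ℝ)) (k g : (Fin n → ℝ) → ℝ) (D : ℝ),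
    Ray U P k g D → ∀ y ∈ U, k y = 0

end Pool.Agent.PCN
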