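import Mathlib
import Pool.Agent.PCN.Stmts

/-!
# SUBG: subgradients of a convex function on an open set
-/

set_option autoImplicit false

open MeasureTheory Set Filter Topology

namespace Pool.Agent.PCN

namespace SUBGAux

/-- The strict epigraph of a convex function over an open set is open. -/
theorem isOpen_epi (n : ℕ) (U : Set (Fin n → ℝ)) (f : (Fin n → ℝ) → ℝ) (hU : IsOpen U)
    (hf : ConvexOn ℝ U f) :
    IsOpen {p : (Fin n → ℝ) × ℝ | p.1 ∈ U ∧ f p.1 < p.2} := by
  have hc : ContinuousOn f U := hf.continuousOn hU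
  have hc' : ContinuousOn (fun p : (Fin n → ℝ) × ℝ => p.2 - f p.1) (U ×ˢ (univ : Set ℝ)) := by
    apply ContinuousOn.sub continuousOn_snd
    exact hc.comp continuousOn_fst (fun p hp => hp.1)
  have ho := hc'.isOpen_inter_preimage (hU.prod isOpen_univ) (isOpen_Ioi (a := (0 : ℝ)))
  convert ho using 1
  ext p
  simp [sub_pos]

end SUBGAux

theorem SUBG_thm : SUBG := by
  intro n U f hU hf y hy
  have hnot : ((y, f y) : (Fin n → ℝ) × ℝ) ∉ {p : (Fin n → ℝ) × ℝ | p.1 ∈ U ∧ f p.1 < p.2} := by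
    simp
  obtain ⟨φ, hφ⟩ := geometric_hahn_banach_open_point hf.convex_strict_epigraph
    (SUBGAux.isOpen_epi n U f hU hf) hnot
  set c : ℝ := φ ((0 : Fin n → ℝ), (1 : ℝ)) with hcdef
  set l : (Fin n → ℝ) →ₗ[ℝ] ℝ :=
    (φ : ((Fin n → ℝ) × ℝ) →ₗ[ℝ] ℝ) ∘ₗ (LinearMap.inl ℝ (Fin n → ℝ) ℝ) with hldef
  have hsplit : ∀ (x : Fin n → ℝ) (r : ℝ), φ (x, r) = l x + c * r := by
    intro x r
    have h1 : ((x, r) : (Fin n → ℝ) × ℝ) = (x, 0) + r • ((0 : Fin n → ℝ), (1 : ℝ)) := by
      ext <;> simp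
    rw [h1, map_add, map_smul, smul_eq_mul, mul_comm r]
    rfl
  have hc : c < 0 := by
    have h1 := hφ (y, f y + 1) ⟨hy, by simp⟩
    rw [hsplit, hsplit] at h1
    linarith
  refine ⟨fun i => -(l (Pi.single i 1)) / c, ?_⟩
  intro y' hy'
  have hdot : dotProduct (fun i => -(l (Pi.single i 1)) / c) (y' - y) = -(l (y' - y)) / c := by
    have h2 : l (y' - y) = ∑ i, (y' - y) i * l (Pi.single i 1) := by
      have := LinearMap.pi_apply_eq_sum_univ l (y' - y)
      rw [this]
      apply Finset.sum_congr rfl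
      intro i _
      rw [smul_eq_mul]
      congr 2
      funext j
      simp [Pi.single_apply, eq_comm]
    rw [h2, dotProduct, ← Finset.sum_neg_distrib, Finset.sum_div]
    apply Finset.sum_congr rfl
    intro i _
    ring
  rw [hdot]
  apply le_of_forall_pos_le_add
  intro ε hε
  have h1 := hφ (y', f y' + ε) ⟨hy', by simpa using hε⟩
  rw [hsplit, hsplit] at h1
  have h3 : l (y' - y) = l y' - l y := map_sub l y' y
  rw [h3]
  have h4 : -(l y' - l y) / c ≤ f y' + ε - f y := by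
    rw [div_le_iff_of_neg hc]
    nlinarith
  linarith

end Pool.Agent.PCN
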