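import Pool.Agent.PCN.Stmts

/-!
# SUP: support representation
-/

set_option autoImplicit false

open MeasureTheory Set Filter Topology

namespace Pool.Agent.PCN

theorem SUP_thm : SUP := by
  intro hsub n U k g D hU hUd hk hg1 hrec hlow y hy ε hε
  obtain ⟨q, hq⟩ := hsub n U g hU.op hg1 y hy
  obtain ⟨η0, ε0, hε0, hη0⟩ := hUd
  have hpos : ∀ x ∈ U, 0 ≤ dotProduct η0 x := fun x hx =>
    le_trans (by positivity) (hη0 x hx)
  have hqk : ∀ x ∈ U, dotProduct q x ≤ k x := by
    intro x hx
    have h1 := hq (y + x) (hU.add y hy x hx)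
    rw [add_sub_cancel_left] at h1
    have h2 := hrec y hy x hx
    linarith
  set t : ℝ := ε / (dotProduct η0 y + 1) with ht
  have hy0 : 0 ≤ dotProduct η0 y := hpos y hy
  have htpos : 0 < t := by rw [ht]; positivity
  have hty : t * dotProduct η0 y ≤ ε := by
    rw [ht, div_mul_eq_mul_div, div_le_iff₀ (by linarith)]
    nlinarith
  have hη : ∀ x, dotProduct (-q + t • η0) x = -dotProduct q x + t * dotProduct η0 x := by
    intro x
    rw [add_dotProduct, neg_dotProduct, smul_dotProduct, smul_eq_mul]
  refine ⟨-q + t • η0, ⟨one_pos, t * ε0, by positivity, ?_⟩, ?_⟩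
  · intro x hx
    change t * ε0 * ‖x‖ ≤ dotProduct (-q + t • η0) x + 1 * k x
    rw [hη, one_mul]
    have h1 := hqk x hx
    have h2 := mul_le_mul_of_nonneg_left (hη0 x hx) htpos.le
    nlinarith
  · have h3 : g y - dotProduct q y ≤ hg U g 1 (-q + t • η0) := by
      unfold hg
      refine le_csInf (hU.ne.image _) ?_
      rintro _ ⟨x, hx, rfl⟩
      change g y - dotProduct q y ≤ dotProduct (-q + t • η0) x + 1 * g x
      rw [hη, one_mul]
      have h4 := hq x hx
      rw [dotProduct_sub] at h4
      have h5 := mul_nonneg htpos.le (hpos x hx)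
      linarith
    rw [hη]
    linarith

end Pool.Agent.PCN
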