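import Pool.Agent.PCN.Stmts

open MeasureTheory Set Filter Topology

namespace Pool.Agent.PCN.WBDAux

theorem integrable_F (hINT : INT) {n : ℕ} {U : Set (Fin n → ℝ)} {k : (Fin n → ℝ) → ℝ}
    (hU : OCone U) (hk : Sublin k) {a : ℝ} {η : Fin n → ℝ} (hd : (a, η) ∈ Dom U k) :
    IntegrableOn (fun y => Real.exp (-(dotProduct η y) - a * k y)) U := by
  obtain ⟨-, ε, hε, hb⟩ := hd
  have hc : Continuous (fun y : Fin n → ℝ => dotProduct η y + a * k y) := by
    have h1 : Continuous (fun y : Fin n → ℝ => dotProduct η y) := by
      unfold dotProduct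
      exact continuous_finsetSum _ (fun i _ => continuous_const.mul (continuous_apply i))
    exact h1.add (continuous_const.mul hk.cont)
  have h := hINT n U (fun y => dotProduct η y + a * k y) ε 0 hU.op.measurableSet hε
    hc.continuousOn (fun y hy => by simpa using hb y hy)
  refine Integrable.mono' h ?_ ?_
  · refine Continuous.aestronglyMeasurable ?_
    have : (fun y : Fin n → ℝ => Real.exp (-(dotProduct η y) - a * k y)) =
        fun y => Real.exp (-(dotProduct η y + a * k y)) := by
      funext y
      congr 1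
      ring
    rw [this]
    exact Real.continuous_exp.comp hc.neg
  · refine Filter.Eventually.of_forall (fun y => ?_)
    have e : (-(dotProduct η y) - a * k y) = -(dotProduct η y + a * k y) := by ring
    rw [e, Real.norm_eq_abs, abs_of_pos (Real.exp_pos _)]
    have h0 := Real.exp_pos (-(dotProduct η y + a * k y))
    have h1 := norm_nonneg y
    nlinarith

end Pool.Agent.PCN.WBDAux

namespace Pool.Agent.PCN

theorem WBD_thm : WBD := by
  intro hINT n U k d M hU hk hd hM a η hdom hpos
  have ha : 0 < a := hdom.1
  have hF := WBDAux.integrable_F hINT hU hk hdom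
  set F : (Fin n → ℝ) → ℝ := fun y => Real.exp (-(dotProduct η y) - a * k y) with hFdef
  have hgL : gL U k a η = a⁻¹ * ∫ y in U, F y := rfl
  have hI : 0 < ∫ y in U, F y := by
    rw [hgL] at hpos
    exact (pos_iff_pos_of_mul_pos hpos).1 (inv_pos.2 ha)
  have hww : ww U k d a η = (∫ y in U, F y * d y) / gL U k a η := rfl
  have hg0 : gL U k a η ≠ 0 := hpos.ne'
  have hbd : |∫ y in U, F y * d y| ≤ M * ∫ y in U, F y := by
    rw [← Real.norm_eq_abs, ← integral_const_mul]
    refine norm_integral_le_of_norm_le (hF.const_mul M) (Filter.Eventually.of_forall fun y => ?_)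
    rw [Real.norm_eq_abs, abs_mul, abs_of_pos (Real.exp_pos _), mul_comm]
    exact mul_le_mul_of_nonneg_right (hM y) (Real.exp_pos _).le
  refine ⟨?_, ?_, ?_⟩
  · rw [hww, abs_div, abs_of_pos hpos, div_le_iff₀ hpos, hgL]
    calc |∫ y in U, F y * d y| ≤ M * ∫ y in U, F y := hbd
      _ = M * a * (a⁻¹ * ∫ y in U, F y) := by
        field_simp
  · rw [hww]
    exact mul_div_cancel₀ _ hg0
  · intro c hc
    have h1 : ∫ y in U, F y * d y = c * ∫ y in U, F y := by
      rw [← integral_const_mul]
      refine integral_congr_ae ?_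
      filter_upwards [hc] with y hy
      rw [hy, mul_comm]
    rw [hww, h1, hgL]
    have hI0 := hI.ne'
    field_simp

end Pool.Agent.PCN
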