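import Pool.Agent.PCN.Stmts

/-!
# Polyhedral recession cones, module WLI: the limit of `w / a`
-/

open MeasureTheory Set Filter Topology

namespace Pool.Agent.PCN

namespace WLIAux

/-- The exponential of a coercive functional is integrable. -/
theorem integrable_exp (hI : INT) {n : ℕ} {U : Set (Fin n → ℝ)} (hU : OCone U)
    {η : Fin n → ℝ} (hη : η ∈ Ud U) :
    Integrable (fun y => Real.exp (-(dotProduct η y))) (volume.restrict U) := by
  obtain ⟨ε, hε, h⟩ := hη
  have hc : Continuous fun y : Fin n → ℝ => dotProduct η y := by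
    unfold dotProduct
    fun_prop
  have h1 : IntegrableOn (fun y => (1 + ‖y‖) * Real.exp (-(dotProduct η y))) U :=
    hI n U (fun y => dotProduct η y) ε 0 hU.op.measurableSet hε hc.continuousOn
      (fun y hy => by rw [add_zero]; exact h y hy)
  refine Integrable.mono h1 (by fun_prop) (Eventually.of_forall fun y => ?_)
  rw [Real.norm_of_nonneg (Real.exp_pos _).le,
    Real.norm_of_nonneg (mul_nonneg (by positivity) (Real.exp_pos _).le)]
  have h2 : 0 ≤ ‖y‖ * Real.exp (-(dotProduct η y)) := by positivity
  nlinarith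

/-- Dominated convergence for a bounded factor. -/
theorem lim (hI : INT) {n : ℕ} {U : Set (Fin n → ℝ)} (hU : OCone U) {k d : (Fin n → ℝ) → ℝ}
    {M : ℝ} {η : Fin n → ℝ} (hk : Continuous k) (hk0 : ∀ y ∈ U, 0 ≤ k y) (hd : Measurable d)
    (hM : ∀ y, |d y| ≤ M) (hη : η ∈ Ud U) :
    Tendsto (fun a : ℝ => ∫ y in U, Real.exp (-(dotProduct η y) - a * k y) * d y) (𝓝[>] 0)
      (𝓝 (∫ y in U, Real.exp (-(dotProduct η y)) * d y)) := by
  have hc : Continuous fun y : Fin n → ℝ => dotProduct η y := by
    unfold dotProduct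
    fun_prop
  apply tendsto_integral_filter_of_dominated_convergence
    (fun y => Real.exp (-(dotProduct η y)) * M)
  · exact Eventually.of_forall fun a =>
      ((Real.continuous_exp.comp (hc.neg.sub (continuous_const.mul hk))).measurable.mul
        hd).aestronglyMeasurable
  · filter_upwards [self_mem_nhdsWithin] with a ha
    refine (ae_restrict_iff' hU.op.measurableSet).2 (Eventually.of_forall fun y hy => ?_)
    rw [Real.norm_eq_abs, abs_mul, abs_of_pos (Real.exp_pos _)]
    have h1 : 0 ≤ a * k y := mul_nonneg (le_of_lt ha) (hk0 y hy)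
    exact mul_le_mul (Real.exp_le_exp.2 (by linarith)) (hM y) (abs_nonneg _)
      (Real.exp_pos _).le
  · exact (integrable_exp hI hU hη).mul_const M
  · refine Eventually.of_forall fun y => ?_
    have h1 : Tendsto (fun a : ℝ => Real.exp (-(dotProduct η y) - a * k y) * d y) (𝓝 0)
        (𝓝 (Real.exp (-(dotProduct η y) - 0 * k y) * d y)) := by
      apply Continuous.tendsto
      fun_prop
    rw [zero_mul, sub_zero] at h1
    exact h1.mono_left nhdsWithin_le_nhds

end WLIAux

open WLIAux in
theorem WLI_thm : WLI := by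
  intro hI n U k d M η hU hk hk0 hd hM hη hL
  have h1 := lim hI hU hk.cont hk0 hd hM hη
  have h2 := lim hI hU hk.cont hk0 (d := fun _ => 1) (M := 1) measurable_const
    (fun y => by rw [abs_one]) hη
  simp only [mul_one] at h2
  have h3 := h1.div h2 hL.ne'
  refine h3.congr' ?_
  filter_upwards [self_mem_nhdsWithin] with a ha
  have ha' : a ≠ 0 := ne_of_gt ha
  change _ / _ = ww U k d a η / a
  unfold ww gL
  rw [div_div, mul_comm (a⁻¹) _, mul_assoc, inv_mul_cancel₀ ha', mul_one]

end Pool.Agent.PCN
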