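import Pool.Agent.PCN.RayAssembly
import Pool.Agent.PCN.KPR
import Pool.Agent.PCN.INT
import Pool.Agent.PCN.SCL
import Pool.Agent.PCN.POS
import Pool.Agent.PCN.SEC
import Pool.Agent.PCN.FOL
import Pool.Agent.PCN.HBW
import Pool.Agent.PCN.SUBG
import Pool.Agent.PCN.HGB
import Pool.Agent.PCN.SUP
import Pool.Agent.PCN.BPO
import Pool.Agent.PCN.G1A
import Pool.Agent.PCN.G1B
import Pool.Agent.PCN.G1C
import Pool.Agent.PCN.ALA
import Pool.Agent.PCN.BLM
import Pool.Agent.PCN.BUP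
import Pool.Agent.PCN.FOC
import Pool.Agent.PCN.WLI
import Pool.Agent.PCN.WBD
import Pool.Agent.PCN.LIJ
import Pool.Agent.PCN.CST
import Pool.Agent.PCN.GAI

/-!
# The theorem at one extreme ray
-/

namespace Pool.Agent.PCN

theorem RAYT_thm : RAYT :=
  rayt_of KPR_thm INT_thm SCL_thm POS_thm SEC_thm FOL_thm HBW_thm SUBG_thm HGB_thm SUP_thm
    BPO_thm G1A_thm G1B_thm G1C_thm t_ALA BLM_thm BUP_thm FOC_thm WLI_thm WBD_thm LIJ_thm
    CST_thm GAI_thm

end Pool.Agent.PCN
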